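import Mathlib

/-!
# Symplectic forms, products and deformation equivalence

Smooth manifolds are modelled on normed spaces by Mathlib's `ModelWithCorners`; differential
two-forms are fields of bilinear forms on the tangent spaces.
-/

open scoped Manifold ContDiff

noncomputable section

namespace Pool.Agent.L5helper94.FS

/-- The two-sphere: the unit sphere of Euclidean three-space, with its smooth structure from
Mathlib. -/
abbrev S2 : Type := Metric.sphere (0 : EuclideanSpace ℝ (Fin 3)) 1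

section
variable {E : Type*} [NormedAddCommGroup E] [NormedSpace ℝ E] {H : Type*} [TopologicalSpace H]
  (I : ModelWithCorners ℝ E H) (M : Type*) [TopologicalSpace M] [ChartedSpace H M]

/-- Fields of bilinear forms on the tangent spaces of `M`. -/
abbrev BilinField : Type _ := (x : M) → TangentSpace I x →L[ℝ] TangentSpace I x →L[ℝ] ℝ

variable {I M}

/-- The coordinate expression of the field of bilinear forms `Ω` in the preferred chart `c` at
`x₀`: at the point `y` of the model space it is the pull back of `Ω` by `c⁻¹`. -/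
def formInChart (Ω : BilinField I M) (x₀ : M) (y : E) : E →L[ℝ] E →L[ℝ] ℝ :=
  let b : E →L[ℝ] E →L[ℝ] ℝ := Ω ((extChartAt I x₀).symm y)
  let D : E →L[ℝ] E := mfderiv 𝓘(ℝ, E) I (extChartAt I x₀).symm y
  b.bilinearComp D D

/-- `Ω` is a closed smooth two-form: it is alternating, and its coordinate expressions are smooth
and closed. -/
structure IsClosedForm (Ω : BilinField I M) : Prop where
  alt : ∀ x v, Ω x v v = 0
  smooth : ∀ x₀ : M, ContDiffOn ℝ ∞ (formInChart Ω x₀) (extChartAt I x₀).target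
  closed : ∀ x₀ : M, ∀ y ∈ (extChartAt I x₀).target, ∀ a b c : E,
    fderiv ℝ (formInChart Ω x₀) y a b c + fderiv ℝ (formInChart Ω x₀) y b c a
      + fderiv ℝ (formInChart Ω x₀) y c a b = 0

/-- `Ω` is a symplectic form: a nondegenerate closed smooth two-form. -/
structure IsSymplectic (Ω : BilinField I M) : Prop extends IsClosedForm Ω where
  nondegenerate : ∀ x v, (∀ w, Ω x v w = 0) → v = 0

variable {E' : Type*} [NormedAddCommGroup E'] [NormedSpace ℝ E'] {H' : Type*}
  [TopologicalSpace H'] {J : ModelWithCorners ℝ E' H'} {N : Type*} [TopologicalSpace N]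
  [ChartedSpace H' N]

/-- The pull back `g^* Ω` of `Ω` by the map `g : N → M`:
`(g^* Ω)_x (v, w) = Ω_{g x} (dg v, dg w)`. -/
def pull (g : N → M) (Ω : BilinField I M) : BilinField J N := fun x =>
  let b : E →L[ℝ] E →L[ℝ] ℝ := Ω (g x)
  let D : E' →L[ℝ] E := mfderiv J I g x
  (b.bilinearComp D D : E' →L[ℝ] E' →L[ℝ] ℝ)

/-- The opposite form `-Ω`. -/
def negForm (Ω : BilinField I M) : BilinField I M := fun x => - Ω x

/-- The product form `Ω ⊕ σ = pr₁^* Ω + pr₂^* σ` on `M × N`. -/
def prodForm (Ω : BilinField I M) (σ : BilinField J N) : BilinField (I.prod J) (M × N) := fun x =>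
  pull Prod.fst Ω x + pull Prod.snd σ x

/-- `(M, Ω₀)` and `(N, Ω₁)` are symplectically deformation equivalent: there are a diffeomorphism
`φ : M → N` and a smooth family `Ω t`, `t ∈ [0, 1]`, of symplectic forms on `M` with `Ω 0 = Ω₀`
and `Ω 1 = φ^* Ω₁`. -/
def DeformationEquivalent (Ω₀ : BilinField I M) (Ω₁ : BilinField J N) : Prop :=
  ∃ (φ : M ≃ₘ^∞⟮I, J⟯ N) (Ω : ℝ → BilinField I M),
    (∀ t ∈ Set.Icc (0 : ℝ) 1, IsSymplectic (Ω t)) ∧
    (∀ x₀ : M, ContDiffOn ℝ ∞ (fun p : ℝ × E => formInChart (Ω p.1) x₀ p.2)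
      (Set.Icc (0 : ℝ) 1 ×ˢ (extChartAt I x₀).target)) ∧
    Ω 0 = Ω₀ ∧ Ω 1 = pull φ Ω₁

variable {E₁ : Type*} [NormedAddCommGroup E₁] [NormedSpace ℝ E₁] {H₁ : Type*}
  [TopologicalSpace H₁] {I₁ : ModelWithCorners ℝ E₁ H₁} {M₁ : Type*} [TopologicalSpace M₁]
  [ChartedSpace H₁ M₁]
  {E₂ : Type*} [NormedAddCommGroup E₂] [NormedSpace ℝ E₂] {H₂ : Type*}
  [TopologicalSpace H₂] {I₂ : ModelWithCorners ℝ E₂ H₂} {M₂ : Type*} [TopologicalSpace M₂]
  [ChartedSpace H₂ M₂]
  {F : Type*} [NormedAddCommGroup F] [NormedSpace ℝ F] {G : Type*}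
  [TopologicalSpace G] {K : ModelWithCorners ℝ F G} {S : Type*} [TopologicalSpace S]
  [ChartedSpace G S]

/-- The products `(M₁ × S, Ω₁ ⊕ σ₁)` and `(M₂ × S, Ω₂ ⊕ σ₂)` are symplectically deformation
equivalent. -/
def ProductsEquivalent (Ω₁ : BilinField I₁ M₁) (σ₁ : BilinField K S) (Ω₂ : BilinField I₂ M₂)
    (σ₂ : BilinField K S) : Prop :=
  DeformationEquivalent (prodForm Ω₁ σ₁) (prodForm Ω₂ σ₂)

end

end Pool.Agent.L5helper94.FS
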