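import Mathlib
import Pool.Agent.L5helper94.FS.Defs
import Pool.Agent.Helper206.Cover.Geometry
import Pool.Agent.Y519.AS.Homot

/-!
# The standard area form of the sphere
-/

open scoped Manifold ContDiff Topology
open Set Filter
open Pool.Agent.Helper206.Cover (R3 cross dInc dInc_injective inner_dInc tanProj dInc_tanProj
  inner_cross_self' Zc contDiff_Zc dInc_mfderiv_symm inner_self_P1)
open Pool.Agent.Y519.AS (contDiff_form fderiv_apply2)

namespace Pool.Agent.L5helper94.FS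

/-- the determinant of three vectors -/
noncomputable def triL (z : R3) : R3 →ₗ[ℝ] R3 →ₗ[ℝ] ℝ :=
  LinearMap.mk₂ ℝ (fun a b => z 0 * (a 1 * b 2 - a 2 * b 1) + z 1 * (a 2 * b 0 - a 0 * b 2)
      + z 2 * (a 0 * b 1 - a 1 * b 0))
    (fun u u' w => by simp; ring) (fun c u w => by simp; ring)
    (fun u w w' => by simp; ring) (fun c u w => by simp; ring)

/-- the determinant of three vectors -/
noncomputable def tri (z : R3) : R3 →L[ℝ] R3 →L[ℝ] ℝ :=
  LinearMap.toContinuousLinearMap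
    ((LinearMap.toContinuousLinearMap : (R3 →ₗ[ℝ] ℝ) ≃ₗ[ℝ] (R3 →L[ℝ] ℝ)).toLinearMap ∘ₗ triL z)

theorem tri_apply (z a b : R3) : tri z a b = z 0 * (a 1 * b 2 - a 2 * b 1)
    + z 1 * (a 2 * b 0 - a 0 * b 2) + z 2 * (a 0 * b 1 - a 1 * b 0) := rfl

/-- the standard area form of the sphere -/
noncomputable def area : BilinField (𝓡 2) S2 := fun z =>
  let D : EuclideanSpace ℝ (Fin 2) →L[ℝ] R3 := dInc z
  ((tri (z : R3)).bilinearComp D D :
    EuclideanSpace ℝ (Fin 2) →L[ℝ] EuclideanSpace ℝ (Fin 2) →L[ℝ] ℝ)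

theorem area_apply (z : S2) (u w : TangentSpace (𝓡 2) z) :
    area z u w = tri (z : R3) (dInc z u) (dInc z w) := rfl

theorem formInChart_area (z₀ : S2) (y u w : EuclideanSpace ℝ (Fin 2)) :
    formInChart area z₀ y u w
      = tri (Zc z₀ y) (fderiv ℝ (Zc z₀) y u) (fderiv ℝ (Zc z₀) y w) := by
  rw [← dInc_mfderiv_symm, ← dInc_mfderiv_symm]
  rfl

theorem contDiff_area (z₀ : S2) : ContDiff ℝ ∞ (formInChart area z₀) := by
  refine contDiff_form fun u w => ?_
  simp only [formInChart_area, tri_apply]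
  have hZ : ∀ i : Fin 3, ContDiff ℝ ∞ (fun y => (Zc z₀ y) i) := fun i =>
    (EuclideanSpace.proj (𝕜 := ℝ) i : R3 →L[ℝ] ℝ).contDiff.comp (contDiff_Zc z₀)
  have hD : ∀ (i : Fin 3) (u : EuclideanSpace ℝ (Fin 2)),
      ContDiff ℝ ∞ (fun y => (fderiv ℝ (Zc z₀) y u) i) := by
    intro i u
    have h1 : ContDiff ℝ ∞ (fun y => fderiv ℝ (Zc z₀) y u) :=
      ((contDiff_Zc z₀).fderiv_right (m := ∞) (by simp)).clm_apply contDiff_const
    exact (EuclideanSpace.proj (𝕜 := ℝ) i : R3 →L[ℝ] ℝ).contDiff.comp h1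
  exact (((hZ 0).mul (((hD 1 u).mul (hD 2 w)).sub ((hD 2 u).mul (hD 1 w)))).add
    ((hZ 1).mul (((hD 2 u).mul (hD 0 w)).sub ((hD 0 u).mul (hD 2 w))))).add
    ((hZ 2).mul (((hD 0 u).mul (hD 1 w)).sub ((hD 1 u).mul (hD 0 w))))

theorem closed_two_dim {β : EuclideanSpace ℝ (Fin 2) → EuclideanSpace ℝ (Fin 2) →L[ℝ]
    EuclideanSpace ℝ (Fin 2) →L[ℝ] ℝ} (hβ : ContDiff ℝ ∞ β) (halt : ∀ y u, β y u u = 0)
    (y a b c : EuclideanSpace ℝ (Fin 2)) :
    fderiv ℝ β y a b c + fderiv ℝ β y b c a + fderiv ℝ β y c a b = 0 := by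
  have hd := hβ.differentiable (by simp) y
  have h1 : ∀ a b, fderiv ℝ β y a b b = 0 := by
    intro a b
    rw [← fderiv_apply2 hd]
    simp only [halt]
    simp
  set T := fderiv ℝ β y with hT
  have h2 : ∀ a b c, T a b c = - T a c b := by
    intro a b c
    have := h1 a (b + c)
    simp only [map_add, _root_.add_apply, h1, zero_add, add_zero] at this
    linarith
  set e₀ : EuclideanSpace ℝ (Fin 2) := EuclideanSpace.single 0 1 with he₀
  set e₁ : EuclideanSpace ℝ (Fin 2) := EuclideanSpace.single 1 1 with he₁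
  have hx : ∀ x : EuclideanSpace ℝ (Fin 2), x = x 0 • e₀ + x 1 • e₁ := by
    intro x
    ext i
    fin_cases i <;> simp [he₀, he₁]
  have key : ∀ a b c : EuclideanSpace ℝ (Fin 2), T a b c
      = (a 0 * T e₀ e₀ e₁ + a 1 * T e₁ e₀ e₁) * (b 0 * c 1 - b 1 * c 0) := by
    intro a b c
    conv_lhs => rw [hx a, hx b, hx c]
    simp only [map_add, map_smul, _root_.add_apply, _root_.smul_apply, smul_eq_mul, h1]
    rw [h2 e₀ e₁ e₀, h2 e₁ e₁ e₀]
    ring
  rw [key a b c, key b c a, key c a b]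
  ring

theorem isSymplectic_area : IsSymplectic area where
  alt z v := by
    rw [area_apply, tri_apply]; ring
  smooth z₀ := (contDiff_area z₀).contDiffOn
  closed z₀ y _ a b c := by
    refine closed_two_dim (contDiff_area z₀) (fun y u => ?_) y a b c
    rw [formInChart_area, tri_apply]; ring
  nondegenerate z v hv := by
    have h1 := hv (tanProj z (cross (z : R3) (dInc z v)))
    rw [area_apply, dInc_tanProj, inner_cross_self', zero_smul, sub_zero] at h1
    have h2 := inner_dInc z v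
    have h3 := inner_self_P1 z
    set a := dInc z v with ha
    rw [tri_apply] at h1
    simp only [PiLp.inner_apply, Fin.sum_univ_three] at h2 h3
    simp [cross] at h1 h2 h3
    have h4 : a 0 ^ 2 + a 1 ^ 2 + a 2 ^ 2 = 0 := by
      have e : (a 0 ^ 2 + a 1 ^ 2 + a 2 ^ 2) * ((z : R3) 0 ^ 2 + (z : R3) 1 ^ 2 + (z : R3) 2 ^ 2)
        - ((z : R3) 0 * a 0 + (z : R3) 1 * a 1 + (z : R3) 2 * a 2) ^ 2 = 0 := by
        linear_combination h1
      have h2' : (z : R3) 0 * a 0 + (z : R3) 1 * a 1 + (z : R3) 2 * a 2 = 0 := by linarith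
      have h3' : (z : R3) 0 ^ 2 + (z : R3) 1 ^ 2 + (z : R3) 2 ^ 2 = 1 := by
        linear_combination h3
      rw [h2', h3'] at e
      linarith
    have h5 : a = 0 := by
      ext i
      fin_cases i
      · show a 0 = 0
        nlinarith [sq_nonneg (a 0), sq_nonneg (a 1), sq_nonneg (a 2)]
      · show a 1 = 0
        nlinarith [sq_nonneg (a 0), sq_nonneg (a 1), sq_nonneg (a 2)]
      · show a 2 = 0
        nlinarith [sq_nonneg (a 0), sq_nonneg (a 1), sq_nonneg (a 2)]
    apply dInc_injective z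
    rw [map_zero]
    exact h5

end Pool.Agent.L5helper94.FS
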