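import Mathlib

/-!
# The arithmetic of the monodromy matrix
-/

namespace Pool.Agent.L5helper94.FS

theorem no_sol_aux : ∀ (n : ℕ) (X y : ℤ), 0 ≤ X → 0 < y → y ≤ n → X * X - 221 * (y * y) ≠ -4 := by
  intro n
  induction n with
  | zero => intro X y _ h1 h2; simp at h2; omega
  | succ n ih =>
    intro X y hX hy hyn h
    have h1 : X < 15 * y := by nlinarith
    have h2 : 13 * y < X := by nlinarith
    obtain ⟨z, hz⟩ : ∃ z, X = 15 * y - 2 * z := by
      rcases Int.even_or_odd' X with ⟨a, ha | ha⟩ <;> rcases Int.even_or_odd' y with ⟨b, hb | hb⟩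
      · exact ⟨15 * b - a, by rw [ha, hb]; ring⟩
      · exfalso
        rw [ha, hb] at h
        ring_nf at h
        omega
      · exfalso
        rw [ha, hb] at h
        ring_nf at h
        omega
      · exact ⟨15 * b + 7 - a, by rw [ha, hb]; ring⟩
    have hz0 : 0 < z := by linarith
    have hzy : z < y := by linarith
    have hzn : z ≤ n := by push_cast at hyn; linarith
    have h3 : |2 * y - 15 * z| * |2 * y - 15 * z| - 221 * (z * z) = -4 := by
      rw [abs_mul_abs_self]
      rw [hz] at h
      linear_combination h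
    exact ih _ _ (abs_nonneg _) hz0 hzn h3

theorem no_sol (X y : ℤ) : X * X - 221 * (y * y) ≠ -4 := by
  intro h
  have h' : |X| * |X| - 221 * (|y| * |y|) = -4 := by rw [abs_mul_abs_self, abs_mul_abs_self]; exact h
  by_cases hy : y = 0
  · subst hy
    nlinarith [mul_self_nonneg X]
  · exact no_sol_aux (|y|).toNat _ _ (abs_nonneg _) (abs_pos.2 hy)
      (by rw [Int.toNat_of_nonneg (abs_nonneg _)]) h'

/-- no integral matrix of determinant `-1` commutes with `[[7, 11], [5, 8]]` -/
theorem no_comm (p q r s : ℤ) (h1 : 7 * p + 11 * r = 7 * p + 5 * q)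
    (h2 : 7 * q + 11 * s = 11 * p + 8 * q) (h3 : 5 * p + 8 * r = 7 * r + 5 * s)
    (hdet : p * s - q * r = -1) : False := by
  have e1 : r = 5 * (s - p) := by linarith
  have e2 : q = 11 * (s - p) := by linarith
  refine no_sol (p + s) (s - p) ?_
  rw [e1, e2] at hdet
  linear_combination 4 * hdet

/-- no integral matrix of determinant `-1` conjugates `[[7, 11], [5, 8]]` to its inverse -/
theorem no_anti (p q r s : ℤ) (h1 : 8 * p - 11 * r = 7 * p + 5 * q)
    (h2 : 8 * q - 11 * s = 11 * p + 8 * q) (hdet : p * s - q * r = -1) : False := by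
  have e1 : p = 5 * q + 11 * r := by linarith
  have e2 : s = -p := by linarith
  rw [e2, e1] at hdet
  refine no_sol (2 * r - 11 * (q + 2 * r)) (q + 2 * r) ?_
  linear_combination 4 * hdet

end Pool.Agent.L5helper94.FS
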