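import Mathlib
import Pool.Agent.Helper831.Quot
import Pool.Agent.L5helper94.FS.Arith

/-!
# The four-manifold: the product of a circle and a torus bundle over the circle
-/

set_option maxSynthPendingDepth 3

open scoped Manifold ContDiff Topology
open Set Filter
open Pool.Agent.Helper831

namespace Pool.Agent.L5helper94.FS

/-- Euclidean four-space. -/
abbrev E4 : Type := EuclideanSpace ℝ (Fin 4)

/-- The monodromy matrix. -/
def AZ : Matrix.SpecialLinearGroup (Fin 2) ℤ :=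
  ⟨!![7, 11; 5, 8], by norm_num [Matrix.det_fin_two_of]⟩

/-- The powers of the monodromy matrix. -/
def mp (k : ℤ) : Matrix (Fin 2) (Fin 2) ℤ :=
  ((AZ ^ k : Matrix.SpecialLinearGroup (Fin 2) ℤ) : Matrix (Fin 2) (Fin 2) ℤ)

theorem mp_zero : mp 0 = 1 := by simp [mp]
theorem mp_one : mp 1 = !![7, 11; 5, 8] := by simp [mp, AZ]
theorem mp_add (a b : ℤ) : mp (a + b) = mp a * mp b := by simp [mp, zpow_add]
theorem det_mp (a : ℤ) : (mp a).det = 1 := by simp [mp]

/-- The group: triples `(k, l, z)` of two integers and an integral vector, with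
`(k, l, z) (k', l', z') = (k + k', l + l', z + A^k z')`. -/
@[ext] structure Gm where
  k : ℤ
  l : ℤ
  z : Fin 2 → ℤ

namespace Gm

instance : Mul Gm := ⟨fun g h => ⟨g.k + h.k, g.l + h.l, g.z + (mp g.k).mulVec h.z⟩⟩
instance : One Gm := ⟨⟨0, 0, 0⟩⟩
instance : Inv Gm := ⟨fun g => ⟨-g.k, -g.l, -(mp (-g.k)).mulVec g.z⟩⟩

@[simp] theorem mul_k (g h : Gm) : (g * h).k = g.k + h.k := rfl
@[simp] theorem mul_l (g h : Gm) : (g * h).l = g.l + h.l := rfl
@[simp] theorem mul_z (g h : Gm) : (g * h).z = g.z + (mp g.k).mulVec h.z := rfl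
@[simp] theorem one_k : (1 : Gm).k = 0 := rfl
@[simp] theorem one_l : (1 : Gm).l = 0 := rfl
@[simp] theorem one_z : (1 : Gm).z = 0 := rfl
@[simp] theorem inv_k (g : Gm) : (g⁻¹).k = -g.k := rfl
@[simp] theorem inv_l (g : Gm) : (g⁻¹).l = -g.l := rfl
@[simp] theorem inv_z (g : Gm) : (g⁻¹).z = -(mp (-g.k)).mulVec g.z := rfl

instance : Group Gm :=
  Group.ofLeftAxioms
    (by
      intro g h k
      refine Gm.ext ?_ ?_ ?_
      · simp only [mul_k, add_assoc]
      · simp only [mul_l, add_assoc]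
      · simp only [mul_z, mul_k, mp_add, Matrix.mulVec_add, Matrix.mulVec_mulVec, add_assoc])
    (by
      intro g
      refine Gm.ext ?_ ?_ ?_
      · simp
      · simp
      · simp [mp_zero])
    (by
      intro g
      refine Gm.ext ?_ ?_ ?_
      · simp
      · simp
      · simp)

end Gm

/-- the linear part of the action -/
noncomputable def linL (g : Matrix (Fin 2) (Fin 2) ℤ) : E4 →ₗ[ℝ] E4 where
  toFun x := !₂[x 0, x 1, (g 0 0 : ℝ) * x 2 + (g 0 1 : ℝ) * x 3,
    (g 1 0 : ℝ) * x 2 + (g 1 1 : ℝ) * x 3]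
  map_add' x y := by
    ext i; fin_cases i <;> simp <;> ring
  map_smul' c x := by
    ext i; fin_cases i <;> simp <;> ring

/-- the linear part of the action -/
noncomputable def lin (g : Matrix (Fin 2) (Fin 2) ℤ) : E4 →L[ℝ] E4 :=
  LinearMap.toContinuousLinearMap (linL g)

theorem lin_apply (g : Matrix (Fin 2) (Fin 2) ℤ) (x : E4) :
    lin g x = !₂[x 0, x 1, (g 0 0 : ℝ) * x 2 + (g 0 1 : ℝ) * x 3,
      (g 1 0 : ℝ) * x 2 + (g 1 1 : ℝ) * x 3] := rfl

@[simp] theorem lin_0 (g : Matrix (Fin 2) (Fin 2) ℤ) (x : E4) : lin g x 0 = x 0 := rfl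
@[simp] theorem lin_1 (g : Matrix (Fin 2) (Fin 2) ℤ) (x : E4) : lin g x 1 = x 1 := rfl
@[simp] theorem lin_2 (g : Matrix (Fin 2) (Fin 2) ℤ) (x : E4) :
    lin g x 2 = (g 0 0 : ℝ) * x 2 + (g 0 1 : ℝ) * x 3 := rfl
@[simp] theorem lin_3 (g : Matrix (Fin 2) (Fin 2) ℤ) (x : E4) :
    lin g x 3 = (g 1 0 : ℝ) * x 2 + (g 1 1 : ℝ) * x 3 := rfl

theorem E4_ext {x y : E4} (h0 : x 0 = y 0) (h1 : x 1 = y 1) (h2 : x 2 = y 2) (h3 : x 3 = y 3) :
    x = y := by
  ext i
  fin_cases i <;> assumption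

theorem lin_mul (g h : Matrix (Fin 2) (Fin 2) ℤ) (x : E4) : lin (g * h) x = lin g (lin h x) := by
  refine E4_ext ?_ ?_ ?_ ?_
  · simp
  · simp
  · simp [Matrix.mul_apply, Fin.sum_univ_two]; ring
  · simp [Matrix.mul_apply, Fin.sum_univ_two]; ring

theorem lin_one (x : E4) : lin 1 x = x := by
  refine E4_ext ?_ ?_ ?_ ?_ <;> simp

/-- the translation part of the action -/
noncomputable def tr (g : Gm) : E4 := !₂[(g.k : ℝ), (g.l : ℝ), (g.z 0 : ℝ), (g.z 1 : ℝ)]

@[simp] theorem tr_0 (g : Gm) : tr g 0 = g.k := rfl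
@[simp] theorem tr_1 (g : Gm) : tr g 1 = g.l := rfl
@[simp] theorem tr_2 (g : Gm) : tr g 2 = g.z 0 := rfl
@[simp] theorem tr_3 (g : Gm) : tr g 3 = g.z 1 := rfl

theorem tr_mul (g h : Gm) : tr (g * h) = lin (mp g.k) (tr h) + tr g := by
  refine E4_ext ?_ ?_ ?_ ?_
  · simp; ring
  · simp; ring
  · simp [Matrix.mulVec, dotProduct, Fin.sum_univ_two]; ring
  · simp [Matrix.mulVec, dotProduct, Fin.sum_univ_two]; ring

/-- The group acts on `ℝ⁴` by `(k, l, z) · (s, t, v) = (s + k, t + l, A^k v + z)`. -/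
noncomputable instance : MulAction Gm E4 where
  smul g p := lin (mp g.k) p + tr g
  one_smul p := by
    show lin (mp (1 : Gm).k) p + tr 1 = p
    rw [Gm.one_k, mp_zero, lin_one]
    have : tr 1 = 0 := by
      refine E4_ext ?_ ?_ ?_ ?_ <;> simp
    rw [this, add_zero]
  mul_smul g h p := by
    show lin (mp (g * h).k) p + tr (g * h) = lin (mp g.k) (lin (mp h.k) p + tr h) + tr g
    rw [Gm.mul_k, mp_add, lin_mul, tr_mul, map_add, add_assoc]

theorem smul_def (g : Gm) (p : E4) : g • p = lin (mp g.k) p + tr g := rfl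

theorem hasFDerivAt_smul (g : Gm) (p : E4) :
    HasFDerivAt (fun y : E4 => g • y) (lin (mp g.k)) p := by
  simp only [smul_def]
  exact (lin (mp g.k)).hasFDerivAt.add_const _

instance : SmoothConst Gm E4 where
  smooth g := by
    simp only [smul_def]
    exact (lin (mp g.k)).contDiff.add contDiff_const

instance : ContinuousConstSMul Gm E4 where
  continuous_const_smul g := (SmoothConst.smooth (E := E4) g).continuous

instance : IsCancelSMul Gm E4 where
  right_cancel' g h p hp := by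
    rw [smul_def, smul_def] at hp
    have h0 := congrArg (fun x : E4 => x 0) hp
    have h1 := congrArg (fun x : E4 => x 1) hp
    simp at h0 h1
    rw [h0] at hp
    have h2 := congrArg (fun x : E4 => x 2) hp
    have h3 := congrArg (fun x : E4 => x 3) hp
    simp at h2 h3
    refine Gm.ext h0 h1 ?_
    funext i
    fin_cases i
    · exact h2
    · exact h3

theorem abs_coord_le (x : E4) (i : Fin 4) : |x i| ≤ ‖x‖ := by
  rw [← Real.norm_eq_abs]
  exact PiLp.norm_apply_le x i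

theorem finite_Z (R : ℝ) : {n : ℤ | |(n : ℝ)| ≤ R}.Finite := by
  refine (Set.finite_Icc (-⌈R⌉) ⌈R⌉).subset ?_
  intro n hn
  have hn' : |(n : ℝ)| ≤ R := hn
  have h : |n| ≤ ⌈R⌉ := by
    have h1 : ((|n| : ℤ) : ℝ) ≤ ⌈R⌉ := by
      rw [Int.cast_abs]; exact hn'.trans (Int.le_ceil R)
    exact_mod_cast h1
  exact abs_le.1 h

instance : ProperlyDiscontinuousSMul Gm E4 where
  finite_disjoint_inter_image := by
    intro K L hK hL
    obtain ⟨R, hR⟩ := hK.isBounded.exists_norm_le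
    obtain ⟨S, hS⟩ := hL.isBounded.exists_norm_le
    have hfk : {n : ℤ | |(n : ℝ)| ≤ S + R}.Finite := finite_Z _
    set C : ℝ := ∑ n ∈ hfk.toFinset, ‖lin (mp n)‖ with hC
    have hfin : {g : Gm | |(g.k : ℝ)| ≤ S + R ∧ |(g.l : ℝ)| ≤ S + R ∧
        |(g.z 0 : ℝ)| ≤ S + C * R ∧ |(g.z 1 : ℝ)| ≤ S + C * R}.Finite := by
      have h := ((finite_Z (S + R)).prod (finite_Z (S + R))).prod
        ((finite_Z (S + C * R)).prod (finite_Z (S + C * R)))
      refine (h.image (fun q => (⟨q.1.1, q.1.2, ![q.2.1, q.2.2]⟩ : Gm))).subset ?_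
      rintro g ⟨h1, h2, h3, h4⟩
      refine ⟨((g.k, g.l), (g.z 0, g.z 1)), ⟨⟨h1, h2⟩, ⟨h3, h4⟩⟩, ?_⟩
      refine Gm.ext rfl rfl ?_
      funext i
      fin_cases i <;> rfl
    refine hfin.subset ?_
    rintro g ⟨q, ⟨p, hp, rfl⟩, hq⟩
    have h1 := hR p hp
    have h2 : ‖g • p‖ ≤ S := hS _ hq
    rw [smul_def] at h2
    have hc : ∀ i : Fin 4, |(lin (mp g.k) p) i + tr g i| ≤ S := fun i =>
      (abs_coord_le (lin (mp g.k) p + tr g) i).trans h2
    have hd : ∀ i : Fin 4, |p i| ≤ R := fun i => (abs_coord_le p i).trans h1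
    have hR0 : 0 ≤ R := (norm_nonneg _).trans h1
    have hk : |(g.k : ℝ)| ≤ S + R := by
      have e := hc 0
      have e' := hd 0
      simp only [lin_0, tr_0] at e
      have : (g.k : ℝ) = (p 0 + g.k) - p 0 := by ring
      rw [this]
      exact (abs_sub _ _).trans (add_le_add e e')
    have hl : |(g.l : ℝ)| ≤ S + R := by
      have e := hc 1
      have e' := hd 1
      simp only [lin_1, tr_1] at e
      have : (g.l : ℝ) = (p 1 + g.l) - p 1 := by ring
      rw [this]
      exact (abs_sub _ _).trans (add_le_add e e')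
    have hCk : ‖lin (mp g.k)‖ ≤ C :=
      Finset.single_le_sum (f := fun n => ‖lin (mp n)‖) (fun n _ => norm_nonneg _)
        (hfk.mem_toFinset.2 hk)
    have hlp : ‖lin (mp g.k) p‖ ≤ C * R :=
      ((lin (mp g.k)).le_opNorm p).trans (mul_le_mul hCk h1 (norm_nonneg _)
        ((norm_nonneg _).trans hCk))
    refine ⟨hk, hl, ?_, ?_⟩
    · have e := hc 2
      have e' := (abs_coord_le (lin (mp g.k) p) 2).trans hlp
      rw [tr_2] at e
      have : (g.z 0 : ℝ) = ((lin (mp g.k) p) 2 + g.z 0) - (lin (mp g.k) p) 2 := by ring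
      rw [this]
      exact (abs_sub _ _).trans (add_le_add e e')
    · have e := hc 3
      have e' := (abs_coord_le (lin (mp g.k) p) 3).trans hlp
      rw [tr_3] at e
      have : (g.z 1 : ℝ) = ((lin (mp g.k) p) 3 + g.z 1) - (lin (mp g.k) p) 3 := by ring
      rw [this]
      exact (abs_sub _ _).trans (add_le_add e e')

theorem exists_ball (p : E4) : ∃ g : Gm, g • p ∈ Metric.closedBall (0 : E4) 2 := by
  set k : ℤ := -⌊p 0⌋ with hk
  set l : ℤ := -⌊p 1⌋ with hl
  set a : ℤ := -⌊lin (mp k) p 2⌋ with ha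
  set b : ℤ := -⌊lin (mp k) p 3⌋ with hb
  refine ⟨⟨k, l, ![a, b]⟩, ?_⟩
  have fl : ∀ r : ℝ, |r + ((-⌊r⌋ : ℤ) : ℝ)| ≤ 1 := by
    intro r
    have h1 := Int.floor_le r
    have h2 := Int.lt_floor_add_one r
    push_cast
    rw [abs_le]; constructor <;> linarith
  set q : E4 := (⟨k, l, ![a, b]⟩ : Gm) • p with hq
  have h0 : |q 0| ≤ 1 := fl (p 0)
  have h1 : |q 1| ≤ 1 := fl (p 1)
  have h2 : |q 2| ≤ 1 := fl (lin (mp k) p 2)
  have h3 : |q 3| ≤ 1 := fl (lin (mp k) p 3)
  rw [mem_closedBall_zero_iff, EuclideanSpace.norm_eq]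
  refine Real.sqrt_le_iff.2 ⟨by norm_num, ?_⟩
  simp only [Fin.sum_univ_four, Real.norm_eq_abs]
  have s : ∀ r : ℝ, |r| ≤ 1 → |r| ^ 2 ≤ 1 := fun r h => by
    have := abs_nonneg r
    nlinarith
  have := s _ h0
  have := s _ h1
  have := s _ h2
  have := s _ h3
  linarith

/-- The four-manifold. -/
abbrev X4 : Type := MulAction.orbitRel.Quotient Gm E4

/-- the projection -/
noncomputable def pj : E4 → X4 := proj Gm

theorem continuous_pj : Continuous pj := continuous_quot_mk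

theorem pj_surjective : Function.Surjective pj := proj_surjective

theorem pj_smul (g : Gm) (x : E4) : pj (g • x) = pj x := proj_smul g x

instance : CompactSpace X4 := by
  have hK : IsCompact (Metric.closedBall (0 : E4) 2) := isCompact_closedBall _ _
  have h := hK.image continuous_pj
  have h2 : pj '' Metric.closedBall (0 : E4) 2 = univ := by
    rw [eq_univ_iff_forall]
    intro x
    obtain ⟨p, rfl⟩ := pj_surjective x
    obtain ⟨g, hg⟩ := exists_ball p
    exact ⟨g • p, hg, pj_smul g p⟩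
  rw [h2] at h
  exact isCompact_univ_iff.1 h

instance : ConnectedSpace X4 := pj_surjective.connectedSpace continuous_pj

example : T2Space X4 := inferInstance

example : IsManifold (𝓡 4) ∞ X4 := inferInstance

end Pool.Agent.L5helper94.FS
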