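import Mathlib
import Pool.Agent.L5helper94.FS.Gam
import Pool.Agent.L5helper94.FS.Defs
import Pool.Agent.Helper206.BoxS.SphereSC

/-!
# Lifts of homeomorphisms of the product with the sphere
-/

set_option maxSynthPendingDepth 3

open scoped Manifold ContDiff Topology
open Set Filter
open Pool.Agent.Helper831

namespace Pool.Agent.L5helper94.FS

theorem simplyConnected_prod (X Y : Type*) [TopologicalSpace X] [TopologicalSpace Y]
    [SimplyConnectedSpace X] [SimplyConnectedSpace Y] : SimplyConnectedSpace (X × Y) := by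
  rw [simply_connected_iff_paths_homotopic]
  refine ⟨inferInstance, fun a b => ⟨fun p q => ?_⟩⟩
  obtain ⟨a1, a2⟩ := a
  obtain ⟨b1, b2⟩ := b
  rw [← Path.Homotopic.prod_projLeft_projRight p, ← Path.Homotopic.prod_projLeft_projRight q]
  congr 1
  · exact Subsingleton.elim _ _
  · exact Subsingleton.elim _ _

instance : SimplyConnectedSpace S2 :=
  Pool.Agent.Helper206.BoxS.Sph.simplyConnected_sphere (by simp)

instance : LocallyPathConnectedSpace S2 :=
  ChartedSpace.locallyPathConnectedSpace (EuclideanSpace ℝ (Fin 2)) S2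

instance : SimplyConnectedSpace (E4 × S2) := simplyConnected_prod _ _

theorem isCov_pj : IsCoveringMap pj :=
  (isQuotientCoveringMap_quotientMk_of_properlyDiscontinuousSMul (G := Gm) (E := E4)).isCoveringMap

theorem pj_eq {x y : E4} (h : pj x = pj y) : ∃ δ : Gm, x = δ • y := exists_of_proj_eq h

theorem smul_free {g h : Gm} {x : E4} (H : g • x = h • x) : g = h :=
  IsCancelSMul.right_cancel g h x H

theorem exists_lift {f : X4 × S2 → X4} (hf : Continuous f) :
    ∃ F : E4 × S2 → E4, Continuous F ∧ ∀ x p, pj (F (x, p)) = f (pj x, p) := by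
  obtain ⟨p₀⟩ : Nonempty S2 := inferInstance
  obtain ⟨e₀, he₀⟩ := pj_surjective (f (pj 0, p₀))
  have hc : Continuous (fun y : E4 × S2 => f (pj y.1, y.2)) :=
    hf.comp ((continuous_pj.comp continuous_fst).prodMk continuous_snd)
  obtain ⟨F, ⟨_, hF⟩, _⟩ := isCov_pj.existsUnique_continuousMap_lifts
    (⟨fun y : E4 × S2 => f (pj y.1, y.2), hc⟩ : C(E4 × S2, X4)) (0, p₀) e₀ he₀
  exact ⟨F, F.continuous, fun x p => congrFun hF (x, p)⟩

theorem lift_unique {G₁ G₂ : E4 × S2 → E4} (h₁ : Continuous G₁) (h₂ : Continuous G₂)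
    (h : ∀ y, pj (G₁ y) = pj (G₂ y)) : ∃ δ : Gm, ∀ y, G₁ y = δ • G₂ y := by
  obtain ⟨p₀⟩ : Nonempty S2 := inferInstance
  obtain ⟨δ, hδ⟩ := pj_eq (h (0, p₀))
  refine ⟨δ, ?_⟩
  have h3 : Continuous (fun y => δ • G₂ y) := h₂.const_smul δ
  have := isCov_pj.eq_of_comp_eq h₁ h3 (by
    funext y
    simp only [Function.comp_apply]
    rw [pj_smul, h]) (0, p₀) hδ
  exact fun y => congrFun this y

theorem exists_theta {f : X4 × S2 → X4} {F : E4 × S2 → E4} (hF : Continuous F)
    (h : ∀ x p, pj (F (x, p)) = f (pj x, p)) :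
    ∃ θ : Gm →* Gm, ∀ γ x p, F (γ • x, p) = θ γ • F (x, p) := by
  have h1 : ∀ γ : Gm, ∃ δ : Gm, ∀ y : E4 × S2, F (γ • y.1, y.2) = δ • F y := by
    intro γ
    refine lift_unique ?_ hF ?_
    · exact hF.comp ((continuous_fst.const_smul γ).prodMk continuous_snd)
    · rintro ⟨x, p⟩
      simp only
      rw [h, h, pj_smul]
  choose θ hθ using h1
  obtain ⟨p₀⟩ : Nonempty S2 := inferInstance
  refine ⟨MonoidHom.mk' θ fun a b => ?_, fun γ x p => hθ γ (x, p)⟩
  have e1 := hθ (a * b) (0, p₀)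
  have e2 := hθ a (b • 0, p₀)
  have e3 := hθ b (0, p₀)
  simp only at e1 e2 e3
  rw [mul_smul, e2, e3, ← mul_smul] at e1
  exact (smul_free e1).symm

/-- A homeomorphism of `X × S²` lifts to an equivariant map, with an automorphism of the group. -/
theorem exists_auto (φ : X4 × S2 ≃ₜ X4 × S2) :
    ∃ (F : E4 × S2 → E4) (θ θ' : Gm →* Gm) (δ : Gm), Continuous F ∧
      (∀ x p, pj (F (x, p)) = (φ (pj x, p)).1) ∧ (∀ γ x p, F (γ • x, p) = θ γ • F (x, p)) ∧
      ∀ γ, θ' (θ γ) = δ * γ * δ⁻¹ := by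
  obtain ⟨F, hF, hF'⟩ := exists_lift (f := fun y => (φ y).1) (continuous_fst.comp φ.continuous)
  obtain ⟨G, hG, hG'⟩ := exists_lift (f := fun y => (φ.symm y).1)
    (continuous_fst.comp φ.symm.continuous)
  obtain ⟨θ, hθ⟩ := exists_theta (f := fun y => (φ y).1) hF hF'
  obtain ⟨θ', hθ'⟩ := exists_theta (f := fun y => (φ.symm y).1) hG hG'
  have hc : Continuous (fun y : E4 × S2 => G (F y, (φ (pj y.1, y.2)).2)) :=
    hG.comp (hF.prodMk (continuous_snd.comp (φ.continuous.comp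
      ((continuous_pj.comp continuous_fst).prodMk continuous_snd))))
  obtain ⟨δ, hδ⟩ := lift_unique (G₁ := fun y : E4 × S2 => G (F y, (φ (pj y.1, y.2)).2))
    (G₂ := fun y => y.1) hc continuous_fst (by
      rintro ⟨x, p⟩
      simp only
      rw [hG', hF', Prod.mk.eta, φ.symm_apply_apply])
  refine ⟨F, θ, θ', δ, hF, hF', hθ, fun γ => ?_⟩
  obtain ⟨p₀⟩ : Nonempty S2 := inferInstance
  have e1 := hδ (γ • 0, p₀)
  have e2 := hδ (0, p₀)
  simp only at e1 e2
  rw [hθ, pj_smul, hθ', e2, ← mul_smul, ← mul_smul] at e1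
  have e3 := smul_free e1
  rw [eq_mul_inv_iff_mul_eq, e3]

end Pool.Agent.L5helper94.FS
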