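import Mathlib
import Pool.Agent.L5helper94.FS.Lift

/-!
# The automorphisms of the group
-/

set_option maxSynthPendingDepth 3

open Matrix

namespace Pool.Agent.L5helper94.FS

/-- the elements of the lattice of the fibre -/
def el (z : Fin 2 → ℤ) : Gm := ⟨0, 0, z⟩

/-- the generator of the base direction -/
def gs : Gm := ⟨1, 0, 0⟩

theorem el_add (z w : Fin 2 → ℤ) : el (z + w) = el z * el w := by
  refine Gm.ext ?_ ?_ ?_
  · simp [el]
  · simp [el]
  · simp [el, mp_zero]

theorem gs_el (z : Fin 2 → ℤ) : gs * el z = el ((mp 1).mulVec z) * gs := by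
  refine Gm.ext ?_ ?_ ?_
  · simp [el, gs]
  · simp [el, gs]
  · simp [el, gs]

theorem rho_zero (ρ : (Fin 2 → ℤ) →+ ℤ) (h : ∀ z, ρ ((mp 1).mulVec z) = ρ z) : ∀ z, ρ z = 0 := by
  have hz : ∀ z : Fin 2 → ℤ, ρ z = z 0 * ρ ![1, 0] + z 1 * ρ ![0, 1] := by
    intro z
    have h1 : z = z 0 • ![1, 0] + z 1 • ![0, 1] := by
      funext i; fin_cases i <;> simp
    conv_lhs => rw [h1]
    rw [map_add, map_zsmul, map_zsmul, smul_eq_mul, smul_eq_mul]
  have h1 := h ![1, 0]
  have h2 := h ![0, 1]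
  rw [hz] at h1 h2
  simp [mp_one, Matrix.mulVec, dotProduct, Fin.sum_univ_two] at h1 h2
  intro z
  have e1 : ρ ![1, 0] = 0 := by linarith
  have e2 : ρ ![0, 1] = 0 := by linarith
  rw [hz, e1, e2]
  ring

/-- an endomorphism of the group preserves the lattice of the fibre -/
theorem exists_B (θ : Gm →* Gm) : ∃ B : Matrix (Fin 2) (Fin 2) ℤ, ∀ z, θ (el z) = el (B.mulVec z) := by
  have hk : ∀ z, (θ (el z)).k = 0 := by
    refine rho_zero ⟨⟨fun z => (θ (el z)).k, ?_⟩, ?_⟩ ?_
    · have : el 0 = 1 := rfl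
      rw [this, map_one]; rfl
    · intro z w
      simp only
      rw [el_add, map_mul, Gm.mul_k]
    · intro z
      show (θ (el ((mp 1).mulVec z))).k = (θ (el z)).k
      have h1 := congrArg (fun g => (θ g).k) (gs_el z)
      simp only [map_mul, Gm.mul_k] at h1
      linarith
  have hl : ∀ z, (θ (el z)).l = 0 := by
    refine rho_zero ⟨⟨fun z => (θ (el z)).l, ?_⟩, ?_⟩ ?_
    · have : el 0 = 1 := rfl
      rw [this, map_one]; rfl
    · intro z w
      simp only
      rw [el_add, map_mul, Gm.mul_l]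
    · intro z
      show (θ (el ((mp 1).mulVec z))).l = (θ (el z)).l
      have h1 := congrArg (fun g => (θ g).l) (gs_el z)
      simp only [map_mul, Gm.mul_l] at h1
      linarith
  have hadd : ∀ z w, (θ (el (z + w))).z = (θ (el z)).z + (θ (el w)).z := by
    intro z w
    rw [el_add, map_mul, Gm.mul_z, hk, mp_zero, Matrix.one_mulVec]
  set ζ : (Fin 2 → ℤ) →+ (Fin 2 → ℤ) := ⟨⟨fun z => (θ (el z)).z, by
    have : el 0 = 1 := rfl
    rw [this, map_one]; rfl⟩, hadd⟩ with hζ
  have hz : ∀ z : Fin 2 → ℤ, ζ z = z 0 • ζ ![1, 0] + z 1 • ζ ![0, 1] := by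
    intro z
    have h1 : z = z 0 • ![1, 0] + z 1 • ![0, 1] := by
      funext i; fin_cases i <;> simp
    conv_lhs => rw [h1]
    rw [map_add, map_zsmul, map_zsmul]
  refine ⟨!![ζ ![1, 0] 0, ζ ![0, 1] 0; ζ ![1, 0] 1, ζ ![0, 1] 1], fun z => ?_⟩
  refine Gm.ext (hk z) (hl z) ?_
  show ζ z = _
  rw [hz]
  funext i
  fin_cases i
  · simp [el, Matrix.mulVec, dotProduct, Fin.sum_univ_two]; ring
  · simp [el, Matrix.mulVec, dotProduct, Fin.sum_univ_two]; ring

theorem mat_ext {M N : Matrix (Fin 2) (Fin 2) ℤ} (h : ∀ z, M.mulVec z = N.mulVec z) : M = N := by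
  have h1 : ∀ i, M i 0 = N i 0 := by
    intro i
    have := congrFun (h ![1, 0]) i
    simpa [Matrix.mulVec, dotProduct, Fin.sum_univ_two] using this
  have h2 : ∀ i, M i 1 = N i 1 := by
    intro i
    have := congrFun (h ![0, 1]) i
    simpa [Matrix.mulVec, dotProduct, Fin.sum_univ_two] using this
  ext i j
  fin_cases j
  · exact h1 i
  · exact h2 i

theorem comm_rel {θ : Gm →* Gm} {B : Matrix (Fin 2) (Fin 2) ℤ}
    (hB : ∀ z, θ (el z) = el (B.mulVec z)) : mp (θ gs).k * B = B * mp 1 := by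
  refine mat_ext fun z => ?_
  have h1 := congrArg (fun g => (θ g).z) (gs_el z)
  simp only [map_mul, Gm.mul_z, hB] at h1
  simp only [el, mp_zero, Matrix.one_mulVec] at h1
  rw [← Matrix.mulVec_mulVec, ← Matrix.mulVec_mulVec]
  rw [add_comm] at h1
  exact add_right_cancel h1

theorem trace_mp_succ (k : ℤ) : (mp (k + 1)).trace = 15 * (mp k).trace - (mp (k - 1)).trace := by
  have h1 : mp (k + 1) = mp k * mp 1 := mp_add k 1
  have h2 : mp k = mp (k - 1) * mp 1 := by rw [← mp_add, sub_add_cancel]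
  rw [h1, h2, mp_one]
  simp only [Matrix.trace_fin_two, Matrix.mul_apply, Fin.sum_univ_two]
  simp
  ring

theorem mp_neg (k : ℤ) : mp (-k) = (mp k).adjugate := by
  unfold mp
  rw [_root_.zpow_neg, Matrix.SpecialLinearGroup.coe_inv]

theorem trace_mp_neg (k : ℤ) : (mp (-k)).trace = (mp k).trace := by
  rw [mp_neg, Matrix.adjugate_fin_two]
  simp [Matrix.trace_fin_two]
  ring

theorem trace_bound : ∀ n : ℕ, (mp (n : ℤ)).trace ≥ 2 ∧
    (mp ((n : ℤ) + 1)).trace > (mp (n : ℤ)).trace := by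
  intro n
  induction n with
  | zero =>
    simp [mp_zero, mp_one, Matrix.trace_fin_two]
  | succ n ih =>
    obtain ⟨h1, h2⟩ := ih
    push_cast
    have h3 := trace_mp_succ ((n : ℤ) + 1)
    rw [add_sub_cancel_right] at h3
    constructor
    · linarith
    · rw [h3]; linarith

theorem trace_large (n : ℕ) : (mp ((n : ℤ) + 2)).trace > 15 := by
  induction n with
  | zero =>
    have h := (trace_bound 1).2
    have h1 : (mp ((1 : ℕ) : ℤ)).trace = 15 := by
      simp [mp_one, Matrix.trace_fin_two]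
    rw [h1] at h
    simpa using h
  | succ n ih =>
    have h := (trace_bound (n + 2)).2
    push_cast at h ⊢
    have e : (n : ℤ) + 1 + 2 = (n : ℤ) + 2 + 1 := by ring
    rw [e]
    linarith

theorem trace_eq {k : ℤ} (h : (mp k).trace = 15) : k = 1 ∨ k = -1 := by
  have key : ∀ m : ℤ, 0 ≤ m → (mp m).trace = 15 → m = 1 := by
    intro m hm h
    by_contra hne
    by_cases h0 : m = 0
    · subst h0
      rw [mp_zero] at h
      simp [Matrix.trace_fin_two] at h
    · have h2 : 2 ≤ m := by omega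
      obtain ⟨n, hn⟩ : ∃ n : ℕ, m = (n : ℤ) + 2 := ⟨(m - 2).toNat, by omega⟩
      have := trace_large n
      rw [← hn, h] at this
      exact lt_irrefl _ this
  by_cases hk : 0 ≤ k
  · exact Or.inl (key k hk h)
  · right
    have := key (-k) (by omega) (by rw [trace_mp_neg]; exact h)
    omega

/-- **The automorphisms of the group have determinant one on the lattice of the fibre.** -/
theorem det_B {θ θ' : Gm →* Gm} {δ : Gm} (hθ : ∀ γ, θ' (θ γ) = δ * γ * δ⁻¹)
    {B : Matrix (Fin 2) (Fin 2) ℤ} (hB : ∀ z, θ (el z) = el (B.mulVec z)) : B.det = 1 := by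
  obtain ⟨B', hB'⟩ := exists_B θ'
  have h1 : B' * B = mp δ.k := by
    refine mat_ext fun z => ?_
    have h2 := congrArg (fun g => g.z) (hθ (el z))
    rw [hB, hB'] at h2
    have h3 : (δ * el z * δ⁻¹).z = (mp δ.k).mulVec z := by
      simp only [Gm.mul_z, Gm.mul_k, Gm.inv_z, el, add_zero, Matrix.mulVec_neg,
        Matrix.mulVec_mulVec, ← mp_add, add_neg_cancel, mp_zero, Matrix.one_mulVec]
      abel
    rw [h3] at h2
    rw [← Matrix.mulVec_mulVec]
    exact h2
  have h2 : B'.det * B.det = 1 := by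
    rw [← Matrix.det_mul, h1, det_mp]
  rcases Int.isUnit_iff.1 (IsUnit.of_mul_eq_one_right _ h2) with h3 | h3
  · exact h3
  · exfalso
    have hc := comm_rel hB
    have ht : (mp (θ gs).k).trace = 15 := by
      have h4 : (mp (θ gs).k * B * B.adjugate).trace = (B * mp 1 * B.adjugate).trace := by rw [hc]
      have h5 : (mp (θ gs).k * B * B.adjugate).trace = - (mp (θ gs).k).trace := by
        rw [Matrix.mul_assoc, Matrix.mul_adjugate, h3]
        simp
      have h6 : (B * mp 1 * B.adjugate).trace = - (mp 1).trace := by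
        rw [Matrix.trace_mul_comm, ← Matrix.mul_assoc, Matrix.adjugate_mul, h3]
        simp
      rw [h5, h6] at h4
      have h7 : (mp 1).trace = 15 := by
        rw [mp_one]; simp [Matrix.trace_fin_two]
      rw [h7] at h4
      linarith
    rw [Matrix.det_fin_two] at h3
    rcases trace_eq ht with hk | hk
    · rw [hk, mp_one] at hc
      have e0 := congrFun (congrFun hc 0) 0
      have e1 := congrFun (congrFun hc 0) 1
      have e2 := congrFun (congrFun hc 1) 0
      simp [Matrix.mul_apply, Fin.sum_univ_two] at e0 e1 e2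
      refine no_comm (B 0 0) (B 0 1) (B 1 0) (B 1 1) ?_ ?_ ?_ ?_ <;> linarith
    · rw [hk, mp_neg, mp_one, Matrix.adjugate_fin_two] at hc
      have e0 := congrFun (congrFun hc 0) 0
      have e1 := congrFun (congrFun hc 0) 1
      simp [Matrix.mul_apply, Fin.sum_univ_two] at e0 e1
      refine no_anti (B 0 0) (B 0 1) (B 1 0) (B 1 1) ?_ ?_ ?_ <;> linarith

/-- **Lifts of homeomorphisms.** -/
theorem exists_lift_det (φ : X4 × S2 ≃ₜ X4 × S2) :
    ∃ (F : E4 × S2 → E4) (B : Matrix (Fin 2) (Fin 2) ℤ), Continuous F ∧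
      (∀ x p, pj (F (x, p)) = (φ (pj x, p)).1) ∧
      (∀ z x p, F (x + tr (el z), p) = F (x, p) + tr (el (B.mulVec z))) ∧ B.det = 1 := by
  obtain ⟨F, θ, θ', δ, hF, hF', hθ, hθ'⟩ := exists_auto φ
  obtain ⟨B, hB⟩ := exists_B θ
  refine ⟨F, B, hF, hF', fun z x p => ?_, det_B hθ' hB⟩
  have h := hθ (el z) x p
  rw [hB, smul_def, smul_def] at h
  have e1 : ∀ w, mp (el w).k = 1 := fun w => mp_zero
  rw [e1, e1, lin_one, lin_one] at h
  exact h

end Pool.Agent.L5helper94.FS
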