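import Mathlib
import Pool.Agent.L5helper94.FS.Defs

/-!
# Pull backs of closed forms
-/

open scoped Manifold ContDiff Topology
open Set Filter

set_option linter.unusedSectionVars false

namespace Pool.Agent.L5helper94.FS

section vec
variable {V : Type*} [NormedAddCommGroup V] [NormedSpace ℝ V]
  {E : Type*} [NormedAddCommGroup E] [NormedSpace ℝ E]

theorem contDiffAt_flip {V₁ V₂ : Type*} [NormedAddCommGroup V₁] [NormedSpace ℝ V₁]
    [NormedAddCommGroup V₂] [NormedSpace ℝ V₂] {A : V → V₁ →L[ℝ] V₂ →L[ℝ] ℝ} {x : V}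
    (hA : ContDiffAt ℝ ∞ A x) : ContDiffAt ℝ ∞ (fun x => (A x).flip) x := by
  have h : ContDiff ℝ ∞ (fun A : V₁ →L[ℝ] V₂ →L[ℝ] ℝ => A.flip) := by
    refine IsBoundedLinearMap.contDiff ⟨⟨fun a b => rfl, fun c a => rfl⟩, 1, one_pos, fun a => ?_⟩
    rw [one_mul]
    exact (ContinuousLinearMap.opNorm_flip a).le
  exact ContDiffAt.comp (g := fun A : V₁ →L[ℝ] V₂ →L[ℝ] ℝ => A.flip) x h.contDiffAt hA

theorem contDiffAt_bilinearComp {β : V → E →L[ℝ] E →L[ℝ] ℝ} {D : V → V →L[ℝ] E} {x : V}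
    (hβ : ContDiffAt ℝ ∞ β x) (hD : ContDiffAt ℝ ∞ D x) :
    ContDiffAt ℝ ∞ (fun x => (β x).bilinearComp (D x) (D x)) x := by
  have h1 : ContDiffAt ℝ ∞ (fun x => (β x).comp (D x)) x := hβ.clm_comp hD
  have h2 : ContDiffAt ℝ ∞ (fun x => ((β x).comp (D x)).flip) x := contDiffAt_flip h1
  have h3 : ContDiffAt ℝ ∞ (fun x => (((β x).comp (D x)).flip).comp (D x)) x := h2.clm_comp hD
  have h4 : ContDiffAt ℝ ∞ (fun x => ((((β x).comp (D x)).flip).comp (D x)).flip) x :=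
    contDiffAt_flip h3
  exact h4

/-- the pull back of a closed form by a smooth map between vector spaces is closed -/
theorem closed_bilinearComp {β : E → E →L[ℝ] E →L[ℝ] ℝ} {ψ : V → E} {x : V}
    (hβ : ContDiffAt ℝ ∞ β (ψ x)) (hψ : ContDiffAt ℝ ∞ ψ x)
    (halt : ∀ u, β (ψ x) u u = 0)
    (hcl : ∀ a b c, fderiv ℝ β (ψ x) a b c + fderiv ℝ β (ψ x) b c a + fderiv ℝ β (ψ x) c a b = 0)
    (a b c : V) :
    fderiv ℝ (fun x => (β (ψ x)).bilinearComp (fderiv ℝ ψ x) (fderiv ℝ ψ x)) x a b c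
      + fderiv ℝ (fun x => (β (ψ x)).bilinearComp (fderiv ℝ ψ x) (fderiv ℝ ψ x)) x b c a
      + fderiv ℝ (fun x => (β (ψ x)).bilinearComp (fderiv ℝ ψ x) (fderiv ℝ ψ x)) x c a b = 0 := by
  have hD : ContDiffAt ℝ ∞ (fderiv ℝ ψ) x := hψ.fderiv_right (m := ∞) (by simp)
  have hβψ : ContDiffAt ℝ ∞ (fun x => β (ψ x)) x := hβ.comp x hψ
  have hA := contDiffAt_bilinearComp hβψ hD
  set A : V → V →L[ℝ] V →L[ℝ] ℝ :=
    fun x => (β (ψ x)).bilinearComp (fderiv ℝ ψ x) (fderiv ℝ ψ x) with hAdef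
  have dA : HasFDerivAt A (fderiv ℝ A x) x := (hA.differentiableAt (by simp)).hasFDerivAt
  have dβ : HasFDerivAt β (fderiv ℝ β (ψ x)) (ψ x) := (hβ.differentiableAt (by simp)).hasFDerivAt
  have dψ : HasFDerivAt ψ (fderiv ℝ ψ x) x := (hψ.differentiableAt (by simp)).hasFDerivAt
  have dD : HasFDerivAt (fderiv ℝ ψ) (fderiv ℝ (fderiv ℝ ψ) x) x :=
    (hD.differentiableAt (by simp)).hasFDerivAt
  have dB : HasFDerivAt (fun x => β (ψ x)) ((fderiv ℝ β (ψ x)).comp (fderiv ℝ ψ x)) x :=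
    HasFDerivAt.comp (g := β) x dβ dψ
  have hsymm : ∀ a b, fderiv ℝ (fderiv ℝ ψ) x a b = fderiv ℝ (fderiv ℝ ψ) x b a := by
    intro a b
    have h4 : IsSymmSndFDerivAt ℝ ψ x :=
      (hψ.of_le (m := 2) (by norm_cast)).isSymmSndFDerivAt (by simp)
    exact h4.eq a b
  have key : ∀ a b c, fderiv ℝ A x a b c
      = fderiv ℝ β (ψ x) (fderiv ℝ ψ x a) (fderiv ℝ ψ x b) (fderiv ℝ ψ x c)
        + β (ψ x) (fderiv ℝ (fderiv ℝ ψ) x a b) (fderiv ℝ ψ x c)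
        + β (ψ x) (fderiv ℝ ψ x b) (fderiv ℝ (fderiv ℝ ψ) x a c) := by
    intro a b c
    have e1 : HasFDerivAt (fun x => fderiv ℝ ψ x b) _ x := dD.clm_apply (hasFDerivAt_const b x)
    have e2 : HasFDerivAt (fun x => fderiv ℝ ψ x c) _ x := dD.clm_apply (hasFDerivAt_const c x)
    have e3 := (dB.clm_apply e1).clm_apply e2
    have e4 := (dA.clm_apply (hasFDerivAt_const b x)).clm_apply (hasFDerivAt_const c x)
    have e5 := congrArg (fun L : V →L[ℝ] ℝ => L a) (HasFDerivAt.unique e4 e3)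
    simp at e5
    rw [e5]
    ring
  have anti : ∀ u w, β (ψ x) u w = - β (ψ x) w u := by
    intro u w
    have h7 := halt (u + w)
    simp only [map_add, _root_.add_apply, halt, zero_add, add_zero] at h7
    linarith
  rw [key, key, key, hsymm b a, hsymm c a, hsymm c b,
    anti (fderiv ℝ ψ x b) (fderiv ℝ (fderiv ℝ ψ) x a c),
    anti (fderiv ℝ ψ x c) (fderiv ℝ (fderiv ℝ ψ) x a b),
    anti (fderiv ℝ ψ x a) (fderiv ℝ (fderiv ℝ ψ) x b c)]
  have := hcl (fderiv ℝ ψ x a) (fderiv ℝ ψ x b) (fderiv ℝ ψ x c)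
  linarith

end vec

end Pool.Agent.L5helper94.FS
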