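import Mathlib
import Pool.Agent.L5helper94.FS.Pull
import Pool.Agent.Y519.AS.Homot

/-!
# Pull backs of closed forms on manifolds
-/

open scoped Manifold ContDiff Topology
open Set Filter

set_option linter.unusedSectionVars false

namespace Pool.Agent.L5helper94.FS

section mfd
variable {E : Type*} [NormedAddCommGroup E] [NormedSpace ℝ E] {H : Type*} [TopologicalSpace H]
  {I : ModelWithCorners ℝ E H} [I.Boundaryless] {M : Type*} [TopologicalSpace M]
  [ChartedSpace H M] [IsManifold I ∞ M]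
  {V : Type*} [NormedAddCommGroup V] [NormedSpace ℝ V]

theorem form_congr (Ω : BilinField I M) {m m' : M} (h : m = m') (a b : E) :
    (Ω m : E →L[ℝ] E →L[ℝ] ℝ) a b = (Ω m' : E →L[ℝ] E →L[ℝ] ℝ) a b := by
  subst h; rfl

theorem pull_apply {E' : Type*} [NormedAddCommGroup E'] [NormedSpace ℝ E'] {H' : Type*}
    [TopologicalSpace H'] {J : ModelWithCorners ℝ E' H'} {N : Type*} [TopologicalSpace N]
    [ChartedSpace H' N] (g : N → M) (Ω : BilinField I M) (x : N) (u w : E') :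
    (pull (J := J) g Ω x : E' →L[ℝ] E' →L[ℝ] ℝ) u w
      = (Ω (g x) : E →L[ℝ] E →L[ℝ] ℝ) (mfderiv J I g x u) (mfderiv J I g x w) := rfl

/-- the pull back to a vector space -/
noncomputable def pv (g : V → M) (Ω : BilinField I M) : V → V →L[ℝ] V →L[ℝ] ℝ :=
  pull (J := 𝓘(ℝ, V)) g Ω

theorem pv_apply (g : V → M) (Ω : BilinField I M) (x u w : V) :
    pv g Ω x u w = (Ω (g x) : E →L[ℝ] E →L[ℝ] ℝ) (mfderiv 𝓘(ℝ, V) I g x u)
      (mfderiv 𝓘(ℝ, V) I g x w) := rfl

theorem formInChart_apply (Ω : BilinField I M) (m₀ : M) (y u w : E) :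
    formInChart Ω m₀ y u w = (Ω ((extChartAt I m₀).symm y) : E →L[ℝ] E →L[ℝ] ℝ)
      (mfderiv 𝓘(ℝ, E) I (extChartAt I m₀).symm y u)
      (mfderiv 𝓘(ℝ, E) I (extChartAt I m₀).symm y w) := rfl

theorem mdiff_symm (m₀ : M) {y : E} (hy : y ∈ (extChartAt I m₀).target) :
    ContMDiffAt 𝓘(ℝ, E) I ∞ (extChartAt I m₀).symm y :=
  (contMDiffOn_extChartAt_symm m₀).contMDiffAt ((isOpen_extChartAt_target m₀).mem_nhds hy)

theorem mfderiv_local {g : V → M} {m₀ : M} {x : V} (hs : g x ∈ (extChartAt I m₀).source)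
    (hg : MDifferentiableAt 𝓘(ℝ, V) I g x) (u : V) :
    (mfderiv 𝓘(ℝ, V) I g x u : E)
      = (mfderiv 𝓘(ℝ, E) I (extChartAt I m₀).symm (extChartAt I m₀ (g x))
        (fderiv ℝ (fun z => extChartAt I m₀ (g z)) x u) : E) := by
  have hc : MDifferentiableAt I 𝓘(ℝ, E) (extChartAt I m₀) (g x) :=
    mdifferentiableAt_extChartAt (by rwa [extChartAt_source] at hs)
  have hψ : MDifferentiableAt 𝓘(ℝ, V) 𝓘(ℝ, E) (fun z => extChartAt I m₀ (g z)) x := hc.comp x hg
  have hsym : MDifferentiableAt 𝓘(ℝ, E) I (extChartAt I m₀).symm (extChartAt I m₀ (g x)) :=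
    (mdiff_symm m₀ ((extChartAt I m₀).map_source hs)).mdifferentiableAt (by simp)
  have he : (fun z => (extChartAt I m₀).symm (extChartAt I m₀ (g z))) =ᶠ[𝓝 x] g := by
    have : ∀ᶠ z in 𝓝 x, g z ∈ (extChartAt I m₀).source :=
      hg.continuousAt.eventually_mem ((isOpen_extChartAt_source m₀).mem_nhds hs)
    filter_upwards [this] with z hz
    exact (extChartAt I m₀).left_inv hz
  have h1 := mfderiv_comp x hsym hψ
  have h2 := he.mfderiv_eq (I := 𝓘(ℝ, V)) (I' := I)
  have h3 : (mfderiv 𝓘(ℝ, V) 𝓘(ℝ, E) (fun z => extChartAt I m₀ (g z)) x : V →L[ℝ] E)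
      = fderiv ℝ (fun z => extChartAt I m₀ (g z)) x := mfderiv_eq_fderiv
  have h4 : (mfderiv 𝓘(ℝ, V) I g x u : E)
      = (mfderiv 𝓘(ℝ, E) I (extChartAt I m₀).symm (extChartAt I m₀ (g x))
        (mfderiv 𝓘(ℝ, V) 𝓘(ℝ, E) (fun z => extChartAt I m₀ (g z)) x u) : E) := by
    have h5 : (mfderiv 𝓘(ℝ, V) I g x : V →L[ℝ] E)
      = (mfderiv 𝓘(ℝ, V) I (fun z => (extChartAt I m₀).symm (extChartAt I m₀ (g z))) x
          : V →L[ℝ] E) := h2.symm
    have h6 : (mfderiv 𝓘(ℝ, V) I (fun z => (extChartAt I m₀).symm (extChartAt I m₀ (g z))) x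
          : V →L[ℝ] E) = (mfderiv 𝓘(ℝ, E) I (extChartAt I m₀).symm (extChartAt I m₀ (g x))
            : E →L[ℝ] E).comp
          (mfderiv 𝓘(ℝ, V) 𝓘(ℝ, E) (fun z => extChartAt I m₀ (g z)) x : V →L[ℝ] E) := h1
    exact congrArg (fun L : V →L[ℝ] E => L u) (h5.trans h6)
  rw [h4, h3]
  rfl

theorem pull_local {g : V → M} {m₀ : M} {x : V} (hs : g x ∈ (extChartAt I m₀).source)
    (hg : MDifferentiableAt 𝓘(ℝ, V) I g x) (Ω : BilinField I M) :
    pv g Ω x = (formInChart Ω m₀ (extChartAt I m₀ (g x))).bilinearComp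
        (fderiv ℝ (fun z => extChartAt I m₀ (g z)) x)
        (fderiv ℝ (fun z => extChartAt I m₀ (g z)) x) := by
  refine ContinuousLinearMap.ext fun u => ContinuousLinearMap.ext fun w => ?_
  rw [pv_apply]
  show _ = formInChart Ω m₀ (extChartAt I m₀ (g x)) (fderiv ℝ (fun z => extChartAt I m₀ (g z)) x u)
    (fderiv ℝ (fun z => extChartAt I m₀ (g z)) x w)
  rw [formInChart_apply, ← mfderiv_local hs hg, ← mfderiv_local hs hg]
  exact form_congr Ω ((extChartAt I m₀).left_inv hs).symm _ _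

variable {U : Set V}

theorem contDiffAt_chart {g : V → M} {m₀ : M} {x : V} (hs : g x ∈ (extChartAt I m₀).source)
    (hg : ContMDiffAt 𝓘(ℝ, V) I ∞ g x) : ContDiffAt ℝ ∞ (fun z => extChartAt I m₀ (g z)) x := by
  have h1 : ContMDiffAt I 𝓘(ℝ, E) ∞ (extChartAt I m₀) (g x) :=
    contMDiffAt_extChartAt' (by rwa [extChartAt_source] at hs)
  exact (h1.comp x hg).contDiffAt

/-- the pull back of a closed form by a smooth map from an open subset of a vector space -/
theorem pull_smooth {g : V → M} (hU : IsOpen U) (hg : ContMDiffOn 𝓘(ℝ, V) I ∞ g U)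
    {Ω : BilinField I M} (hΩ : IsClosedForm Ω) {x₁ : V} (hx : x₁ ∈ U) :
    ContDiffAt ℝ ∞ (pv g Ω) x₁ ∧
    ∀ a b c : V, fderiv ℝ (pv g Ω) x₁ a b c + fderiv ℝ (pv g Ω) x₁ b c a
      + fderiv ℝ (pv g Ω) x₁ c a b = 0 := by
  have hg1 : ContMDiffAt 𝓘(ℝ, V) I ∞ g x₁ := hg.contMDiffAt (hU.mem_nhds hx)
  have hs1 : g x₁ ∈ (extChartAt I (g x₁)).source := mem_extChartAt_source _
  have ht1 : extChartAt I (g x₁) (g x₁) ∈ (extChartAt I (g x₁)).target :=
    (extChartAt I (g x₁)).map_source hs1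
  have hev : pv g Ω =ᶠ[𝓝 x₁]
      fun x => (formInChart Ω (g x₁) (extChartAt I (g x₁) (g x))).bilinearComp
        (fderiv ℝ (fun z => extChartAt I (g x₁) (g z)) x)
        (fderiv ℝ (fun z => extChartAt I (g x₁) (g z)) x) := by
    have h1 : ∀ᶠ x in 𝓝 x₁, g x ∈ (extChartAt I (g x₁)).source :=
      hg1.continuousAt.eventually_mem ((isOpen_extChartAt_source _).mem_nhds hs1)
    filter_upwards [h1, hU.mem_nhds hx] with x hx1 hx2
    exact pull_local hx1 ((hg.contMDiffAt (hU.mem_nhds hx2)).mdifferentiableAt (by simp)) Ω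
  have hβ : ContDiffAt ℝ ∞ (formInChart Ω (g x₁)) (extChartAt I (g x₁) (g x₁)) :=
    (hΩ.smooth (g x₁)).contDiffAt ((isOpen_extChartAt_target _).mem_nhds ht1)
  have hψ : ContDiffAt ℝ ∞ (fun z => extChartAt I (g x₁) (g z)) x₁ := contDiffAt_chart hs1 hg1
  refine ⟨?_, ?_⟩
  · refine ContDiffAt.congr_of_eventuallyEq ?_ hev
    have h5 : ContDiffAt ℝ ∞
        (fun x => formInChart Ω (g x₁) (extChartAt I (g x₁) (g x))) x₁ :=
      ContDiffAt.comp (g := formInChart Ω (g x₁)) (f := fun z => extChartAt I (g x₁) (g z))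
        x₁ hβ hψ
    exact contDiffAt_bilinearComp h5 (hψ.fderiv_right (m := ∞) (by simp))
  · intro a b c
    rw [hev.fderiv_eq]
    refine closed_bilinearComp (ψ := fun z => extChartAt I (g x₁) (g z)) hβ hψ (fun u => ?_)
      (hΩ.closed (g x₁) _ ht1) a b c
    rw [formInChart_apply]
    exact hΩ.alt _ _

variable {E' : Type*} [NormedAddCommGroup E'] [NormedSpace ℝ E'] {H' : Type*}
  [TopologicalSpace H'] {J : ModelWithCorners ℝ E' H'} [J.Boundaryless] {N : Type*}
  [TopologicalSpace N] [ChartedSpace H' N] [IsManifold J ∞ N]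

theorem formInChart_pull {g : N → M} (hg : MDifferentiable J I g) (Ω : BilinField I M) (n₀ : N)
    {y : E'} (hy : y ∈ (extChartAt J n₀).target) :
    formInChart (pull (J := J) g Ω) n₀ y
      = pv (fun y => g ((extChartAt J n₀).symm y)) Ω y := by
  refine ContinuousLinearMap.ext fun u => ContinuousLinearMap.ext fun w => ?_
  rw [pv_apply]
  show (Ω (g ((extChartAt J n₀).symm y)) : E →L[ℝ] E →L[ℝ] ℝ)
    (mfderiv J I g ((extChartAt J n₀).symm y) (mfderiv 𝓘(ℝ, E') J (extChartAt J n₀).symm y u))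
    (mfderiv J I g ((extChartAt J n₀).symm y) (mfderiv 𝓘(ℝ, E') J (extChartAt J n₀).symm y w)) = _
  have h1 := mfderiv_comp y (hg ((extChartAt J n₀).symm y))
    ((mdiff_symm n₀ hy).mdifferentiableAt (by simp))
  have h2 : ∀ u : E', (mfderiv 𝓘(ℝ, E') I (fun y => g ((extChartAt J n₀).symm y)) y u : E)
      = (mfderiv J I g ((extChartAt J n₀).symm y)
        (mfderiv 𝓘(ℝ, E') J (extChartAt J n₀).symm y u) : E) := by
    intro u
    exact congrArg (fun L : E' →L[ℝ] E => L u) h1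
  rw [h2, h2]

/-- **Pull backs of closed forms are closed.** -/
theorem IsClosedForm.pull {g : N → M} (hg : ContMDiff J I ∞ g) {Ω : BilinField I M}
    (hΩ : IsClosedForm Ω) : IsClosedForm (FS.pull (J := J) g Ω) := by
  have hg' : MDifferentiable J I g := hg.mdifferentiable (by simp)
  have hc : ∀ n₀ : N, ContMDiffOn 𝓘(ℝ, E') I ∞ (fun y => g ((extChartAt J n₀).symm y))
      (extChartAt J n₀).target := fun n₀ => hg.comp_contMDiffOn (contMDiffOn_extChartAt_symm n₀)
  refine ⟨fun x v => hΩ.alt _ _, fun n₀ => ?_, fun n₀ y hy a b c => ?_⟩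
  · intro y hy
    have h1 := (pull_smooth (isOpen_extChartAt_target n₀) (hc n₀) hΩ hy).1
    have h2 : formInChart (FS.pull (J := J) g Ω) n₀ =ᶠ[𝓝 y]
        pv (fun y => g ((extChartAt J n₀).symm y)) Ω := by
      filter_upwards [(isOpen_extChartAt_target n₀).mem_nhds hy] with z hz
      exact formInChart_pull hg' Ω n₀ hz
    exact (h1.congr_of_eventuallyEq h2).contDiffWithinAt
  · have h1 := (pull_smooth (isOpen_extChartAt_target n₀) (hc n₀) hΩ hy).2 a b c
    have h2 : formInChart (FS.pull (J := J) g Ω) n₀ =ᶠ[𝓝 y]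
        pv (fun y => g ((extChartAt J n₀).symm y)) Ω := by
      filter_upwards [(isOpen_extChartAt_target n₀).mem_nhds hy] with z hz
      exact formInChart_pull hg' Ω n₀ hz
    rw [h2.fderiv_eq]
    exact h1

theorem pull_comp {E'' : Type*} [NormedAddCommGroup E''] [NormedSpace ℝ E''] {H'' : Type*}
    [TopologicalSpace H''] {K : ModelWithCorners ℝ E'' H''} {L : Type*} [TopologicalSpace L]
    [ChartedSpace H'' L] {g : N → M} {h : L → N} {x : L} (hg : MDifferentiableAt J I g (h x))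
    (hh : MDifferentiableAt K J h x) (Ω : BilinField I M) :
    (pull (J := K) (fun x => g (h x)) Ω x : E'' →L[ℝ] E'' →L[ℝ] ℝ)
      = pull (J := K) h (pull (J := J) g Ω) x := by
  refine ContinuousLinearMap.ext fun u => ContinuousLinearMap.ext fun w => ?_
  rw [pull_apply, pull_apply]
  have h1 := mfderiv_comp x hg hh
  have h2 : ∀ u : E'', (mfderiv K I (fun x => g (h x)) x u : E)
      = (mfderiv J I g (h x) (mfderiv K J h x u) : E) := by
    intro u
    exact congrArg (fun L : E'' →L[ℝ] E => L u) h1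
  rw [h2, h2]
  rfl

end mfd

end Pool.Agent.L5helper94.FS
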