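import Mathlib
import Pool.Agent.L5helper94.FS.Lift
import Pool.Agent.L5helper94.FS.Pull2

/-!
# The symplectic form of the four-manifold
-/

set_option maxSynthPendingDepth 3

open scoped Manifold ContDiff Topology
open Set Filter
open Pool.Agent.Helper831

namespace Pool.Agent.L5helper94.FS

/-- the standard symplectic form of `ℝ⁴` -/
noncomputable def om0L : E4 →ₗ[ℝ] E4 →ₗ[ℝ] ℝ :=
  LinearMap.mk₂ ℝ (fun u w => u 0 * w 1 - u 1 * w 0 + (u 2 * w 3 - u 3 * w 2))
    (fun u u' w => by simp; ring) (fun c u w => by simp; ring)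
    (fun u w w' => by simp; ring) (fun c u w => by simp; ring)

/-- the standard symplectic form of `ℝ⁴` -/
noncomputable def om0 : E4 →L[ℝ] E4 →L[ℝ] ℝ :=
  LinearMap.toContinuousLinearMap
    ((LinearMap.toContinuousLinearMap : (E4 →ₗ[ℝ] ℝ) ≃ₗ[ℝ] (E4 →L[ℝ] ℝ)).toLinearMap ∘ₗ om0L)

theorem om0_apply (u w : E4) : om0 u w = u 0 * w 1 - u 1 * w 0 + (u 2 * w 3 - u 3 * w 2) := rfl

theorem om0_lin (k : ℤ) (u w : E4) : om0 (lin (mp k) u) (lin (mp k) w) = om0 u w := by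
  have h := det_mp k
  rw [Matrix.det_fin_two] at h
  have h' : ((mp k) 0 0 : ℝ) * ((mp k) 1 1 : ℝ) - ((mp k) 0 1 : ℝ) * ((mp k) 1 0 : ℝ) = 1 := by
    exact_mod_cast h
  rw [om0_apply, om0_apply]
  simp only [lin_0, lin_1, lin_2, lin_3]
  linear_combination (u 2 * w 3 - u 3 * w 2) * h'

/-- The symplectic form of the four-manifold: its pull back to `ℝ⁴` is the standard form. -/
noncomputable def omX : BilinField (𝓡 4) X4 := fun _ => om0

theorem pj_contMDiff : ContMDiff 𝓘(ℝ, E4) (𝓡 4) ∞ pj := contMDiff_proj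

theorem mfderiv_pj (y : E4) : ∃ δ : Gm, ∀ u : E4,
    (mfderiv 𝓘(ℝ, E4) (𝓡 4) pj y u : E4) = lin (mp δ.k) u := by
  obtain ⟨δ, hδ⟩ := chart_proj (Γ := Gm) (chart_mem_atlas E4 (proj Gm y))
    (mem_chart_source E4 (proj Gm y))
  refine ⟨δ, fun u => ?_⟩
  have h1 := mfderiv_proj hδ u
  rw [(hasFDerivAt_smul δ y).fderiv] at h1
  exact h1

theorem om0_pj (y u w : E4) : om0 (mfderiv 𝓘(ℝ, E4) (𝓡 4) pj y u : E4)
    (mfderiv 𝓘(ℝ, E4) (𝓡 4) pj y w : E4) = om0 u w := by
  obtain ⟨δ, hδ⟩ := mfderiv_pj y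
  rw [hδ, hδ, om0_lin]

theorem mfderiv_pj_injective (y : E4) {u : E4}
    (h : (mfderiv 𝓘(ℝ, E4) (𝓡 4) pj y u : E4) = 0) : u = 0 := by
  obtain ⟨δ, hδ⟩ := mfderiv_pj y
  have h' : lin (mp δ.k) u = (0 : E4) := (hδ u).symm.trans h
  have h1 := lin_mul (mp (-δ.k)) (mp δ.k) u
  rw [← mp_add, neg_add_cancel, mp_zero, lin_one, h', map_zero] at h1
  exact h1

theorem om0_nondeg {u : E4} (h : ∀ w, om0 u w = 0) : u = 0 := by
  refine E4_ext ?_ ?_ ?_ ?_
  · have := h (EuclideanSpace.single 1 1)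
    simpa [om0_apply] using this
  · have := h (EuclideanSpace.single 0 1)
    simpa [om0_apply] using this
  · have := h (EuclideanSpace.single 3 1)
    simpa [om0_apply] using this
  · have := h (EuclideanSpace.single 2 1)
    simpa [om0_apply] using this

theorem symm_eq_pj (x₀ : X4) : ((extChartAt (𝓡 4) x₀).symm : E4 → X4) = pj := by
  funext z
  exact symm_eq_proj (chart_mem_atlas E4 x₀) z

theorem formInChart_omX (x₀ : X4) (y : E4) : formInChart omX x₀ y = om0 := by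
  refine ContinuousLinearMap.ext fun u => ContinuousLinearMap.ext fun w => ?_
  have h : ∀ f : E4 → X4, f = pj → om0 (mfderiv 𝓘(ℝ, E4) (𝓡 4) f y u : E4)
      (mfderiv 𝓘(ℝ, E4) (𝓡 4) f y w : E4) = om0 u w := by
    rintro f rfl
    exact om0_pj y u w
  exact h _ (symm_eq_pj x₀)

theorem isSymplectic_omX : IsSymplectic omX where
  alt x v := by
    show om0 v v = 0
    rw [om0_apply]; ring
  smooth x₀ := by
    have : formInChart omX x₀ = fun _ => om0 := funext fun y => formInChart_omX x₀ y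
    rw [this]
    exact contDiffOn_const
  closed x₀ y _ a b c := by
    have : formInChart omX x₀ = fun _ => om0 := funext fun y => formInChart_omX x₀ y
    rw [this]
    simp
  nondegenerate x v h := om0_nondeg (u := v) h

theorem pv_pj (y : E4) : pv pj omX y = om0 := by
  refine ContinuousLinearMap.ext fun u => ContinuousLinearMap.ext fun w => ?_
  exact om0_pj y u w

/-! ### lifts are smooth -/

theorem lift_smooth {V : Type*} [NormedAddCommGroup V] [NormedSpace ℝ V] {F : V → E4}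
    (hF : Continuous F) (h : ContMDiff 𝓘(ℝ, V) (𝓡 4) ∞ (fun x => pj (F x))) :
    ContDiff ℝ ∞ F := by
  rw [contDiff_iff_contDiffAt]
  intro x
  obtain ⟨δ, hδ⟩ := chart_proj (Γ := Gm) (chart_mem_atlas E4 (proj Gm (F x)))
    (mem_chart_source E4 (proj Gm (F x)))
  have h1 : ∀ᶠ z in 𝓝 x, chartAt E4 (pj (F x)) (pj (F z)) = δ • F z :=
    hF.continuousAt.eventually hδ
  have h2 : ContMDiffAt (𝓡 4) 𝓘(ℝ, E4) ∞ (extChartAt (𝓡 4) (pj (F x))) (pj (F x)) :=
    contMDiffAt_extChartAt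
  have h3 : ContDiffAt ℝ ∞ (fun z => extChartAt (𝓡 4) (pj (F x)) (pj (F z))) x :=
    (ContMDiffAt.comp (g := extChartAt (𝓡 4) (pj (F x))) x h2 (h x)).contDiffAt
  have h4 : ContDiffAt ℝ ∞ (fun z => δ⁻¹ • (extChartAt (𝓡 4) (pj (F x)) (pj (F z)) : E4)) x :=
    ContDiffAt.comp (g := fun z : E4 => δ⁻¹ • z) x (SmoothConst.smooth δ⁻¹).contDiffAt h3
  refine h4.congr_of_eventuallyEq ?_
  filter_upwards [h1] with z hz
  have h5 : (extChartAt (𝓡 4) (pj (F x)) (pj (F z)) : E4) = δ • F z := hz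
  rw [h5, inv_smul_smul]

end Pool.Agent.L5helper94.FS
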