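import Mathlib
import Pool.Agent.W585.Param

/-!
# Integration operators in the coordinates of `ℝ⁶`
-/

open MeasureTheory Set Function
open scoped ContDiff

set_option linter.unusedSectionVars false

namespace Pool.Agent.L5helper94.FS

/-- the index set of the coordinates -/
abbrev Ix : Type := Fin 3 × Fin 2
/-- six-dimensional space -/
abbrev V6 : Type := Ix → ℝ

/-- index of the coordinate `s` -/
abbrev iS : Ix := (0, 0)
/-- index of the coordinate `t` -/
abbrev iT : Ix := (0, 1)
/-- index of the coordinate `v₁` -/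
abbrev iA : Ix := (1, 0)
/-- index of the coordinate `v₂` -/
abbrev iB : Ix := (1, 1)
/-- index of the colatitude -/
abbrev iH : Ix := (2, 0)
/-- index of the longitude -/
abbrev iP : Ix := (2, 1)

/-- coordinate vectors -/
noncomputable abbrev ev (i : Ix) : V6 := Pi.single i 1

/-- integration in the `i`-th coordinate from `0` to `c` -/
noncomputable def J (i : Ix) (c : ℝ) (f : V6 → ℝ) (x : V6) : ℝ :=
  ∫ r in (0 : ℝ)..c, f (update x i r)

/-- the primitive in the `i`-th coordinate -/
noncomputable def K (i : Ix) (f : V6 → ℝ) (x : V6) : ℝ := J i (x i) f x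

theorem cont_upd {f : V6 → ℝ} (hf : Continuous f) (i : Ix) :
    Continuous (uncurry fun (x : V6) (r : ℝ) => f (update x i r)) := by
  have : Continuous (fun p : V6 × ℝ => f (update p.1 i p.2)) :=
    hf.comp (continuous_fst.update i continuous_snd)
  exact this

theorem cont_upd' {f : V6 → ℝ} (hf : Continuous f) (i : Ix) (x : V6) :
    Continuous (fun r : ℝ => f (update x i r)) :=
  hf.comp (continuous_const.update i continuous_id)

theorem int_upd {f : V6 → ℝ} (hf : Continuous f) (i : Ix) (x : V6) (a b : ℝ) :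
    IntervalIntegrable (fun r : ℝ => f (update x i r)) volume a b :=
  (cont_upd' hf i x).intervalIntegrable _ _

theorem continuous_J {f : V6 → ℝ} (hf : Continuous f) (i : Ix) (c : ℝ) : Continuous (J i c f) :=
  intervalIntegral.continuous_parametric_intervalIntegral_of_continuous' (cont_upd hf i) 0 c

theorem J_add {f g : V6 → ℝ} (hf : Continuous f) (hg : Continuous g) (i : Ix) (c : ℝ) :
    J i c (fun x => f x + g x) = fun x => J i c f x + J i c g x := by
  funext x
  exact intervalIntegral.integral_add (int_upd hf i x _ _) (int_upd hg i x _ _)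

theorem J_sub {f g : V6 → ℝ} (hf : Continuous f) (hg : Continuous g) (i : Ix) (c : ℝ) :
    J i c (fun x => f x - g x) = fun x => J i c f x - J i c g x := by
  funext x
  exact intervalIntegral.integral_sub (int_upd hf i x _ _) (int_upd hg i x _ _)

theorem J_sum {ι : Type*} (s : Finset ι) {f : ι → V6 → ℝ} (hf : ∀ k ∈ s, Continuous (f k))
    (i : Ix) (c : ℝ) :
    J i c (fun x => ∑ k ∈ s, f k x) = fun x => ∑ k ∈ s, J i c (f k) x := by
  funext x
  unfold J
  rw [intervalIntegral.integral_finsetSum]
  intro k hk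
  exact int_upd (hf k hk) i x _ _

theorem J_neg (f : V6 → ℝ) (i : Ix) (c : ℝ) :
    J i c (fun x => - f x) = fun x => - J i c f x := by
  funext x
  exact intervalIntegral.integral_neg

/-- a function which does not depend on the `i`-th coordinate factors out -/
theorem J_mul {g : V6 → ℝ} (f : V6 → ℝ) (i : Ix) (c : ℝ) (hg : ∀ x r, g (update x i r) = g x) :
    J i c (fun x => g x * f x) = fun x => g x * J i c f x := by
  funext x
  unfold J
  simp only [hg]
  exact intervalIntegral.integral_const_mul _ _

theorem J_const_mul (k : ℝ) (f : V6 → ℝ) (i : Ix) (c : ℝ) :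
    J i c (fun x => k * f x) = fun x => k * J i c f x :=
  J_mul f i c (fun _ _ => rfl)

theorem J_zero (i : Ix) (c : ℝ) : J i c (fun _ => 0) = fun _ => 0 := by
  funext x
  simp [J]

/-- the integral does not depend on the integrated coordinate -/
theorem J_upd (f : V6 → ℝ) (i : Ix) (c : ℝ) (x : V6) (r : ℝ) :
    J i c f (update x i r) = J i c f x := by
  simp [J]

theorem J_upd_ne (f : V6 → ℝ) {i j : Ix} (h : i ≠ j) (c : ℝ) (x : V6) (r : ℝ) :
    J i c f (update x j r) = J i c (fun y => f (update y j r)) x := by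
  unfold J
  simp only [update_comm h.symm]

theorem J_comm {f : V6 → ℝ} (hf : Continuous f) {i j : Ix} (h : i ≠ j) (c d : ℝ) :
    J i c (J j d f) = J j d (J i c f) := by
  funext x
  unfold J
  have h1 : Continuous (fun p : ℝ × ℝ => f (update (update x i p.1) j p.2)) := by
    have e1 : Continuous (fun p : ℝ × ℝ => update (update x i p.1) j p.2) :=
      ((continuous_const (y := x)).update i continuous_fst).update j continuous_snd
    exact hf.comp e1
  rw [intervalIntegral_intervalIntegral_swap (F := fun r r' => f (update (update x i r) j r'))]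
  · simp only [update_comm h]
  · have h2 : IntegrableOn (uncurry fun r r' => f (update (update x i r) j r'))
        (uIcc 0 c ×ˢ uIcc 0 d) :=
      ContinuousOn.integrableOn_compact (isCompact_uIcc.prod isCompact_uIcc) h1.continuousOn
    exact h2.mono_set (prod_mono uIoc_subset_uIcc uIoc_subset_uIcc)

/-- the projection which kills the `i`-th coordinate -/
noncomputable def Pz (i : Ix) : V6 →L[ℝ] V6 :=
  ContinuousLinearMap.id ℝ V6
    - (ContinuousLinearMap.proj (R := ℝ) (φ := fun _ : Ix => ℝ) i).smulRight (ev i)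

theorem Pz_apply (i : Ix) (u : V6) : Pz i u = update u i 0 := by
  ext j
  by_cases hj : j = i
  · subst hj; simp [Pz]
  · simp [Pz, hj]

theorem hasFDerivAt_upd (i : Ix) (r : ℝ) (x : V6) :
    HasFDerivAt (fun y : V6 => update y i r) (Pz i) x := by
  have h : (fun y : V6 => update y i r) = fun y => Pz i y + r • ev i := by
    funext y
    rw [Pz_apply]
    ext j
    by_cases hj : j = i
    · subst hj; simp
    · simp [hj]
  rw [h]
  exact (Pz i).hasFDerivAt.add_const _

theorem contDiff_upd (i : Ix) : ContDiff ℝ ∞ (fun p : V6 × ℝ => update p.1 i p.2) := by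
  rw [contDiff_pi]
  intro j
  by_cases hj : j = i
  · subst hj
    simpa using contDiff_snd
  · simp only [update_of_ne hj]
    exact (contDiff_apply ℝ ℝ j).comp contDiff_fst

theorem contDiff_J {f : V6 → ℝ} (hf : ContDiff ℝ ∞ f) (i : Ix) (c : ℝ) :
    ContDiff ℝ ∞ (J i c f) :=
  Pool.Agent.W585.contDiff_param (F := fun x r => f (update x i r)) (hf.comp (contDiff_upd i)) 0 c

theorem fderiv_J {f : V6 → ℝ} (hf : ContDiff ℝ ∞ f) (i : Ix) (c : ℝ) (x u : V6) :
    fderiv ℝ (J i c f) x u = J i c (fun y => fderiv ℝ f y (update u i 0)) x := by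
  have h1 : ContDiff ℝ ∞ (fun p : V6 × ℝ => f (update p.1 i p.2)) := hf.comp (contDiff_upd i)
  have h2 := Pool.Agent.W585.hasFDerivAt_param (F := fun x r => f (update x i r))
    (h1.of_le (by norm_num)) 0 c x
  have h3 : ∀ r, fderiv ℝ (fun y => f (update y i r)) x
      = (fderiv ℝ f (update x i r)).comp (Pz i) := by
    intro r
    have e1 : HasFDerivAt f (fderiv ℝ f (update x i r)) (update x i r) :=
      (hf.differentiable (by simp) _).hasFDerivAt
    exact (HasFDerivAt.comp (g := f) x e1 (hasFDerivAt_upd i r x)).fderiv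
  have h4 : fderiv ℝ (J i c f) x = ∫ t in (0 : ℝ)..c, fderiv ℝ (fun y => f (update y i t)) x :=
    h2.fderiv
  rw [h4]
  simp only [h3]
  rw [ContinuousLinearMap.intervalIntegral_apply]
  · simp only [ContinuousLinearMap.comp_apply, Pz_apply]
    rfl
  · refine Continuous.intervalIntegrable ?_ _ _
    have e2 : Continuous (fun r : ℝ => fderiv ℝ f (update x i r)) :=
      (hf.continuous_fderiv (by simp)).comp (continuous_const.update i continuous_id)
    exact e2.clm_comp continuous_const

theorem continuous_fd {f : V6 → ℝ} (hf : ContDiff ℝ 1 f) (u : V6) :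
    Continuous (fun y => fderiv ℝ f y u) :=
  (hf.continuous_fderiv (by simp)).clm_apply continuous_const

theorem contDiff_fd {f : V6 → ℝ} (hf : ContDiff ℝ ∞ f) (u : V6) :
    ContDiff ℝ ∞ (fun y => fderiv ℝ f y u) :=
  (hf.fderiv_right (m := ∞) (by simp)).clm_apply contDiff_const

theorem update_ev_ne {i j : Ix} (h : j ≠ i) : update (ev j) i (0 : ℝ) = ev j := by
  ext k
  by_cases hk : k = i
  · subst hk; simp [h.symm]
  · simp [hk]

theorem update_ev_self (i : Ix) : update (ev i) i (0 : ℝ) = 0 := by
  ext k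
  by_cases hk : k = i
  · subst hk; simp
  · simp [hk]

theorem hasDerivAt_upd {f : V6 → ℝ} (hf : ContDiff ℝ 1 f) (i : Ix) (x : V6) (r : ℝ) :
    HasDerivAt (fun r : ℝ => f (update x i r)) (fderiv ℝ f (update x i r) (ev i)) r := by
  have e1 : HasFDerivAt f (fderiv ℝ f (update x i r)) (update x i r) :=
    (hf.differentiable (by simp) _).hasFDerivAt
  exact e1.comp_hasDerivAt r (hasDerivAt_update x i r)

theorem ftc_upd {f : V6 → ℝ} (hf : ContDiff ℝ 1 f) (i : Ix) (x : V6) (a b : ℝ) :
    ∫ r in a..b, fderiv ℝ f (update x i r) (ev i) = f (update x i b) - f (update x i a) :=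
  intervalIntegral.integral_eq_sub_of_hasDerivAt (f := fun r : ℝ => f (update x i r))
    (fun r _ => hasDerivAt_upd hf i x r) ((cont_upd' (continuous_fd hf (ev i)) i x).intervalIntegrable _ _)

theorem J_deriv {f : V6 → ℝ} (hf : ContDiff ℝ 1 f) (i : Ix) (c : ℝ) (x : V6) :
    J i c (fun y => fderiv ℝ f y (ev i)) x = f (update x i c) - f (update x i 0) :=
  ftc_upd hf i x 0 c

theorem contDiff_K {f : V6 → ℝ} (hf : ContDiff ℝ ∞ f) (i : Ix) : ContDiff ℝ ∞ (K i f) := by
  have h1 : K i f = fun x => x i * ∫ ρ in (0 : ℝ)..1, f (update x i (x i * ρ)) := by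
    funext x
    unfold K J
    by_cases hx : x i = 0
    · simp [hx]
    · rw [intervalIntegral.integral_comp_mul_left (fun r => f (update x i r)) hx]
      simp only [mul_zero, mul_one, smul_eq_mul]
      field_simp
  rw [h1]
  refine (contDiff_apply ℝ ℝ i).mul ?_
  refine Pool.Agent.W585.contDiff_param (F := fun x ρ => f (update x i (x i * ρ))) ?_ 0 1
  refine hf.comp ((contDiff_upd i).comp (contDiff_fst.prodMk ?_))
  exact ((contDiff_apply ℝ ℝ i).comp contDiff_fst).mul contDiff_snd

theorem fderiv_K_self {f : V6 → ℝ} (hf : ContDiff ℝ ∞ f) (i : Ix) (x : V6) :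
    fderiv ℝ (K i f) x (ev i) = f x := by
  have h1 := hasDerivAt_upd ((contDiff_K hf i).of_le (by norm_num)) i x (x i)
  rw [update_eq_self] at h1
  have h2 : (fun r : ℝ => K i f (update x i r)) = fun r => ∫ ρ in (0 : ℝ)..r, f (update x i ρ) := by
    funext r
    simp [K, J]
  rw [h2] at h1
  have h3 := intervalIntegral.integral_hasDerivAt_right (f := fun ρ => f (update x i ρ))
    (int_upd hf.continuous i x 0 (x i))
    ((cont_upd' hf.continuous i x).stronglyMeasurableAtFilter _ _)
    (cont_upd' hf.continuous i x).continuousAt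
  have h4 := h1.unique h3
  rw [h4, update_eq_self]

theorem fderiv_K_ne {f : V6 → ℝ} (hf : ContDiff ℝ ∞ f) {i j : Ix} (h : j ≠ i) (x : V6) :
    fderiv ℝ (K i f) x (ev j) = K i (fun y => fderiv ℝ f y (ev j)) x := by
  have h1 := hasDerivAt_upd ((contDiff_K hf i).of_le (by norm_num)) j x (x j)
  rw [update_eq_self] at h1
  have h2 : (fun r : ℝ => K i f (update x j r)) = fun r => J i (x i) f (update x j r) := by
    funext r
    simp [K, update_of_ne h.symm]
  rw [h2] at h1
  have h3 := hasDerivAt_upd ((contDiff_J hf i (x i)).of_le (by norm_num)) j x (x j)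
  rw [update_eq_self] at h3
  have h4 := h1.unique h3
  rw [h4, fderiv_J hf, update_ev_ne h]
  rfl

theorem fderiv_J_self {f : V6 → ℝ} (hf : ContDiff ℝ ∞ f) (i : Ix) (c : ℝ) (x : V6) :
    fderiv ℝ (J i c f) x (ev i) = 0 := by
  rw [fderiv_J hf, update_ev_self]
  simp [J]

theorem fderiv_J_ne {f : V6 → ℝ} (hf : ContDiff ℝ ∞ f) {i j : Ix} (h : j ≠ i) (c : ℝ) (x : V6) :
    fderiv ℝ (J i c f) x (ev j) = J i c (fun y => fderiv ℝ f y (ev j)) x := by
  rw [fderiv_J hf, update_ev_ne h]

/-- positivity -/
theorem J_pos {f : V6 → ℝ} (hf : Continuous f) (i : Ix) {c : ℝ} (hc : 0 < c) (x : V6)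
    (h : ∀ r, 0 < r → r < c → 0 < f (update x i r)) : 0 < J i c f x := by
  refine intervalIntegral.intervalIntegral_pos_of_pos_on (int_upd hf i x 0 c) ?_ hc
  intro r hr
  exact h r hr.1 hr.2

end Pool.Agent.L5helper94.FS
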