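import Mathlib
import Pool.Agent.L5helper94.FS.JOp
import Pool.Agent.Y519.AS.Homot

/-!
# The gluing map and the iterated integral over the fundamental domain
-/

open MeasureTheory Set Function Module
open scoped ContDiff
open Pool.Agent.Y519.AS (pf toB dEta IsCl Xi tens Xi_eq pf_comp contDiff_Xi divergence_identity)

set_option linter.unusedSectionVars false

namespace Pool.Agent.L5helper94.FS

/-- coordinates -/
noncomputable abbrev pr (i : Ix) : V6 →L[ℝ] ℝ :=
  ContinuousLinearMap.proj (R := ℝ) (φ := fun _ : Ix => ℝ) i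

/-- the shear `v₁ ↦ v₁ + v₂` -/
noncomputable def sA (x : V6) : V6 := x + x iB • ev iA
/-- the shear `v₂ ↦ v₂ + v₁` -/
noncomputable def sB (x : V6) : V6 := x + x iA • ev iB

/-- the linear gluing map `(v₁, v₂) ↦ (7 v₁ + 11 v₂, 5 v₁ + 8 v₂)` -/
noncomputable def Mo : V6 →L[ℝ] V6 :=
  ContinuousLinearMap.id ℝ V6 + ((6 : ℝ) • pr iA + (11 : ℝ) • pr iB).smulRight (ev iA)
    + ((5 : ℝ) • pr iA + (7 : ℝ) • pr iB).smulRight (ev iB)

theorem Mo_A (x : V6) : Mo x iA = 7 * x iA + 11 * x iB := by
  simp [Mo]; ring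
theorem Mo_B (x : V6) : Mo x iB = 5 * x iA + 8 * x iB := by
  simp [Mo]; ring
theorem Mo_ne (x : V6) {i : Ix} (h1 : i ≠ iA) (h2 : i ≠ iB) : Mo x i = x i := by
  simp [Mo, Pi.single_apply, h1, h2]

theorem sA_A (x : V6) : sA x iA = x iA + x iB := by simp [sA]
theorem sA_ne (x : V6) {i : Ix} (h : i ≠ iA) : sA x i = x i := by
  simp [sA, Pi.single_apply, h]
theorem sB_B (x : V6) : sB x iB = x iB + x iA := by simp [sB]
theorem sB_ne (x : V6) {i : Ix} (h : i ≠ iB) : sB x i = x i := by
  simp [sB, Pi.single_apply, h]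

theorem sA_B (x : V6) : sA x iB = x iB := sA_ne x (by decide)
theorem sB_A (x : V6) : sB x iA = x iA := sB_ne x (by decide)

theorem Mo_eq (x : V6) : Mo x = sA (sB (sB (sA (sB (sA x))))) := by
  funext i
  by_cases h1 : i = iA
  · subst h1
    rw [Mo_A]
    simp only [sA_A, sB_A, sB_B, sA_B]
    ring
  · by_cases h2 : i = iB
    · subst h2
      rw [Mo_B]
      simp only [sA_A, sB_A, sB_B, sA_B]
      ring
    · rw [Mo_ne x h1 h2, sA_ne _ h1, sB_ne _ h2, sB_ne _ h2, sA_ne _ h1, sB_ne _ h2, sA_ne _ h1]

theorem continuous_sA : Continuous sA := by unfold sA; fun_prop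
theorem continuous_sB : Continuous sB := by unfold sB; fun_prop

/-- functions periodic in the fibre coordinates -/
def PerAB (f : V6 → ℝ) : Prop := (∀ x, f (x + ev iA) = f x) ∧ ∀ x, f (x + ev iB) = f x

theorem PerAB.sA {f : V6 → ℝ} (h : PerAB f) : PerAB (fun x => f (sA x)) := by
  refine ⟨fun x => ?_, fun x => ?_⟩
  · have : FS.sA (x + ev iA) = FS.sA x + ev iA := by
      simp [FS.sA]; abel
    simp only [this, h.1]
  · have : FS.sA (x + ev iB) = (FS.sA x + ev iB) + ev iA := by
      simp [FS.sA, add_smul]; abel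
    simp only [this, h.1, h.2]

theorem PerAB.sB {f : V6 → ℝ} (h : PerAB f) : PerAB (fun x => f (sB x)) := by
  refine ⟨fun x => ?_, fun x => ?_⟩
  · have : FS.sB (x + ev iA) = (FS.sB x + ev iA) + ev iB := by
      simp [FS.sB, add_smul]; abel
    simp only [this, h.1, h.2]
  · have : FS.sB (x + ev iB) = FS.sB x + ev iB := by
      simp [FS.sB]; abel
    simp only [this, h.2]

theorem upd_add (x : V6) (i : Ix) (r s : ℝ) : update x i (r + s) = update x i r + s • ev i := by
  ext j
  by_cases hj : j = i
  · subst hj; simp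
  · simp [hj]

theorem J_shift {f : V6 → ℝ} {i : Ix} {c : ℝ} (h : ∀ x, f (x + c • ev i) = f x) (x : V6) (s : ℝ) :
    ∫ r in (0 : ℝ)..c, f (update x i (r + s)) = J i c f x := by
  have hp : Function.Periodic (fun r => f (update x i r)) c := by
    intro r
    show f (update x i (r + c)) = f (update x i r)
    rw [upd_add, h]
  rw [intervalIntegral.integral_comp_add_right (fun r => f (update x i r)) s]
  have := hp.intervalIntegral_add_eq (0 + s) 0
  rw [zero_add] at this
  rw [zero_add, add_comm c s, this, zero_add]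
  rfl

theorem JAB_sA {f : V6 → ℝ} (hf : Continuous f) (h : PerAB f) :
    J iA 1 (J iB 1 (fun x => f (sA x))) = J iA 1 (J iB 1 f) := by
  have hc : Continuous (fun x => f (sA x)) := hf.comp continuous_sA
  rw [J_comm hc (by decide), J_comm hf (by decide)]
  congr 1
  funext x
  have h1 : ∀ r, f (sA (update x iA r)) = f (update x iA (r + x iB)) := by
    intro r
    congr 1
    rw [upd_add]
    simp [sA]
  show ∫ r in (0 : ℝ)..1, f (sA (update x iA r)) = _
  simp only [h1]
  exact J_shift (by simpa using h.1) x (x iB)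

theorem JAB_sB {f : V6 → ℝ} (h : PerAB f) :
    J iA 1 (J iB 1 (fun x => f (sB x))) = J iA 1 (J iB 1 f) := by
  congr 1
  funext x
  have h1 : ∀ r, f (sB (update x iB r)) = f (update x iB (r + x iA)) := by
    intro r
    congr 1
    rw [upd_add]
    simp [sB]
  show ∫ r in (0 : ℝ)..1, f (sB (update x iB r)) = _
  simp only [h1]
  exact J_shift (by simpa using h.2) x (x iA)

/-- the integral over the fibre torus is invariant under the gluing map -/
theorem JAB_Mo {f : V6 → ℝ} (hf : Continuous f) (h : PerAB f) :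
    J iA 1 (J iB 1 (fun x => f (Mo x))) = J iA 1 (J iB 1 f) := by
  simp only [Mo_eq]
  have c1 : Continuous (fun x => f (sA x)) := hf.comp continuous_sA
  have c2 : Continuous (fun x => f (sA (sB x))) := c1.comp continuous_sB
  have c3 : Continuous (fun x => f (sA (sB (sB x)))) := c2.comp continuous_sB
  have c4 : Continuous (fun x => f (sA (sB (sB (sA x))))) := c3.comp continuous_sA
  have c5 : Continuous (fun x => f (sA (sB (sB (sA (sB x)))))) := c4.comp continuous_sB
  have h1 := h.sA
  have h2 := h1.sB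
  have h3 := h2.sB
  have h4 := h3.sA
  have h5 := h4.sB
  rw [JAB_sA c5 h5, JAB_sB h4, JAB_sA c3 h3, JAB_sB h2, JAB_sB h1, JAB_sA hf h]

theorem det_Mo : LinearMap.det (Mo : V6 →ₗ[ℝ] V6) = 1 := by
  have hA : ∀ x : V6, sA x = LinearMap.transvection (pr iB).toLinearMap (ev iA) x := fun x => rfl
  have hB : ∀ x : V6, sB x = LinearMap.transvection (pr iA).toLinearMap (ev iB) x := fun x => rfl
  set TA := LinearMap.transvection (pr iB).toLinearMap (ev iA) with hTA
  set TB := LinearMap.transvection (pr iA).toLinearMap (ev iB) with hTB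
  have h : (Mo : V6 →ₗ[ℝ] V6) = TA ∘ₗ TB ∘ₗ TB ∘ₗ TA ∘ₗ TB ∘ₗ TA := by
    refine LinearMap.ext fun x => ?_
    simp only [ContinuousLinearMap.coe_coe, LinearMap.comp_apply]
    rw [Mo_eq, hA, hB, hB, hA, hB, hA]
  have dA : LinearMap.det TA = 1 := by
    rw [hTA, LinearMap.transvection.det]; simp
  have dB : LinearMap.det TB = 1 := by
    rw [hTB, LinearMap.transvection.det]; simp
  rw [h]
  simp only [LinearMap.det_comp, dA, dB, mul_one]

/-! ### the iterated integral -/

/-- the range of integration -/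
noncomputable def rg (i : Ix) : ℝ := if i = iH then Real.pi else if i = iP then 2 * Real.pi else 1

/-- iterated integrals -/
noncomputable def JL : List Ix → (V6 → ℝ) → V6 → ℝ
  | [], f => f
  | i :: l, f => J i (rg i) (JL l f)

theorem continuous_JL {f : V6 → ℝ} (hf : Continuous f) : ∀ l : List Ix, Continuous (JL l f)
  | [] => hf
  | i :: l => continuous_J (continuous_JL hf l) i (rg i)

theorem JL_perm {f : V6 → ℝ} (hf : Continuous f) {l l' : List Ix} (h : l.Perm l') :
    l.Nodup → JL l f = JL l' f := by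
  induction h with
  | nil => intro _; rfl
  | cons x _ ih =>
    intro hn
    show J _ _ _ = J _ _ _
    rw [ih (List.nodup_cons.1 hn).2]
  | swap x y l =>
    intro hn
    have hxy : y ≠ x := fun e => (List.nodup_cons.1 hn).1 (e ▸ List.mem_cons_self)
    exact J_comm (continuous_JL hf l) hxy _ _
  | trans h1 _ ih1 ih2 =>
    intro hn
    rw [ih1 hn, ih2 (h1.nodup_iff.1 hn)]

theorem JL_add {f g : V6 → ℝ} (hf : Continuous f) (hg : Continuous g) : ∀ l : List Ix,
    JL l (fun x => f x + g x) = fun x => JL l f x + JL l g x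
  | [] => rfl
  | i :: l => by
    show J i (rg i) _ = _
    rw [JL_add hf hg l, J_add (continuous_JL hf l) (continuous_JL hg l)]
    rfl

theorem JL_sum {ι : Type*} (s : Finset ι) {f : ι → V6 → ℝ} (hf : ∀ k ∈ s, Continuous (f k)) :
    ∀ l : List Ix, JL l (fun x => ∑ k ∈ s, f k x) = fun x => ∑ k ∈ s, JL l (f k) x
  | [] => rfl
  | i :: l => by
    show J i (rg i) _ = _
    rw [JL_sum s hf l, J_sum s fun k hk => continuous_JL (hf k hk) l]
    rfl

theorem JL_const_mul (k : ℝ) (f : V6 → ℝ) : ∀ l : List Ix,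
    JL l (fun x => k * f x) = fun x => k * JL l f x
  | [] => rfl
  | i :: l => by
    show J i (rg i) _ = _
    rw [JL_const_mul k f l, J_const_mul]
    rfl

theorem JL_zero : ∀ l : List Ix, JL l (fun _ => 0) = fun _ => 0
  | [] => rfl
  | i :: l => by
    show J i (rg i) _ = _
    rw [JL_zero l, J_zero]

theorem JL_append (l l' : List Ix) (f : V6 → ℝ) : JL (l ++ l') f = JL l (JL l' f) := by
  induction l with
  | nil => rfl
  | cons i l ih =>
    show J i (rg i) (JL (l ++ l') f) = J i (rg i) (JL l (JL l' f))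
    rw [ih]

/-- the integral over the fundamental domain -/
noncomputable def JJ (f : V6 → ℝ) : ℝ := JL [iS, iT, iA, iB, iH, iP] f 0

theorem JJ_add {f g : V6 → ℝ} (hf : Continuous f) (hg : Continuous g) :
    JJ (fun x => f x + g x) = JJ f + JJ g := by
  unfold JJ
  rw [JL_add hf hg]

theorem JJ_sum {ι : Type*} (s : Finset ι) {f : ι → V6 → ℝ} (hf : ∀ k ∈ s, Continuous (f k)) :
    JJ (fun x => ∑ k ∈ s, f k x) = ∑ k ∈ s, JJ (f k) := by
  unfold JJ
  rw [JL_sum s hf]

theorem JJ_const_mul (k : ℝ) (f : V6 → ℝ) : JJ (fun x => k * f x) = k * JJ f := by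
  unfold JJ
  rw [JL_const_mul]

/-- if the two faces in the `i`-th direction cancel, the derivative integrates to zero -/
theorem JJ_deriv_zero {f : V6 → ℝ} (hf : ContDiff ℝ 1 f) (i : Ix)
    (h : ∀ x, f (update x i (rg i)) = f (update x i 0)) :
    JJ (fun x => fderiv ℝ f x (ev i)) = 0 := by
  have hc := continuous_fd hf (ev i)
  have hz : J i (rg i) (fun x => fderiv ℝ f x (ev i)) = fun _ => 0 := by
    funext x
    rw [J_deriv hf, h, sub_self]
  have key : ∀ l : List Ix, [iS, iT, iA, iB, iH, iP].Perm (l ++ [i]) →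
      JJ (fun x => fderiv ℝ f x (ev i)) = 0 := by
    intro l hl
    unfold JJ
    rw [JL_perm hc hl (by decide), JL_append]
    have : JL [i] (fun x => fderiv ℝ f x (ev i)) = fun _ => 0 := hz
    rw [this, JL_zero]
  refine key ([iS, iT, iA, iB, iH, iP].erase i) ?_
  have hi : i ∈ [iS, iT, iA, iB, iH, iP] := by
    clear key hz hc h
    revert i; decide
  exact (List.perm_cons_erase hi).trans (List.perm_append_singleton _ _).symm

/-- the faces in the `s`-direction cancel by the gluing -/
theorem JJ_deriv_S {f : V6 → ℝ} (hf : ContDiff ℝ 1 f) (hp : PerAB f)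
    (h : ∀ x, f (Mo x + ev iS) = f x) :
    JJ (fun x => fderiv ℝ f x (ev iS)) = 0 := by
  have hc := continuous_fd hf (ev iS)
  unfold JJ
  rw [JL_perm hc (l' := [iT, iH, iP] ++ [iA, iB] ++ [iS]) (by decide) (by decide),
    JL_append, JL_append]
  have hr : rg iS = 1 := by simp [rg]
  have e1 : JL [iS] (fun x => fderiv ℝ f x (ev iS))
      = fun x => f (update x iS 1) - f (update x iS 0) := by
    funext x
    show J iS (rg iS) (fun x => fderiv ℝ f x (ev iS)) x = _
    rw [hr, J_deriv hf]
  have hrA : rg iA = 1 := by simp [rg]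
  have hrB : rg iB = 1 := by simp [rg]
  have hg : Continuous (fun x => f (update x iS 1)) :=
    hf.continuous.comp (continuous_id.update iS continuous_const)
  have hg0 : Continuous (fun x => f (update x iS 0)) :=
    hf.continuous.comp (continuous_id.update iS continuous_const)
  have hpg : PerAB (fun x => f (update x iS 1)) := by
    have h1 : ∀ (x : V6) (j : Ix), j ≠ iS → update (x + ev j) iS (1 : ℝ) = update x iS 1 + ev j := by
      intro x j hj
      ext k
      by_cases hk : k = iS
      · subst hk; simp [hj.symm]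
      · simp [hk]
    refine ⟨fun x => ?_, fun x => ?_⟩
    · simp only [h1 x iA (by decide), hp.1]
    · simp only [h1 x iB (by decide), hp.2]
  have e2 : J iA 1 (J iB 1 (fun x => f (update x iS 1))) = J iA 1 (J iB 1 (fun x => f (update x iS 0)))
      := by
    rw [← JAB_Mo hg hpg]
    congr 2
    funext x
    rw [← h (update x iS 0)]
    congr 1
    ext k
    by_cases hk : k = iS
    · subst hk
      simp [Mo_ne (update x iS 0) (i := iS) (by decide) (by decide)]
    · rw [update_of_ne hk]
      simp only [Pi.add_apply, Pi.single_apply, hk, if_false, add_zero]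
      by_cases h1 : k = iA
      · subst h1
        rw [Mo_A, Mo_A, update_of_ne (by decide), update_of_ne (by decide)]
      · by_cases h2 : k = iB
        · subst h2
          rw [Mo_B, Mo_B, update_of_ne (by decide), update_of_ne (by decide)]
        · rw [Mo_ne _ h1 h2, Mo_ne _ h1 h2, update_of_ne hk]
  have e3 : JL [iA, iB] (fun x => f (update x iS 1) - f (update x iS 0)) = fun _ => 0 := by
    show J iA (rg iA) (J iB (rg iB) (fun x => f (update x iS 1) - f (update x iS 0))) = _
    rw [hrA, hrB, J_sub hg hg0, J_sub (continuous_J hg _ _) (continuous_J hg0 _ _), e2]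
    funext x
    exact sub_self _
  rw [e1, e3, JL_zero]

theorem J_pos_all {f : V6 → ℝ} (hf : Continuous f) (h : ∀ x, 0 < x iH → x iH < Real.pi → 0 < f x) :
    0 < JJ f := by
  unfold JJ
  rw [JL_perm hf (l' := [iS, iT, iA, iB] ++ [iH] ++ [iP]) (by decide) (by decide)]
  have hpos : ∀ i, 0 < rg i := by
    intro i
    unfold rg
    split_ifs <;> positivity
  have c1 := continuous_JL hf [iP]
  have h1 : ∀ x, 0 < x iH → x iH < Real.pi → 0 < JL [iP] f x := by
    intro x h1 h2
    refine J_pos hf iP (hpos iP) x fun r _ _ => h _ ?_ ?_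
    · rw [update_of_ne (by decide)]; exact h1
    · rw [update_of_ne (by decide)]; exact h2
  have hrH : rg iH = Real.pi := by simp [rg]
  have h2 : ∀ x, 0 < JL ([iH] ++ [iP]) f x := by
    intro x
    rw [JL_append]
    refine J_pos c1 iH (hpos iH) x fun r hr1 hr2 => h1 _ ?_ ?_
    · rw [update_self]; exact hr1
    · rw [update_self, ← hrH]; exact hr2
  rw [List.append_assoc, JL_append]
  have key : ∀ (l : List Ix) (g : V6 → ℝ), Continuous g → (∀ x, 0 < g x) → ∀ x, 0 < JL l g x := by
    intro l
    induction l with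
    | nil => intro g _ hg x; exact hg x
    | cons i l ih =>
      intro g hc hg x
      exact J_pos (continuous_JL hc l) i (hpos i) x fun r _ _ => ih g hc hg _
  exact key _ _ (continuous_JL hf _) h2 0

end Pool.Agent.L5helper94.FS
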