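import Mathlib
import Pool.Agent.L5helper94.FS.Glue

/-!
# Stokes' theorem for invariant forms on the fundamental domain
-/

open MeasureTheory Set Function Module
open scoped ContDiff
open Pool.Agent.Y519.AS (pf toB dEta IsCl Xi tens Xi_eq pf_comp contDiff_Xi divergence_identity
  contDiff_apply2 toB_apply tens_apply dEta_apply)

set_option linter.unusedSectionVars false

namespace Pool.Agent.L5helper94.FS

/-- two-forms on `ℝ⁶` -/
abbrev F2 : Type := V6 → V6 →L[ℝ] V6 →L[ℝ] ℝ
/-- one-forms on `ℝ⁶` -/
abbrev F1 : Type := V6 → V6 →L[ℝ] ℝ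

/-- the standard basis -/
noncomputable abbrev eb : Basis Ix ℝ V6 := Pi.basisFun ℝ Ix

theorem eb_apply (i : Ix) : eb i = ev i := by simp [eb]

theorem eb_coord (i : Ix) (u : V6) : eb.coord i u = u i := by simp [eb]

/-- invariance of two-forms -/
structure Sym2 (α : F2) : Prop where
  perT : ∀ x, α (x + ev iT) = α x
  perA : ∀ x, α (x + ev iA) = α x
  perB : ∀ x, α (x + ev iB) = α x
  perP : ∀ x, α (x + (2 * Real.pi) • ev iP) = α x
  glu : ∀ x u w, α (Mo x + ev iS) (Mo u) (Mo w) = α x u w
  pole : ∀ x : V6, (x iH = 0 ∨ x iH = Real.pi) → ∀ j, j ≠ iH → α x (ev iP) (ev j) = 0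
  alt : ∀ x u, α x u u = 0

/-- invariance of one-forms -/
structure Sym1 (η : F1) : Prop where
  perT : ∀ x, η (x + ev iT) = η x
  perA : ∀ x, η (x + ev iA) = η x
  perB : ∀ x, η (x + ev iB) = η x
  perP : ∀ x, η (x + (2 * Real.pi) • ev iP) = η x
  glu : ∀ x u, η (Mo x + ev iS) (Mo u) = η x u
  pole : ∀ x : V6, (x iH = 0 ∨ x iH = Real.pi) → η x (ev iP) = 0

theorem anti_of_alt {α : F2} (h : ∀ x u, α x u u = 0) (x u w : V6) : α x u w = - α x w u := by
  have h7 := h x (u + w)
  simp only [map_add, _root_.add_apply, h, zero_add, add_zero] at h7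
  linarith

theorem Xi_coord (α : Fin 3 → F2) (m₀ : Fin 3) (η : F1) (i : Ix) (q : V6) :
    Xi eb α m₀ η i q = ∑ σ : Equiv.Perm (Fin 3 × Fin 2), ((Equiv.Perm.sign σ : ℤ) : ℝ) *
      ((eb.coord i (eb (σ (m₀, 0))) * η q (eb (σ (m₀, 1)))) *
        ∏ m ∈ Finset.univ.erase m₀, α m q (eb (σ (m, 0))) (eb (σ (m, 1)))) :=
  Xi_eq _ _ _ _ _ _

theorem Xi_congr {α : Fin 3 → F2} {m₀ : Fin 3} {η : F1} {i : Ix} {p q : V6}
    (hα : ∀ m, m ≠ m₀ → α m p = α m q) (hη : η p = η q) : Xi eb α m₀ η i p = Xi eb α m₀ η i q := by
  rw [Xi_coord, Xi_coord]
  refine Finset.sum_congr rfl fun σ _ => ?_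
  rw [hη]
  congr 2
  refine Finset.prod_congr rfl fun m hm => ?_
  rw [hα m (Finset.ne_of_mem_erase hm)]

/-- **Stokes' theorem.** -/
theorem stokes (α : Fin 3 → F2) (m₀ : Fin 3) (η : F1) (hα : ∀ m, m ≠ m₀ → ContDiff ℝ 1 (α m))
    (hcl : ∀ m, m ≠ m₀ → IsCl (α m)) (hs : ∀ m, m ≠ m₀ → Sym2 (α m))
    (hη : ContDiff ℝ 1 η) (hη' : Sym1 η) :
    JJ (fun p => pf eb (update (fun m => toB (α m p)) m₀ (dEta η p))) = 0 := by
  have hC : ∀ i, ContDiff ℝ 1 (Xi eb α m₀ η i) := fun i => contDiff_Xi eb α m₀ η i hα hη
  have h0 : (fun p => pf eb (update (fun m => toB (α m p)) m₀ (dEta η p)))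
      = fun p => 2 * ∑ i, fderiv ℝ (Xi eb α m₀ η i) p (ev i) := by
    funext p
    rw [divergence_identity eb α m₀ η hα hcl hη]
    simp only [eb_apply]
  rw [h0, JJ_const_mul, JJ_sum _ fun i _ => continuous_fd (hC i) (ev i)]
  rw [Finset.sum_eq_zero, mul_zero]
  intro i _
  have face : ∀ (x : V6) (i : Ix) (c : ℝ), update x i c = update x i 0 + c • ev i := by
    intro x i c
    have := upd_add x i 0 c
    rwa [zero_add] at this
  by_cases hS : i = iS
  · subst hS
    refine JJ_deriv_S (hC _) ⟨fun x => ?_, fun x => ?_⟩ fun x => ?_
    · exact Xi_congr (fun m hm => (hs m hm).perA x) (hη'.perA x)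
    · exact Xi_congr (fun m hm => (hs m hm).perB x) (hη'.perB x)
    · have h1 := pf_comp eb (Mo : V6 →ₗ[ℝ] V6)
        (update (fun m => toB (α m (Mo x + ev iS))) m₀
          (tens (eb.coord iS) (η (Mo x + ev iS) : V6 →ₗ[ℝ] ℝ)))
      rw [det_Mo, one_mul] at h1
      show pf eb (update (fun m => toB (α m (Mo x + ev iS))) m₀
          (tens (eb.coord iS) (η (Mo x + ev iS) : V6 →ₗ[ℝ] ℝ))) = _
      rw [← h1]
      show pf eb _ = pf eb _
      congr 1
      funext m
      refine LinearMap.ext fun u => LinearMap.ext fun w => ?_
      rw [LinearMap.compl₁₂_apply]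
      by_cases hm : m = m₀
      · subst hm
        rw [update_self, update_self, tens_apply, tens_apply]
        simp only [ContinuousLinearMap.coe_coe]
        rw [hη'.glu x w, eb_coord, eb_coord, Mo_ne u (by decide) (by decide)]
      · rw [update_of_ne hm, update_of_ne hm, toB_apply, toB_apply]
        simp only [ContinuousLinearMap.coe_coe]
        exact (hs m hm).glu x u w
  · refine JJ_deriv_zero (hC _) i fun x => ?_
    rw [face x i (rg i)]
    by_cases hH : i = iH
    · -- both faces vanish
      subst hH
      have hv : ∀ y : V6, (y iH = 0 ∨ y iH = Real.pi) → Xi eb α m₀ η iH y = 0 := by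
        intro y hy
        rw [Xi_coord]
        refine Finset.sum_eq_zero fun σ _ => ?_
        by_cases h1 : σ (m₀, 0) = iH
        · by_cases h2 : σ (m₀, 1) = iP
          · rw [h2, eb_apply iP, hη'.pole y hy]
            ring
          · -- the index iP sits in another pair
            obtain ⟨⟨m, j⟩, hmj⟩ := σ.surjective iP
            have hm : m ≠ m₀ := by
              rintro rfl
              have hj : j = 0 ∨ j = 1 := by
                clear hmj
                revert j; decide
              rcases hj with rfl | rfl
              · rw [h1] at hmj; exact absurd hmj (by decide)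
              · exact h2 hmj
            have hpz : ∏ m ∈ Finset.univ.erase m₀, α m y (eb (σ (m, 0))) (eb (σ (m, 1))) = 0 := by
              refine Finset.prod_eq_zero (Finset.mem_erase.2 ⟨hm, Finset.mem_univ m⟩) ?_
              have hne : ∀ k, σ (m, k) ≠ iH := by
                intro k hk
                have := σ.injective (hk.trans h1.symm)
                exact hm (congrArg Prod.fst this)
              have hj : j = 0 ∨ j = 1 := by
                clear hmj
                revert j; decide
              rcases hj with rfl | rfl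
              · rw [hmj, eb_apply, eb_apply]
                exact (hs m hm).pole y hy _ (hne 1)
              · rw [hmj, eb_apply, eb_apply, anti_of_alt (hs m hm).alt]
                rw [(hs m hm).pole y hy _ (hne 0), neg_zero]
            rw [hpz]
            ring
        · have : eb.coord iH (eb (σ (m₀, 0))) = 0 := by
            rw [eb_apply, eb_coord]
            simp [Pi.single_apply, Ne.symm h1]
          rw [this]
          ring
      rw [hv, hv]
      · left; simp
      · right
        simp [rg]
    · have key : ∀ y, Xi eb α m₀ η i (y + rg i • ev i) = Xi eb α m₀ η i y := by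
        intro y
        have hi : i = iT ∨ i = iA ∨ i = iB ∨ i = iP := by
          clear face h0 hC
          revert i; decide
        rcases hi with rfl | rfl | rfl | rfl
        · have : rg iT = 1 := by simp [rg]
          rw [this, one_smul]
          exact Xi_congr (fun m hm => (hs m hm).perT y) (hη'.perT y)
        · have : rg iA = 1 := by simp [rg]
          rw [this, one_smul]
          exact Xi_congr (fun m hm => (hs m hm).perA y) (hη'.perA y)
        · have : rg iB = 1 := by simp [rg]
          rw [this, one_smul]
          exact Xi_congr (fun m hm => (hs m hm).perB y) (hη'.perB y)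
        · have : rg iP = 2 * Real.pi := by simp [rg]
          rw [this]
          exact Xi_congr (fun m hm => (hs m hm).perP y) (hη'.perP y)
      exact key _

/-- closed invariant forms which differ by the derivative of an invariant form have the same
top power -/
theorem pf_invariant {α α' : F2} {β : F1} (hα : ContDiff ℝ 1 α) (hα' : ContDiff ℝ 1 α')
    (hcl : IsCl α) (hcl' : IsCl α') (hs : Sym2 α) (hs' : Sym2 α') (hβ : ContDiff ℝ 1 β)
    (hβ' : Sym1 β) (hd : ∀ x, toB (α x) = toB (α' x) + dEta β x) :
    JJ (fun p => pf eb (fun _ : Fin 3 => toB (α p)))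
      = JJ (fun p => pf eb (fun _ : Fin 3 => toB (α' p))) := by
  have hcont : ∀ γ : Fin 3 → F2, (∀ m, ContDiff ℝ 1 (γ m)) →
      Continuous (fun p => pf eb (fun m => toB (γ m p))) := by
    intro γ hγ
    unfold pf
    refine continuous_finsetSum _ fun σ _ => continuous_const.mul
      (continuous_finsetProd _ fun m _ => ?_)
    exact (contDiff_apply2 (hγ m) _ _).continuous
  have key : ∀ s : Finset (Fin 3), JJ (fun p => pf eb
      (fun m => toB ((if m ∈ s then α' else α) p)))
      = JJ (fun p => pf eb (fun _ : Fin 3 => toB (α p))) := by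
    intro s
    induction s using Finset.induction_on with
    | empty => simp
    | insert a s ha ih =>
      rw [← ih]
      set γ : Fin 3 → F2 := fun m => if m ∈ s then α' else α with hγ
      have g1 : ∀ m, ContDiff ℝ 1 (γ m) := by
        intro m
        by_cases h : m ∈ s
        · simpa [hγ, h] using hα'
        · simpa [hγ, h] using hα
      have g2 : ∀ m, IsCl (γ m) := by
        intro m
        by_cases h : m ∈ s
        · simpa [hγ, h] using hcl'
        · simpa [hγ, h] using hcl
      have g3 : ∀ m, Sym2 (γ m) := by
        intro m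
        by_cases h : m ∈ s
        · simpa [hγ, h] using hs'
        · simpa [hγ, h] using hs
      have e0 := stokes γ a β (fun m _ => g1 m) (fun m _ => g2 m) (fun m _ => g3 m) hβ hβ'
      have e3 : ∀ p, (fun m => toB (γ m p)) = update (fun m => toB (γ m p)) a (toB (α p)) := by
        intro p
        have : γ a = α := by simp [hγ, ha]
        rw [← this, update_eq_self]
      have e4 : ∀ p, (fun m => toB ((if m ∈ insert a s then α' else α) p))
          = update (fun m => toB (γ m p)) a (toB (α' p)) := by
        intro p
        funext m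
        by_cases hm : m = a
        · subst hm
          simp
        · rw [update_of_ne hm]
          simp [hγ, hm]
      have e5 : (fun p => pf eb (fun m => toB (γ m p)))
          = fun p => pf eb (fun m => toB ((if m ∈ insert a s then α' else α) p))
            + pf eb (update (fun m => toB (γ m p)) a (dEta β p)) := by
        funext p
        rw [e4 p]
        conv_lhs => rw [e3 p, hd p, Pool.Agent.Y519.AS.pf_update_add]
      have c1 : Continuous (fun p => pf eb (fun m => toB ((if m ∈ insert a s then α' else α) p))) := by
        refine hcont (fun m => if m ∈ insert a s then α' else α) fun m => ?_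
        by_cases h : m ∈ insert a s
        · simpa [h] using hα'
        · simpa [h] using hα
      have c2 : Continuous (fun p => pf eb (update (fun m => toB (γ m p)) a (dEta β p))) := by
        have h1 := hcont γ g1
        have h2 : (fun p => pf eb (update (fun m => toB (γ m p)) a (dEta β p)))
            = fun p => pf eb (fun m => toB (γ m p))
              - pf eb (fun m => toB ((if m ∈ insert a s then α' else α) p)) := by
          funext p
          have e7 : pf eb (fun m => toB (γ m p))
            = pf eb (fun m => toB ((if m ∈ insert a s then α' else α) p))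
            + pf eb (update (fun m => toB (γ m p)) a (dEta β p)) := congrFun e5 p
          linarith
        rw [h2]
        exact h1.sub c1
      have e6 := JJ_add c1 c2
      rw [e0, add_zero, ← e5] at e6
      exact e6.symm
  have h1 := key Finset.univ
  rw [← h1]
  simp

end Pool.Agent.L5helper94.FS
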