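import Mathlib
import Pool.Agent.L5helper94.FS.Stk

/-!
# Primitives of invariant forms
-/

open MeasureTheory Set Function Module
open scoped ContDiff
open Pool.Agent.Y519.AS (toB dEta IsCl contDiff_form fderiv_apply2 hasFDerivAt_apply2 dEta_apply)

set_option linter.unusedSectionVars false

namespace Pool.Agent.L5helper94.FS

/-! ### general lemmas on the operators -/

theorem J_map {f f' : V6 → ℝ} {i : Ix} (c : ℝ) {g : V6 → V6}
    (h1 : ∀ x r, update (g x) i r = g (update x i r)) (h2 : ∀ y, f (g y) = f' y) (x : V6) :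
    J i c f (g x) = J i c f' x := by
  unfold J
  simp only [h1, h2]

theorem K_map {f f' : V6 → ℝ} {i : Ix} {g : V6 → V6}
    (h1 : ∀ x r, update (g x) i r = g (update x i r)) (h3 : ∀ x, g x i = x i)
    (h2 : ∀ y, f (g y) = f' y) (x : V6) : K i f (g x) = K i f' x := by
  unfold K
  rw [J_map _ h1 h2, h3]

theorem upd_translate (i j : Ix) (h : j ≠ i) (a : ℝ) (x : V6) (r : ℝ) :
    update (x + a • ev j) i r = update x i r + a • ev j := by
  ext k
  by_cases hk : k = i
  · subst hk; simp [h.symm]
  · simp [hk]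

theorem upd_translate1 (i j : Ix) (h : j ≠ i) (x : V6) (r : ℝ) :
    update (x + ev j) i r = update x i r + ev j := by
  have := upd_translate i j h 1 x r
  simpa using this

theorem upd_glue (i : Ix) (hS : i ≠ iS) (hA : i ≠ iA) (hB : i ≠ iB) (x : V6) (r : ℝ) :
    update (Mo x + ev iS) i r = Mo (update x i r) + ev iS := by
  ext k
  by_cases hk : k = i
  · subst hk
    simp [Mo_ne (update x k r) hA hB, hS]
  · rw [update_of_ne hk]
    simp only [Pi.add_apply]
    congr 1
    by_cases h1 : k = iA
    · subst h1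
      rw [Mo_A, Mo_A, update_of_ne hk, update_of_ne hB.symm]
    · by_cases h2 : k = iB
      · subst h2
        rw [Mo_B, Mo_B, update_of_ne hk, update_of_ne hA.symm]
      · rw [Mo_ne _ h1 h2, Mo_ne _ h1 h2, update_of_ne hk]

theorem Pz_Mo (i : Ix) (hA : i ≠ iA) (hB : i ≠ iB) (u : V6) : Pz i (Mo u) = Mo (Pz i u) := by
  rw [Pz_apply, Pz_apply]
  ext k
  by_cases hk : k = i
  · subst hk
    simp [Mo_ne (update u k 0) hA hB]
  · rw [update_of_ne hk]
    by_cases h1 : k = iA
    · subst h1
      rw [Mo_A, Mo_A, update_of_ne hk, update_of_ne hB.symm]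
    · by_cases h2 : k = iB
      · subst h2
        rw [Mo_B, Mo_B, update_of_ne hk, update_of_ne hA.symm]
      · rw [Mo_ne _ h1 h2, Mo_ne _ h1 h2, update_of_ne hk]

theorem Mo_ev {j : Ix} (hA : j ≠ iA) (hB : j ≠ iB) : Mo (ev j) = ev j := by
  ext k
  by_cases h1 : k = iA
  · subst h1
    rw [Mo_A]; simp [hA.symm, hB.symm]
  · by_cases h2 : k = iB
    · subst h2
      rw [Mo_B]; simp [hA.symm, hB.symm]
    · rw [Mo_ne _ h1 h2]

theorem K_shift {f : V6 → ℝ} (hf : Continuous f) {i : Ix} {c : ℝ}
    (h : ∀ x, f (x + c • ev i) = f x) (x : V6) :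
    K i f (x + c • ev i) = K i f x + J i c f x := by
  unfold K J
  have h1 : ∀ r, update (x + c • ev i) i r = update x i r := by
    intro r
    ext k
    by_cases hk : k = i
    · subst hk; simp
    · simp [hk]
  simp only [h1]
  have hp : Function.Periodic (fun r => f (update x i r)) c := by
    intro r
    show f (update x i (r + c)) = f (update x i r)
    rw [upd_add, h]
  have h2 : (x + c • ev i) i = x i + c := by simp
  rw [h2, ← intervalIntegral.integral_add_adjacent_intervals (b := x i)
    (int_upd hf i x _ _) (int_upd hf i x _ _)]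
  congr 1
  have := hp.intervalIntegral_add_eq (x i) 0
  rwa [zero_add] at this

theorem J_shift_self {f : V6 → ℝ} {i : Ix} (c s : ℝ) (x : V6) :
    J i c f (x + s • ev i) = J i c f x := by
  have h1 : ∀ r, update (x + s • ev i) i r = update x i r := by
    intro r
    ext k
    by_cases hk : k = i
    · subst hk; simp
    · simp [hk]
  unfold J
  simp only [h1]

theorem K_zero {f : V6 → ℝ} {i : Ix} {x : V6} (h : x i = 0) : K i f x = 0 := by
  unfold K J
  rw [h]
  simp

theorem K_eq_J {f : V6 → ℝ} {i : Ix} {x : V6} {c : ℝ} (h : x i = c) : K i f x = J i c f x := by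
  unfold K
  rw [h]

theorem K_add {f g : V6 → ℝ} (hf : Continuous f) (hg : Continuous g) (i : Ix) (x : V6) :
    K i (fun x => f x + g x) x = K i f x + K i g x := by
  unfold K
  rw [J_add hf hg]

theorem K_sub {f g : V6 → ℝ} (hf : Continuous f) (hg : Continuous g) (i : Ix) (x : V6) :
    K i (fun x => f x - g x) x = K i f x - K i g x := by
  unfold K
  rw [J_sub hf hg]

theorem K_deriv {f : V6 → ℝ} (hf : ContDiff ℝ 1 f) (i : Ix) (x : V6) :
    K i (fun y => fderiv ℝ f y (ev i)) x = f x - f (update x i 0) := by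
  unfold K
  rw [J_deriv hf, update_eq_self]

theorem fd_coord_mul {f : V6 → ℝ} (hf : ContDiff ℝ 1 f) (k i : Ix) (c : ℝ) (x : V6) :
    fderiv ℝ (fun y => (y k * c) * f y) x (ev i)
      = (if i = k then c * f x else 0) + (x k * c) * fderiv ℝ f x (ev i) := by
  have h1 : HasFDerivAt (fun y : V6 => y k * c) (c • pr k) x := by
    have := (pr k).hasFDerivAt (x := x)
    have h2 := this.mul_const c
    refine h2.congr_fderiv ?_
    ext u
    simp
  have h3 : HasFDerivAt (fun y : V6 => (y k * c) * f y)
      ((x k * c) • fderiv ℝ f x + f x • c • pr k) x :=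
    h1.mul (hf.differentiable (by simp) x).hasFDerivAt
  rw [h3.fderiv]
  by_cases hik : i = k
  · subst hik; simp; ring
  · simp [hik, Pi.single_apply, Ne.symm hik]

/-! ### components -/

/-- the components of a two-form -/
noncomputable def cmp (α : F2) (i j : Ix) : V6 → ℝ := fun x => α x (ev i) (ev j)

section
variable {α : F2}

theorem contDiff_cmp (hα : ContDiff ℝ ∞ α) (i j : Ix) : ContDiff ℝ ∞ (cmp α i j) :=
  (hα.clm_apply contDiff_const).clm_apply contDiff_const

theorem cmp_anti (h : ∀ x u, α x u u = 0) (i j : Ix) : cmp α i j = fun x => - cmp α j i x := by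
  funext x
  exact anti_of_alt h x _ _

theorem cmp_self (h : ∀ x u, α x u u = 0) (i : Ix) : cmp α i i = fun _ => 0 := by
  funext x
  exact h x _

theorem fd_cmp_anti (h : ∀ x u, α x u u = 0) (i j : Ix) (x u : V6) :
    fderiv ℝ (cmp α i j) x u = - fderiv ℝ (cmp α j i) x u := by
  rw [cmp_anti h i j, fderiv_fun_neg]
  rfl

/-- the closedness relation -/
theorem cmp_closed (hα : ContDiff ℝ ∞ α) (hcl : IsCl α) (h : ∀ x u, α x u u = 0) (i j k : Ix)
    (x : V6) : fderiv ℝ (cmp α k j) x (ev i) - fderiv ℝ (cmp α k i) x (ev j)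
      = fderiv ℝ (cmp α i j) x (ev k) := by
  have hd := hα.differentiable (by simp) x
  have h1 := hcl x (ev i) (ev j) (ev k)
  rw [← fderiv_apply2 hd, ← fderiv_apply2 hd, ← fderiv_apply2 hd] at h1
  have e1 : fderiv ℝ (cmp α j k) x (ev i) + fderiv ℝ (cmp α k i) x (ev j)
    + fderiv ℝ (cmp α i j) x (ev k) = 0 := h1
  rw [fd_cmp_anti h j k] at e1
  linarith

end

/-! ### one-forms given by integrals -/

/-- integral of a one-form in a coordinate -/
noncomputable def JF (i : Ix) (c : ℝ) (l : F1) : F1 := fun x => ∫ r in (0 : ℝ)..c, l (update x i r)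

/-- primitive of a one-form in a coordinate -/
noncomputable def KF (i : Ix) (l : F1) : F1 := fun x => JF i (x i) l x

theorem JF_apply {l : F1} (hl : Continuous l) (i : Ix) (c : ℝ) (x u : V6) :
    JF i c l x u = J i c (fun y => l y u) x := by
  unfold JF J
  rw [ContinuousLinearMap.intervalIntegral_apply]
  exact (hl.comp (continuous_const.update i continuous_id)).intervalIntegrable _ _

theorem KF_apply {l : F1} (hl : Continuous l) (i : Ix) (x u : V6) :
    KF i l x u = K i (fun y => l y u) x := JF_apply hl i _ x u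

theorem contDiff_JF {l : F1} (hl : ContDiff ℝ ∞ l) (i : Ix) (c : ℝ) : ContDiff ℝ ∞ (JF i c l) := by
  rw [contDiff_clm_apply_iff]
  intro u
  simp only [JF_apply hl.continuous]
  exact contDiff_J (hl.clm_apply contDiff_const) i c

theorem contDiff_KF {l : F1} (hl : ContDiff ℝ ∞ l) (i : Ix) : ContDiff ℝ ∞ (KF i l) := by
  rw [contDiff_clm_apply_iff]
  intro u
  simp only [KF_apply hl.continuous]
  exact contDiff_K (hl.clm_apply contDiff_const) i

/-- the derivative of a one-form in components -/
theorem fderiv_F1 {l : F1} (hl : ContDiff ℝ 1 l) (x u w : V6) :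
    fderiv ℝ l x u w = fderiv ℝ (fun y => l y w) x u := by
  have h1 := ((hl.differentiable (by simp) x).hasFDerivAt.clm_apply (hasFDerivAt_const w x))
  rw [h1.fderiv]
  simp

/-- the exterior derivative of a one-form as a two-form -/
noncomputable def dF (l : F1) : F2 := fun x => fderiv ℝ l x - (fderiv ℝ l x).flip

theorem dF_apply (l : F1) (x u w : V6) : dF l x u w = fderiv ℝ l x u w - fderiv ℝ l x w u := rfl

theorem toB_dF (l : F1) (x : V6) : toB (dF l x) = dEta l x := by
  refine LinearMap.ext fun u => LinearMap.ext fun w => ?_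
  rfl

theorem cmp_dF {l : F1} (hl : ContDiff ℝ 1 l) (i j : Ix) (x : V6) :
    cmp (dF l) i j x = fderiv ℝ (fun y => l y (ev j)) x (ev i)
      - fderiv ℝ (fun y => l y (ev i)) x (ev j) := by
  rw [← fderiv_F1 hl, ← fderiv_F1 hl]
  rfl

theorem contDiff_dF {l : F1} (hl : ContDiff ℝ ∞ l) : ContDiff ℝ ∞ (dF l) := by
  refine contDiff_form fun u w => ?_
  simp only [dF_apply]
  have h1 : ContDiff ℝ ∞ (fderiv ℝ l) := hl.fderiv_right (m := ∞) (by simp)
  exact ((h1.clm_apply contDiff_const).clm_apply contDiff_const).sub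
    ((h1.clm_apply contDiff_const).clm_apply contDiff_const)

theorem isCl_dF {l : F1} (hl : ContDiff ℝ ∞ l) : IsCl (dF l) := by
  intro p a b c
  have h1 : ContDiff ℝ ∞ (fderiv ℝ l) := hl.fderiv_right (m := ∞) (by simp)
  have hd := (contDiff_dF hl).differentiable (by simp) p
  have hd1 := (h1.differentiable (by simp) p)
  have key : ∀ a b c, fderiv ℝ (dF l) p a b c
      = fderiv ℝ (fderiv ℝ l) p a b c - fderiv ℝ (fderiv ℝ l) p a c b := by
    intro a b c
    rw [← fderiv_apply2 hd]
    have e : (fun q => dF l q b c) = fun q => fderiv ℝ l q b c - fderiv ℝ l q c b := rfl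
    rw [e]
    obtain ⟨L, h2, h3⟩ := hasFDerivAt_apply2 hd1 b c
    obtain ⟨L', h2', h3'⟩ := hasFDerivAt_apply2 hd1 c b
    have h5 : HasFDerivAt (fun q => fderiv ℝ l q b c - fderiv ℝ l q c b) (L - L') p := h2.sub h2'
    rw [h5.fderiv, _root_.sub_apply, h3, h3']
  have hsymm : ∀ a b, fderiv ℝ (fderiv ℝ l) p a b = fderiv ℝ (fderiv ℝ l) p b a := by
    intro a b
    have h4 : IsSymmSndFDerivAt ℝ l p := by
      refine ((contDiff_infty.1 hl 2).contDiffAt (x := p)).isSymmSndFDerivAt ?_
      simp
    exact h4.eq a b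
  rw [key, key, key, hsymm a b, hsymm c a, hsymm b c]
  ring

end Pool.Agent.L5helper94.FS
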