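import Mathlib
import Pool.Agent.L5helper94.FS.Prim

/-!
# The invariant primitive
-/

open MeasureTheory Set Function Module
open scoped ContDiff
open Pool.Agent.Y519.AS (toB dEta IsCl contDiff_form fderiv_apply2 hasFDerivAt_apply2 dEta_apply)

set_option linter.unusedSectionVars false

namespace Pool.Agent.L5helper94.FS

/-- contraction with a coordinate vector -/
noncomputable def iot (i : Ix) (α : F2) : F1 := fun x => α x (ev i)

theorem iot_ev (i j : Ix) (α : F2) : (fun y => iot i α y (ev j)) = cmp α i j := rfl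

theorem contDiff_iot {α : F2} (hα : ContDiff ℝ ∞ α) (i : Ix) : ContDiff ℝ ∞ (iot i α) :=
  hα.clm_apply contDiff_const

/-- invariant one-forms, without the condition at the poles -/
structure Iv (l : F1) : Prop where
  perT : ∀ x, l (x + ev iT) = l x
  perA : ∀ x, l (x + ev iA) = l x
  perB : ∀ x, l (x + ev iB) = l x
  perP : ∀ x, l (x + (2 * Real.pi) • ev iP) = l x
  glu : ∀ x u, l (Mo x + ev iS) (Mo u) = l x u

theorem iv_iot {α : F2} (hs : Sym2 α) {i : Ix} (hA : i ≠ iA) (hB : i ≠ iB) : Iv (iot i α) := by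
  refine ⟨fun x => ?_, fun x => ?_, fun x => ?_, fun x => ?_, fun x u => ?_⟩
  · simp only [iot, hs.perT]
  · simp only [iot, hs.perA]
  · simp only [iot, hs.perB]
  · simp only [iot, hs.perP]
  · have := hs.glu x (ev i) u
    rw [Mo_ev hA hB] at this
    exact this

theorem JF_translate {l : F1} (hl : Continuous l) {i j : Ix} {a : ℝ} (c : ℝ) (hij : j ≠ i)
    (h : ∀ x, l (x + a • ev j) = l x) (x : V6) : JF i c l (x + a • ev j) = JF i c l x := by
  ext1 u
  rw [JF_apply hl, JF_apply hl]
  exact J_map (g := fun x => x + a • ev j) c (fun x r => upd_translate i j hij a x r)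
    (fun y => by rw [h]) x

theorem KF_translate {l : F1} (hl : Continuous l) {i j : Ix} {a : ℝ} (hij : j ≠ i)
    (h : ∀ x, l (x + a • ev j) = l x) (x : V6) : KF i l (x + a • ev j) = KF i l x := by
  unfold KF
  rw [JF_translate hl _ hij h]
  have : (x + a • ev j) i = x i := by simp [Pi.single_apply, hij.symm]
  rw [this]

theorem JF_self {l : F1} (hl : Continuous l) {i : Ix} (a c : ℝ) (x : V6) :
    JF i c l (x + a • ev i) = JF i c l x := by
  ext1 u
  rw [JF_apply hl, JF_apply hl]
  exact J_shift_self c a x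

theorem JF_glue {l : F1} (hl : Continuous l) {i : Ix} (hS : i ≠ iS) (hA : i ≠ iA) (hB : i ≠ iB)
    (c : ℝ) (h : ∀ x u, l (Mo x + ev iS) (Mo u) = l x u) (x u : V6) :
    JF i c l (Mo x + ev iS) (Mo u) = JF i c l x u := by
  rw [JF_apply hl, JF_apply hl]
  exact J_map (g := fun x => Mo x + ev iS) c (fun x r => upd_glue i hS hA hB x r)
    (fun y => h y u) x

theorem KF_glue {l : F1} (hl : Continuous l) {i : Ix} (hS : i ≠ iS) (hA : i ≠ iA) (hB : i ≠ iB)
    (h : ∀ x u, l (Mo x + ev iS) (Mo u) = l x u) (x u : V6) :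
    KF i l (Mo x + ev iS) (Mo u) = KF i l x u := by
  unfold KF
  rw [JF_glue hl hS hA hB _ h]
  have : (Mo x + ev iS) i = x i := by simp [Mo_ne x hA hB, hS]
  rw [this]

theorem one_tr {F : Type*} {l : V6 → F} {j : Ix} (h : ∀ x, l (x + ev j) = l x) (x : V6) :
    l (x + (1 : ℝ) • ev j) = l x := by
  rw [one_smul, h]

theorem iv_JFT {l : F1} (hl : Continuous l) (h : Iv l) (c : ℝ) : Iv (JF iT c l) := by
  refine ⟨fun x => ?_, fun x => ?_, fun x => ?_, fun x => ?_, fun x u => ?_⟩
  · simpa using JF_self hl (i := iT) 1 c x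
  · simpa using JF_translate hl c (i := iT) (j := iA) (by decide) (one_tr h.perA) x
  · simpa using JF_translate hl c (i := iT) (j := iB) (by decide) (one_tr h.perB) x
  · exact JF_translate hl c (i := iT) (j := iP) (by decide) h.perP x
  · exact JF_glue hl (by decide) (by decide) (by decide) c h.glu x u

theorem iv_JFH {l : F1} (hl : Continuous l) (h : Iv l) (c : ℝ) : Iv (JF iH c l) := by
  refine ⟨fun x => ?_, fun x => ?_, fun x => ?_, fun x => ?_, fun x u => ?_⟩
  · simpa using JF_translate hl c (i := iH) (j := iT) (by decide) (one_tr h.perT) x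
  · simpa using JF_translate hl c (i := iH) (j := iA) (by decide) (one_tr h.perA) x
  · simpa using JF_translate hl c (i := iH) (j := iB) (by decide) (one_tr h.perB) x
  · exact JF_translate hl c (i := iH) (j := iP) (by decide) h.perP x
  · exact JF_glue hl (by decide) (by decide) (by decide) c h.glu x u

theorem iv_KFH {l : F1} (hl : Continuous l) (h : Iv l) : Iv (KF iH l) := by
  refine ⟨fun x => ?_, fun x => ?_, fun x => ?_, fun x => ?_, fun x u => ?_⟩
  · simpa using KF_translate hl (i := iH) (j := iT) (by decide) (one_tr h.perT) x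
  · simpa using KF_translate hl (i := iH) (j := iA) (by decide) (one_tr h.perA) x
  · simpa using KF_translate hl (i := iH) (j := iB) (by decide) (one_tr h.perB) x
  · exact KF_translate hl (i := iH) (j := iP) (by decide) h.perP x
  · exact KF_glue hl (by decide) (by decide) (by decide) h.glu x u

theorem Iv.smul {l : F1} (h : Iv l) {f : V6 → ℝ} (hT : ∀ x, f (x + ev iT) = f x)
    (hA : ∀ x, f (x + ev iA) = f x) (hB : ∀ x, f (x + ev iB) = f x)
    (hP : ∀ x, f (x + (2 * Real.pi) • ev iP) = f x) (hg : ∀ x, f (Mo x + ev iS) = f x) :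
    Iv (fun x => f x • l x) := by
  refine ⟨fun x => ?_, fun x => ?_, fun x => ?_, fun x => ?_, fun x u => ?_⟩
  · simp only [hT, h.perT]
  · simp only [hA, h.perA]
  · simp only [hB, h.perB]
  · simp only [hP, h.perP]
  · simp only [_root_.smul_apply, hg, h.glu]

theorem Iv.sub {l l' : F1} (h : Iv l) (h' : Iv l') : Iv (fun x => l x - l' x) := by
  refine ⟨fun x => ?_, fun x => ?_, fun x => ?_, fun x => ?_, fun x u => ?_⟩
  · simp only [h.perT, h'.perT]
  · simp only [h.perA, h'.perA]
  · simp only [h.perB, h'.perB]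
  · simp only [h.perP, h'.perP]
  · simp only [_root_.sub_apply, h.glu, h'.glu]

theorem Iv.add {l l' : F1} (h : Iv l) (h' : Iv l') : Iv (fun x => l x + l' x) := by
  refine ⟨fun x => ?_, fun x => ?_, fun x => ?_, fun x => ?_, fun x u => ?_⟩
  · simp only [h.perT, h'.perT]
  · simp only [h.perA, h'.perA]
  · simp only [h.perB, h'.perB]
  · simp only [h.perP, h'.perP]
  · simp only [_root_.add_apply, h.glu, h'.glu]

/-! ### the restriction to `t = 0` -/

/-- the pull back by the projection to `t = 0` -/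
noncomputable def rs (α : F2) : F2 :=
  fun x => (α (update x iT 0)).bilinearComp (Pz iT) (Pz iT)

theorem rs_apply (α : F2) (x u w : V6) : rs α x u w = α (update x iT 0) (Pz iT u) (Pz iT w) := rfl

theorem Pz_ev {j : Ix} (h : j ≠ iT) : Pz iT (ev j) = ev j := by
  rw [Pz_apply, update_ev_ne h]

theorem Pz_evT : Pz iT (ev iT) = 0 := by
  rw [Pz_apply, update_ev_self]

theorem cmp_rs (α : F2) {i j : Ix} (hi : i ≠ iT) (hj : j ≠ iT) :
    cmp (rs α) i j = fun x => cmp α i j (update x iT 0) := by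
  funext x
  unfold cmp
  rw [rs_apply, Pz_ev hi, Pz_ev hj]

theorem cmp_rs_T (α : F2) (i : Ix) : cmp (rs α) i iT = fun _ => 0 := by
  funext x
  unfold cmp
  rw [rs_apply, Pz_evT, map_zero]

theorem contDiff_rs {α : F2} (hα : ContDiff ℝ ∞ α) : ContDiff ℝ ∞ (rs α) := by
  refine contDiff_form fun u w => ?_
  simp only [rs_apply]
  have h1 : ContDiff ℝ ∞ (fun x : V6 => update x iT (0 : ℝ)) :=
    (contDiff_upd iT).comp (contDiff_id.prodMk contDiff_const)
  exact ((hα.comp h1).clm_apply contDiff_const).clm_apply contDiff_const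

theorem sym2_rs {α : F2} (hs : Sym2 α) : Sym2 (rs α) := by
  have tr : ∀ (j : Ix) (a : ℝ), j ≠ iT → (∀ x, α (x + a • ev j) = α x) →
      ∀ x, rs α (x + a • ev j) = rs α x := by
    intro j a hj h x
    unfold rs
    rw [upd_translate iT j hj, h]
  refine ⟨fun x => ?_, fun x => ?_, fun x => ?_, fun x => ?_, fun x u w => ?_, fun x hx j hj => ?_,
    fun x u => ?_⟩
  · unfold rs
    have : update (x + ev iT) iT (0 : ℝ) = update x iT 0 := by
      ext k
      by_cases hk : k = iT
      · subst hk; simp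
      · simp [hk]
    rw [this]
  · simpa using tr iA 1 (by decide) (one_tr hs.perA) x
  · simpa using tr iB 1 (by decide) (one_tr hs.perB) x
  · exact tr iP _ (by decide) hs.perP x
  · rw [rs_apply, upd_glue iT (by decide) (by decide) (by decide), Pz_Mo iT (by decide) (by decide),
      Pz_Mo iT (by decide) (by decide), hs.glu]
    rfl
  · rw [rs_apply, Pz_ev (by decide)]
    by_cases hjT : j = iT
    · subst hjT; rw [Pz_evT, map_zero]
    · rw [Pz_ev hjT]
      refine hs.pole _ ?_ j hj
      rwa [update_of_ne (by decide)]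
  · exact hs.alt _ _

theorem fd_cmp_rs {α : F2} (hα : ContDiff ℝ ∞ α) {i j k : Ix} (hi : i ≠ iT) (hj : j ≠ iT)
    (hk : k ≠ iT) (x : V6) :
    fderiv ℝ (cmp (rs α) i j) x (ev k) = fderiv ℝ (cmp α i j) (update x iT 0) (ev k) := by
  rw [cmp_rs α hi hj]
  have h1 : HasFDerivAt (cmp α i j) (fderiv ℝ (cmp α i j) (update x iT 0)) (update x iT 0) :=
    ((contDiff_cmp hα i j).differentiable (by simp) _).hasFDerivAt
  have h2 := HasFDerivAt.comp (g := cmp α i j) x h1 (hasFDerivAt_upd iT 0 x)
  have h3 : fderiv ℝ (fun x => cmp α i j (update x iT 0)) x = _ := h2.fderiv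
  rw [h3, ContinuousLinearMap.comp_apply, Pz_ev hk]

theorem fd_cmp_rs_T {α : F2} (hα : ContDiff ℝ ∞ α) {i j : Ix} (hi : i ≠ iT) (hj : j ≠ iT) (x : V6) :
    fderiv ℝ (cmp (rs α) i j) x (ev iT) = 0 := by
  rw [cmp_rs α hi hj]
  have h1 : HasFDerivAt (cmp α i j) (fderiv ℝ (cmp α i j) (update x iT 0)) (update x iT 0) :=
    ((contDiff_cmp hα i j).differentiable (by simp) _).hasFDerivAt
  have h2 := HasFDerivAt.comp (g := cmp α i j) x h1 (hasFDerivAt_upd iT 0 x)
  have h3 : fderiv ℝ (fun x => cmp α i j (update x iT 0)) x = _ := h2.fderiv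
  rw [h3, ContinuousLinearMap.comp_apply, Pz_evT, map_zero]

theorem rs_closed {α : F2} (hα : ContDiff ℝ ∞ α) (hcl : IsCl α) (hs : Sym2 α) {i j k : Ix}
    (hi : i ≠ iT) (hj : j ≠ iT) (hk : k ≠ iT) (x : V6) :
    fderiv ℝ (cmp (rs α) k j) x (ev i) - fderiv ℝ (cmp (rs α) k i) x (ev j)
      = fderiv ℝ (cmp (rs α) i j) x (ev k) := by
  rw [fd_cmp_rs hα hk hj hi, fd_cmp_rs hα hk hi hj, fd_cmp_rs hα hi hj hk]
  exact cmp_closed hα hcl hs.alt i j k _

/-! ### the primitive of the fibre integral -/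

/-- the integral over the `t`-circle -/
noncomputable def mm (α : F2) : F1 := JF iT 1 (iot iT α)

section
variable {α : F2}

theorem mm_apply (hα : ContDiff ℝ ∞ α) (x u : V6) :
    mm α x u = J iT 1 (fun y => α y (ev iT) u) x := JF_apply (contDiff_iot hα iT).continuous _ _ _ _

theorem mm_ev (hα : ContDiff ℝ ∞ α) (x : V6) (j : Ix) :
    mm α x (ev j) = J iT 1 (cmp α iT j) x := mm_apply hα x _

theorem contDiff_mm (hα : ContDiff ℝ ∞ α) : ContDiff ℝ ∞ (mm α) :=
  contDiff_JF (contDiff_iot hα iT) _ _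

theorem mm_T (hα : ContDiff ℝ ∞ α) (hs : Sym2 α) (x : V6) : mm α x (ev iT) = 0 := by
  rw [mm_ev hα, cmp_self hs.alt, J_zero]

theorem iv_mm (hα : ContDiff ℝ ∞ α) (hs : Sym2 α) : Iv (mm α) :=
  iv_JFT (contDiff_iot hα iT).continuous (iv_iot hs (by decide) (by decide)) 1

theorem J_sub' {f g : V6 → ℝ} (hf : Continuous f) (hg : Continuous g) (i : Ix) (c : ℝ) (x : V6) :
    J i c f x - J i c g x = J i c (fun x => f x - g x) x := by
  rw [J_sub hf hg]

theorem upd_one_zero {f : V6 → ℝ} (h : ∀ x, f (x + ev iT) = f x) (x : V6) :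
    f (update x iT 1) = f (update x iT 0) := by
  have := upd_add x iT 0 1
  rw [zero_add, one_smul] at this
  rw [this, h]

theorem mm_symm (hα : ContDiff ℝ ∞ α) (hcl : IsCl α) (hs : Sym2 α) (x u w : V6) :
    fderiv ℝ (mm α) x u w = fderiv ℝ (mm α) x w u := by
  have hm := contDiff_mm hα
  have hm1 : ContDiff ℝ 1 (mm α) := hm.of_le (by norm_num)
  have hb : ∀ i j : Ix, fderiv ℝ (mm α) x (ev i) (ev j) = fderiv ℝ (mm α) x (ev j) (ev i) := by
    have hT : ∀ j : Ix, fderiv ℝ (mm α) x (ev iT) (ev j) = 0 := by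
      intro j
      rw [fderiv_F1 hm1]
      simp only [mm_ev hα]
      exact fderiv_J_self (contDiff_cmp hα iT j) iT 1 x
    have hT' : ∀ j : Ix, fderiv ℝ (mm α) x (ev j) (ev iT) = 0 := by
      intro j
      rw [fderiv_F1 hm1]
      simp only [mm_T hα hs]
      simp
    intro i j
    by_cases hi : i = iT
    · subst hi; rw [hT, hT']
    · by_cases hj : j = iT
      · subst hj; rw [hT, hT']
      · rw [fderiv_F1 hm1, fderiv_F1 hm1]
        simp only [mm_ev hα]
        rw [fderiv_J_ne (contDiff_cmp hα iT j) hi, fderiv_J_ne (contDiff_cmp hα iT i) hj]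
        rw [← sub_eq_zero, J_sub' (contDiff_fd (contDiff_cmp hα iT j) _).continuous
          (contDiff_fd (contDiff_cmp hα iT i) _).continuous]
        simp only [cmp_closed hα hcl hs.alt i j iT]
        rw [J_deriv ((contDiff_cmp hα i j).of_le (by norm_num)),
          upd_one_zero (f := cmp α i j) (by intro y; unfold cmp; rw [hs.perT]), sub_self]
  have h2 : (fderiv ℝ (mm α) x).toLinearMap₁₂ = (fderiv ℝ (mm α) x).toLinearMap₁₂.flip := by
    refine eb.ext fun i => eb.ext fun j => ?_
    rw [eb_apply, eb_apply]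
    exact hb i j
  exact congrArg (fun L : V6 →ₗ[ℝ] V6 →ₗ[ℝ] ℝ => L u w) h2

theorem exists_G (hα : ContDiff ℝ ∞ α) (hcl : IsCl α) (hs : Sym2 α) :
    ∃ G : V6 → ℝ, ContDiff ℝ ∞ G ∧ ∀ x, fderiv ℝ G x = mm α x := by
  have hm := contDiff_mm hα
  have hdo : DifferentiableOn ℝ (mm α) univ := (hm.differentiable (by simp)).differentiableOn
  obtain ⟨G, hG⟩ := Convex.exists_forall_hasFDerivAt_of_fderiv_symmetric (convex_univ (𝕜 := ℝ))
    isOpen_univ hdo (fun a _ x y => mm_symm hα hcl hs a x y)
  have hG' : ∀ x, HasFDerivAt G (mm α x) x := fun x => hG x (mem_univ x)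
  have hf : fderiv ℝ G = mm α := funext fun x => (hG' x).fderiv
  refine ⟨G, ?_, fun x => congrFun hf x⟩
  rw [contDiff_infty_iff_fderiv]
  refine ⟨fun x => (hG' x).differentiableAt, ?_⟩
  rw [hf]
  exact hm

/-- properties of the primitive -/
theorem exists_G' (hα : ContDiff ℝ ∞ α) (hcl : IsCl α) (hs : Sym2 α) :
    ∃ (G : V6 → ℝ) (q : ℝ), ContDiff ℝ ∞ G ∧ (∀ x, fderiv ℝ G x = mm α x) ∧
      (∀ x, G (x + ev iT) = G x) ∧ (∀ x, G (x + ev iA) = G x) ∧ (∀ x, G (x + ev iB) = G x) ∧
      (∀ x, G (x + (2 * Real.pi) • ev iP) = G x) ∧ ∀ x, G (Mo x + ev iS) = G x + q := by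
  obtain ⟨G, hG, hd⟩ := exists_G hα hcl hs
  have hG1 : ContDiff ℝ 1 G := hG.of_le (by norm_num)
  have hiv := iv_mm hα hs
  have hdiff : ∀ x, HasFDerivAt G (mm α x) x := fun x => by
    rw [← hd x]; exact (hG.differentiable (by simp) x).hasFDerivAt
  -- translations
  have htr : ∀ v : V6, (∀ x, mm α (x + v) = mm α x) → ∀ x, G (x + v) = G x + (G v - G 0) := by
    intro v hv x
    have h1 : ∀ y, HasFDerivAt (fun y => G (y + v) - G y) (0 : V6 →L[ℝ] ℝ) y := by
      intro y
      have e1 : HasFDerivAt (fun y => G (y + v)) (mm α (y + v)) y := by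
        have e0 : HasFDerivAt (fun y : V6 => y + v) (ContinuousLinearMap.id ℝ V6) y :=
          (hasFDerivAt_id y).add_const v
        exact HasFDerivAt.comp (g := G) y (hdiff (y + v)) e0
      have e2 := e1.sub (hdiff y)
      rw [hv, sub_self] at e2
      exact e2
    have h2 := is_const_of_fderiv_eq_zero (𝕜 := ℝ) (f := fun y => G (y + v) - G y)
      (fun y => (h1 y).differentiableAt) (fun y => (h1 y).fderiv) x 0
    simp only [zero_add] at h2
    linarith
  -- the gluing
  have hglue : ∀ x, G (Mo x + ev iS) = G x + (G (ev iS) - G 0) := by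
    intro x
    have h1 : ∀ y, HasFDerivAt (fun y => G (Mo y + ev iS) - G y) (0 : V6 →L[ℝ] ℝ) y := by
      intro y
      have e0 : HasFDerivAt (fun y => Mo y + ev iS) Mo y := Mo.hasFDerivAt.add_const _
      have e1 := HasFDerivAt.comp (g := G) y (hdiff (Mo y + ev iS)) e0
      have e2 := e1.sub (hdiff y)
      have e3 : (mm α (Mo y + ev iS)).comp Mo - mm α y = 0 := by
        ext1 u
        rw [_root_.sub_apply, ContinuousLinearMap.comp_apply, hiv.glu]
        simp
      rw [e3] at e2
      exact e2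
    have h2 := is_const_of_fderiv_eq_zero (𝕜 := ℝ) (f := fun y => G (Mo y + ev iS) - G y)
      (fun y => (h1 y).differentiableAt) (fun y => (h1 y).fderiv) x 0
    simp only [map_zero, zero_add] at h2
    linarith
  have hline : ∀ (i : Ix) (c : ℝ), G (c • ev i) - G 0 = ∫ r in (0 : ℝ)..c, mm α (r • ev i) (ev i) := by
    intro i c
    have h1 := ftc_upd hG1 i 0 0 c
    have h2 : ∀ r : ℝ, update (0 : V6) i r = r • ev i := by
      intro r
      ext k
      by_cases hk : k = i
      · subst hk; simp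
      · simp [hk]
    simp only [h2, hd] at h1
    rw [h1]
    simp
  have pT : G (ev iT) - G 0 = 0 := by
    have := hline iT 1
    simp only [mm_T hα hs] at this
    simpa using this
  have pP : G ((2 * Real.pi) • ev iP) - G 0 = 0 := by
    have h1 := hline iP (2 * Real.pi)
    have h2 : ∀ r : ℝ, mm α (r • ev iP) (ev iP) = 0 := by
      intro r
      rw [mm_ev hα]
      unfold J
      have h3 : ∀ ρ : ℝ, cmp α iT iP (update (r • ev iP) iT ρ) = 0 := by
        intro ρ
        rw [cmp_anti hs.alt]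
        simp only
        unfold cmp
        rw [hs.pole _ (Or.inl (by simp)) iT (by decide), neg_zero]
      simp only [h3]
      simp
    simp only [h2] at h1
    simpa using h1
  set pA := G (ev iA) - G 0 with hpA
  set pB := G (ev iB) - G 0 with hpB
  set q := G (ev iS) - G 0 with hq
  have tA := htr (ev iA) hiv.perA
  have tB := htr (ev iB) hiv.perB
  rw [← hpA] at tA
  rw [← hpB] at tB
  have nA : ∀ (n : ℕ) (x : V6), G (x + (n : ℝ) • ev iA) = G x + n * pA := by
    intro n
    induction n with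
    | zero => intro x; simp
    | succ n ih =>
      intro x
      have : x + ((n + 1 : ℕ) : ℝ) • ev iA = (x + (n : ℝ) • ev iA) + ev iA := by
        push_cast
        rw [add_smul, one_smul, add_assoc]
      rw [this, tA, ih]
      push_cast
      ring
  have nB : ∀ (n : ℕ) (x : V6), G (x + (n : ℝ) • ev iB) = G x + n * pB := by
    intro n
    induction n with
    | zero => intro x; simp
    | succ n ih =>
      intro x
      have : x + ((n + 1 : ℕ) : ℝ) • ev iB = (x + (n : ℝ) • ev iB) + ev iB := by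
        push_cast
        rw [add_smul, one_smul, add_assoc]
      rw [this, tB, ih]
      push_cast
      ring
  have eA : G (Mo (ev iA) + ev iS) = G 0 + q + 7 * pA + 5 * pB := by
    have h1 : Mo (ev iA) + ev iS = (ev iS + ((7 : ℕ) : ℝ) • ev iA) + ((5 : ℕ) : ℝ) • ev iB := by
      ext k
      by_cases h1 : k = iA
      · subst h1; simp [Mo_A]
      · by_cases h2 : k = iB
        · subst h2; simp [Mo_B]
        · simp [Mo_ne _ h1 h2, h1, h2]
    rw [h1, nB, nA]
    push_cast
    linarith
  have eB : G (Mo (ev iB) + ev iS) = G 0 + q + 11 * pA + 8 * pB := by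
    have h1 : Mo (ev iB) + ev iS = (ev iS + ((11 : ℕ) : ℝ) • ev iA) + ((8 : ℕ) : ℝ) • ev iB := by
      ext k
      by_cases h1 : k = iA
      · subst h1; simp [Mo_A]
      · by_cases h2 : k = iB
        · subst h2; simp [Mo_B]
        · simp [Mo_ne _ h1 h2, h1, h2]
    rw [h1, nB, nA]
    push_cast
    linarith
  have fA := hglue (ev iA)
  have fB := hglue (ev iB)
  rw [eA] at fA
  rw [eB] at fB
  have zA : pA = 0 := by linarith
  have zB : pB = 0 := by linarith
  refine ⟨G, q, hG, hd, fun x => ?_, fun x => ?_, fun x => ?_, fun x => ?_, hglue⟩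
  · rw [htr (ev iT) hiv.perT, pT, add_zero]
  · rw [tA, zA, add_zero]
  · rw [tB, zB, add_zero]
  · rw [htr _ hiv.perP, pP, add_zero]

end

end Pool.Agent.L5helper94.FS
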