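import Mathlib
import Pool.Agent.L5helper94.FS.Stk

/-!
# The Pfaffian of a form with few components
-/

open Function Module
open Pool.Agent.Y519.AS (pf pf_comp)

set_option linter.unusedSectionVars false

namespace Pool.Agent.L5helper94.FS

/-- a forbidden pair -/
def Bad (i j : Ix) : Bool :=
  (i == iP && j != iH) || (j == iP && i != iH) || (i == iT && j != iS) || (j == iT && i != iS)

/-- a pair of the matching -/
def Good (i j : Ix) : Bool := i.1 == j.1 && i.2 != j.2

theorem bad_or_good : ∀ σ : Equiv.Perm Ix,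
    (∃ m : Fin 3, Bad (σ (m, 0)) (σ (m, 1)) = true) ∨
      (∀ m : Fin 3, Good (σ (m, 0)) (σ (m, 1)) = true) := by
  decide +kernel

/-- the matched form with coefficients `c` -/
noncomputable def Bst (c : Fin 3 → ℝ) : V6 →ₗ[ℝ] V6 →ₗ[ℝ] ℝ :=
  ∑ m : Fin 3, c m • (Pool.Agent.Y519.AS.tens (LinearMap.proj (m, 0)) (LinearMap.proj (m, 1))
    - Pool.Agent.Y519.AS.tens (LinearMap.proj (m, 1)) (LinearMap.proj (m, 0)))

theorem Bst_apply (c : Fin 3 → ℝ) (u w : V6) :
    Bst c u w = ∑ m : Fin 3, c m * (u (m, 0) * w (m, 1) - u (m, 1) * w (m, 0)) := by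
  simp [Bst, LinearMap.sum_apply]

/-- the scaling map -/
noncomputable def Dsc (c : Fin 3 → ℝ) : V6 →ₗ[ℝ] V6 :=
  Matrix.toLin' (Matrix.diagonal fun i : Ix => if i.2 = 0 then c i.1 else 1)

theorem Dsc_apply (c : Fin 3 → ℝ) (u : V6) (i : Ix) :
    Dsc c u i = (if i.2 = 0 then c i.1 else 1) * u i := by
  rw [Dsc, Matrix.toLin'_apply, Matrix.mulVec_diagonal]

theorem det_Dsc (c : Fin 3 → ℝ) : LinearMap.det (Dsc c) = c 0 * c 1 * c 2 := by
  rw [Dsc, LinearMap.det_toLin', Matrix.det_diagonal, Fintype.prod_prod_type]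
  simp [Fin.prod_univ_succ]
  ring

/-- the universal constant -/
noncomputable def kap : ℝ := pf eb (fun _ : Fin 3 => Bst (fun _ => 1))

theorem pf_Bst (c : Fin 3 → ℝ) :
    pf eb (fun _ : Fin 3 => Bst c) = c 0 * c 1 * c 2 * kap := by
  have h1 : (fun _ : Fin 3 => Bst c) = fun _ : Fin 3 =>
      (Bst (fun _ => 1)).compl₁₂ (Dsc c) (Dsc c) := by
    funext _
    refine LinearMap.ext fun u => LinearMap.ext fun w => ?_
    rw [LinearMap.compl₁₂_apply, Bst_apply, Bst_apply]
    refine Finset.sum_congr rfl fun m _ => ?_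
    simp only [Dsc_apply]
    simp
    ring
  rw [h1, pf_comp, det_Dsc]
  rfl

theorem pf_special (B : V6 →ₗ[ℝ] V6 →ₗ[ℝ] ℝ) (halt : ∀ u, B u u = 0)
    (hP : ∀ j, j ≠ iH → B (ev iP) (ev j) = 0) (hT : ∀ j, j ≠ iS → B (ev iT) (ev j) = 0) :
    pf eb (fun _ : Fin 3 => B)
      = B (ev iS) (ev iT) * B (ev iA) (ev iB) * B (ev iH) (ev iP) * kap := by
  have hanti : ∀ u w, B u w = - B w u := by
    intro u w
    have h7 := halt (u + w)
    simp only [map_add, LinearMap.add_apply, halt, zero_add, add_zero] at h7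
    linarith
  set c : Fin 3 → ℝ := fun m => B (ev (m, 0)) (ev (m, 1)) with hc
  have hBad : ∀ i j, Bad i j = true → B (ev i) (ev j) = 0 := by
    intro i j h
    simp only [Bad, Bool.or_eq_true, Bool.and_eq_true, beq_iff_eq, bne_iff_ne] at h
    rcases h with ((⟨rfl, h⟩ | ⟨rfl, h⟩) | ⟨rfl, h⟩) | ⟨rfl, h⟩
    · exact hP _ h
    · rw [hanti, hP _ h, neg_zero]
    · exact hT _ h
    · rw [hanti, hT _ h, neg_zero]
  have hval : ∀ i j : Ix, Bst c (ev i) (ev j) = if Good i j then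
      (if i.2 = 0 then c i.1 else - c i.1) else 0 := by
    rintro ⟨a, x⟩ ⟨b, y⟩
    rw [Bst_apply, Fin.sum_univ_three]
    fin_cases a <;> fin_cases x <;> fin_cases b <;> fin_cases y <;> simp [Good, Pi.single_apply]
  have hng : ∀ i j : Ix, Bad i j = true → ¬ (Good i j = true) := by decide
  have hBad' : ∀ i j, Bad i j = true → Bst c (ev i) (ev j) = 0 := by
    intro i j h
    rw [hval, if_neg (hng i j h)]
  have hGood : ∀ i j, Good i j = true → B (ev i) (ev j) = Bst c (ev i) (ev j) := by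
    intro i j h
    rw [hval, if_pos h]
    obtain ⟨a, x⟩ := i
    obtain ⟨b, y⟩ := j
    simp only [Good, Bool.and_eq_true, beq_iff_eq, bne_iff_ne] at h
    obtain ⟨rfl, h⟩ := h
    have hx : (x = 0 ∧ y = 1) ∨ (x = 1 ∧ y = 0) := by
      revert x y; decide
    rcases hx with ⟨rfl, rfl⟩ | ⟨rfl, rfl⟩
    · simp [hc]
    · simp only [hc]
      rw [hanti]
      simp
  have h1 : pf eb (fun _ : Fin 3 => B) = pf eb (fun _ : Fin 3 => Bst c) := by
    unfold pf
    refine Finset.sum_congr rfl fun σ _ => ?_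
    congr 1
    rcases bad_or_good σ with ⟨m, hm⟩ | h
    · rw [Finset.prod_eq_zero (Finset.mem_univ m), Finset.prod_eq_zero (Finset.mem_univ m)]
      · rw [eb_apply, eb_apply]; exact hBad' _ _ hm
      · rw [eb_apply, eb_apply]; exact hBad _ _ hm
    · refine Finset.prod_congr rfl fun m _ => ?_
      rw [eb_apply, eb_apply]
      exact hGood _ _ (h m)
  rw [h1, pf_Bst]

end Pool.Agent.L5helper94.FS
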