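import Mathlib
import Pool.Agent.L5helper94.FS.Main1
import Pool.Agent.L5helper94.FS.PfEval

/-!
# The normal form of a closed invariant two-form
-/

open MeasureTheory Set Function Module
open scoped ContDiff
open Pool.Agent.Y519.AS (toB dEta IsCl contDiff_form fderiv_apply2 hasFDerivAt_apply2 dEta_apply)

set_option linter.unusedSectionVars false

namespace Pool.Agent.L5helper94.FS

/-- the basic primitive in the `i`-th coordinate -/
noncomputable def bt (i : Ix) (c : ℝ) (l : F1) : F1 :=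
  fun x => KF i l x - (x i * c⁻¹) • JF i c l x

theorem contDiff_bt {l : F1} (hl : ContDiff ℝ ∞ l) (i : Ix) (c : ℝ) : ContDiff ℝ ∞ (bt i c l) := by
  have h1 : ContDiff ℝ ∞ (fun x : V6 => x i * c⁻¹) := (contDiff_apply ℝ ℝ i).mul contDiff_const
  have h2 : ContDiff ℝ ∞ (fun x : V6 => (x i * c⁻¹) • JF i c l x) := h1.smul (contDiff_JF hl i c)
  exact (contDiff_KF hl i).sub h2

theorem bt_ev {n : F2} (hn : ContDiff ℝ ∞ n) (i j : Ix) (c : ℝ) (x : V6) :
    bt i c (iot i n) x (ev j) = K i (cmp n i j) x - (x i * c⁻¹) * J i c (cmp n i j) x := by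
  have hl := (contDiff_iot hn i).continuous
  unfold bt
  rw [_root_.sub_apply, _root_.smul_apply, KF_apply hl, JF_apply hl]
  rfl

theorem fd_bt {n : F2} (hn : ContDiff ℝ ∞ n) (i j k : Ix) (c : ℝ) (x : V6) :
    fderiv ℝ (fun y => bt i c (iot i n) y (ev j)) x (ev k)
      = fderiv ℝ (K i (cmp n i j)) x (ev k) - ((if k = i then c⁻¹ * J i c (cmp n i j) x else 0)
        + (x i * c⁻¹) * fderiv ℝ (J i c (cmp n i j)) x (ev k)) := by
  have h1 : (fun y => bt i c (iot i n) y (ev j))
      = fun y => K i (cmp n i j) y - (y i * c⁻¹) * J i c (cmp n i j) y := by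
    funext y
    exact bt_ev hn i j c y
  have hK : ContDiff ℝ 1 (K i (cmp n i j)) := (contDiff_K (contDiff_cmp hn i j) i).of_le (by norm_num)
  have hJ : ContDiff ℝ 1 (J i c (cmp n i j)) :=
    (contDiff_J (contDiff_cmp hn i j) i c).of_le (by norm_num)
  have hm : ContDiff ℝ 1 (fun y : V6 => (y i * c⁻¹) * J i c (cmp n i j) y) :=
    ((contDiff_apply ℝ ℝ i).mul contDiff_const).mul hJ
  rw [h1, fderiv_fun_sub (hK.differentiable (by simp) x) (hm.differentiable (by simp) x),
    _root_.sub_apply, fd_coord_mul hJ]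

theorem cmp_bt_self {n : F2} (hn : ContDiff ℝ ∞ n) (halt : ∀ x u, n x u u = 0) {i j : Ix}
    (hj : j ≠ i) (c : ℝ) (x : V6) :
    cmp (dF (bt i c (iot i n))) i j x = cmp n i j x - c⁻¹ * J i c (cmp n i j) x := by
  have hb : ContDiff ℝ 1 (bt i c (iot i n)) :=
    (contDiff_bt (contDiff_iot hn i) i c).of_le (by norm_num)
  rw [cmp_dF hb, fd_bt hn, fd_bt hn, if_pos rfl, if_neg hj,
    fderiv_K_self (contDiff_cmp hn i j), fderiv_J_self (contDiff_cmp hn i j),
    fderiv_K_ne (contDiff_cmp hn i i) hj, fderiv_J_ne (contDiff_cmp hn i i) hj]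
  have h0 : (fun y => fderiv ℝ (cmp n i i) y (ev j)) = fun _ => 0 := by
    funext y
    rw [cmp_self halt]
    simp
  rw [h0]
  have : K i (fun _ => 0) x = 0 := by
    unfold K
    rw [J_zero]
  rw [this, J_zero]
  ring

theorem cmp_bt_ne {n : F2} (hn : ContDiff ℝ ∞ n) {i j k : Ix}
    (hj : j ≠ i) (hk : k ≠ i) (c : ℝ)
    (hc : ∀ x, fderiv ℝ (cmp n i k) x (ev j) - fderiv ℝ (cmp n i j) x (ev k)
      = fderiv ℝ (cmp n j k) x (ev i)) (x : V6) :
    cmp (dF (bt i c (iot i n))) j k x = cmp n j k x - cmp n j k (update x i 0)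
      - (x i * c⁻¹) * (cmp n j k (update x i c) - cmp n j k (update x i 0)) := by
  have hb : ContDiff ℝ 1 (bt i c (iot i n)) :=
    (contDiff_bt (contDiff_iot hn i) i c).of_le (by norm_num)
  rw [cmp_dF hb, fd_bt hn, fd_bt hn, if_neg hj, if_neg hk,
    fderiv_K_ne (contDiff_cmp hn i k) hj, fderiv_J_ne (contDiff_cmp hn i k) hj,
    fderiv_K_ne (contDiff_cmp hn i j) hk, fderiv_J_ne (contDiff_cmp hn i j) hk]
  have c1 := (contDiff_fd (contDiff_cmp hn i k) (ev j)).continuous
  have c2 := (contDiff_fd (contDiff_cmp hn i j) (ev k)).continuous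
  have hjk : ContDiff ℝ 1 (cmp n j k) := (contDiff_cmp hn j k).of_le (by norm_num)
  have e1 := K_sub c1 c2 i x
  have e2 := J_sub' c1 c2 i c x
  simp only [hc] at e1 e2
  rw [K_deriv hjk] at e1
  rw [J_deriv hjk] at e2
  linear_combination -e1 - (x i * c⁻¹) * e2

/-! ### invariance -/

theorem iv_bt_T {l : F1} (hl : ContDiff ℝ ∞ l) (h : Iv l) : Iv (bt iT 1 l) := by
  have hc := hl.continuous
  have hJ := iv_JFT hc h 1
  unfold bt
  refine ⟨fun x => ?_, fun x => ?_, fun x => ?_, fun x => ?_, fun x u => ?_⟩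
  · have h1 : KF iT l (x + ev iT) = KF iT l x + JF iT 1 l x := by
      ext1 u
      rw [_root_.add_apply, KF_apply hc, KF_apply hc, JF_apply hc]
      have := K_shift (f := fun y => l y u) (i := iT) (c := 1) (hc.clm_apply continuous_const)
        (fun y => by rw [one_smul, h.perT]) x
      rwa [one_smul] at this
    rw [h1, hJ.perT]
    have h2 : (x + ev iT) iT = x iT + 1 := by simp
    rw [h2, inv_one, mul_one, mul_one, add_smul, one_smul]
    abel
  · have h1 := KF_translate hc (i := iT) (j := iA) (by decide) (one_tr h.perA) x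
    rw [one_smul] at h1
    rw [h1, hJ.perA]
    have h2 : (x + ev iA) iT = x iT := by simp
    rw [h2]
  · have h1 := KF_translate hc (i := iT) (j := iB) (by decide) (one_tr h.perB) x
    rw [one_smul] at h1
    rw [h1, hJ.perB]
    have h2 : (x + ev iB) iT = x iT := by simp
    rw [h2]
  · have h1 := KF_translate hc (i := iT) (j := iP) (by decide) h.perP x
    rw [h1, hJ.perP]
    have h2 : (x + (2 * Real.pi) • ev iP) iT = x iT := by simp
    rw [h2]
  · have h1 := KF_glue hc (i := iT) (by decide) (by decide) (by decide) h.glu x u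
    have h2 : (Mo x + ev iS) iT = x iT := by simp [Mo_ne]
    simp only [_root_.sub_apply, _root_.smul_apply, h1, h2, hJ.glu]

theorem iv_bt_H {l : F1} (hl : ContDiff ℝ ∞ l) (h : Iv l) (c : ℝ) : Iv (bt iH c l) := by
  have hc := hl.continuous
  have hJ := iv_JFH hc h c
  have hK := iv_KFH hc h
  refine Iv.sub hK (Iv.smul hJ (f := fun x => x iH * c⁻¹) ?_ ?_ ?_ ?_ ?_)
  · intro x; simp
  · intro x; simp
  · intro x; simp
  · intro x; simp
  · intro x; simp [Mo_ne]

/-- the middle term of the primitive -/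
noncomputable def be2 (G : V6 → ℝ) (q : ℝ) : F1 := fun x => (-(G x - q * x iS)) • pr iT

theorem contDiff_be2 {G : V6 → ℝ} (hG : ContDiff ℝ ∞ G) (q : ℝ) : ContDiff ℝ ∞ (be2 G q) := by
  unfold be2
  exact ((hG.sub (contDiff_const.mul (contDiff_apply ℝ ℝ iS))).neg).smul contDiff_const

theorem iv_be2 {G : V6 → ℝ} {q : ℝ} (h1 : ∀ x, G (x + ev iT) = G x) (h2 : ∀ x, G (x + ev iA) = G x)
    (h3 : ∀ x, G (x + ev iB) = G x) (h4 : ∀ x, G (x + (2 * Real.pi) • ev iP) = G x)
    (h5 : ∀ x, G (Mo x + ev iS) = G x + q) : Iv (be2 G q) := by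
  unfold be2
  refine ⟨fun x => ?_, fun x => ?_, fun x => ?_, fun x => ?_, fun x u => ?_⟩
  · have : (x + ev iT) iS = x iS := by simp
    simp only [h1, this]
  · have : (x + ev iA) iS = x iS := by simp
    simp only [h2, this]
  · have : (x + ev iB) iS = x iS := by simp
    simp only [h3, this]
  · have : (x + (2 * Real.pi) • ev iP) iS = x iS := by simp
    simp only [h4, this]
  · have : (Mo x + ev iS) iS = x iS + 1 := by simp [Mo_ne]
    have h6 : pr iT (Mo u) = pr iT u := by simp [Mo_ne]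
    simp only [h5, this, _root_.smul_apply, h6]
    congr 1
    ring

theorem be2_ev {G : V6 → ℝ} {q : ℝ} (x : V6) (j : Ix) :
    be2 G q x (ev j) = if j = iT then -(G x - q * x iS) else 0 := by
  unfold be2
  by_cases h : j = iT
  · subst h; simp
  · simp [Pi.single_apply, h, Ne.symm h]

theorem cmp_be2_T {α : F2} {G : V6 → ℝ} {q : ℝ} (hG : ContDiff ℝ ∞ G)
    (hd : ∀ x, fderiv ℝ G x = mm α x) {j : Ix} (hj : j ≠ iT) (x : V6) :
    cmp (dF (be2 G q)) iT j x = mm α x (ev j) - q * (if j = iS then 1 else 0) := by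
  have hb : ContDiff ℝ 1 (be2 G q) := (contDiff_be2 hG q).of_le (by norm_num)
  rw [cmp_dF hb]
  simp only [be2_ev, if_neg hj, if_true]
  have h1 : HasFDerivAt (fun y : V6 => -(G y - q * y iS)) (-(mm α x - q • pr iS)) x := by
    have e1 : HasFDerivAt G (mm α x) x := by
      rw [← hd]; exact (hG.differentiable (by simp) x).hasFDerivAt
    have e2 : HasFDerivAt (fun y : V6 => q * y iS) (q • pr iS) x :=
      ((pr iS).hasFDerivAt (x := x)).const_mul q
    exact (e1.sub e2).neg
  rw [h1.fderiv]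
  by_cases hS : j = iS
  · subst hS; simp
  · simp [hS, Pi.single_apply, Ne.symm hS]

theorem cmp_be2_ne {G : V6 → ℝ} {q : ℝ} (hG : ContDiff ℝ ∞ G) {i j : Ix} (hi : i ≠ iT)
    (hj : j ≠ iT) (x : V6) : cmp (dF (be2 G q)) i j x = 0 := by
  have hb : ContDiff ℝ 1 (be2 G q) := (contDiff_be2 hG q).of_le (by norm_num)
  rw [cmp_dF hb]
  simp only [be2_ev, if_neg hj, if_neg hi]
  simp

/-! ### the restriction is closed -/

section
variable {α : F2}

theorem alt_rs (h : ∀ x u, α x u u = 0) (x u : V6) : rs α x u u = 0 := h _ _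

theorem rs_closed' (hα : ContDiff ℝ ∞ α) (hcl : IsCl α) (hs : Sym2 α) (i j k : Ix) (x : V6) :
    fderiv ℝ (cmp (rs α) k j) x (ev i) - fderiv ℝ (cmp (rs α) k i) x (ev j)
      = fderiv ℝ (cmp (rs α) i j) x (ev k) := by
  have hz : ∀ (k : Ix) (u : V6), fderiv ℝ (cmp (rs α) k iT) x u = 0 := by
    intro k u
    rw [cmp_rs_T]; simp
  have hz' : ∀ (k : Ix) (u : V6), fderiv ℝ (cmp (rs α) iT k) x u = 0 := by
    intro k u
    rw [fd_cmp_anti (alt_rs hs.alt), hz, neg_zero]
  have hz2 : ∀ (k j : Ix), fderiv ℝ (cmp (rs α) k j) x (ev iT) = 0 := by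
    intro k j
    by_cases hk : k = iT
    · subst hk; exact hz' _ _
    · by_cases hj : j = iT
      · subst hj; exact hz _ _
      · exact fd_cmp_rs_T hα hk hj x
  by_cases hi : i = iT
  · subst hi; rw [hz2, hz, hz', sub_zero]
  · by_cases hj : j = iT
    · subst hj; rw [hz2, hz, hz, sub_zero]
    · by_cases hk : k = iT
      · subst hk; rw [hz2, hz', hz', sub_zero]
      · exact rs_closed hα hcl hs hi hj hk x

end

/-! ### the exterior derivative of an invariant form is invariant -/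

theorem dF_add {l l' : F1} (hl : ContDiff ℝ ∞ l) (hl' : ContDiff ℝ ∞ l') (x : V6) :
    dF (fun x => l x + l' x) x = dF l x + dF l' x := by
  unfold dF
  rw [fderiv_fun_add (hl.differentiable (by simp) x) (hl'.differentiable (by simp) x)]
  ext u w
  simp
  ring

theorem dF_translate {l : F1} (v : V6) (h : ∀ x, l (x + v) = l x) (x : V6) :
    dF l (x + v) = dF l x := by
  have h1 : fderiv ℝ l (x + v) = fderiv ℝ l x := by
    rw [← fderiv_comp_add_right v]
    simp only [h]
  unfold dF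
  rw [h1]

theorem dF_glue {l : F1} (hl : ContDiff ℝ ∞ l) (h : ∀ x u, l (Mo x + ev iS) (Mo u) = l x u)
    (x u w : V6) : dF l (Mo x + ev iS) (Mo u) (Mo w) = dF l x u w := by
  have hl1 : ContDiff ℝ 1 l := hl.of_le (by norm_num)
  have h1 : ∀ u w, fderiv ℝ l (Mo x + ev iS) (Mo u) (Mo w) = fderiv ℝ l x u w := by
    intro u w
    rw [fderiv_F1 hl1, fderiv_F1 hl1 x u w]
    have e0 : HasFDerivAt (fun y => Mo y + ev iS) Mo x := Mo.hasFDerivAt.add_const _
    have hf : ContDiff ℝ 1 (fun y => l y (Mo w)) := hl1.clm_apply contDiff_const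
    have e1 : HasFDerivAt (fun y => l y (Mo w))
        (fderiv ℝ (fun y => l y (Mo w)) (Mo x + ev iS)) (Mo x + ev iS) :=
      (hf.differentiable (by simp) _).hasFDerivAt
    have e2 := HasFDerivAt.comp (g := fun y => l y (Mo w)) x e1 e0
    have e3 : ((fun y => l y (Mo w)) ∘ fun y => Mo y + ev iS) = fun y => l y w := by
      funext y
      exact h y w
    rw [e3] at e2
    rw [e2.fderiv]
    rfl
  rw [dF_apply, dF_apply, h1, h1]

end Pool.Agent.L5helper94.FS
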