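import Mathlib
import Pool.Agent.L5helper94.FS.Main2
import Pool.Agent.Y519.AS.Nonv

/-!
# The integral over the fibre torus does not vanish
-/

open MeasureTheory Set Function Module
open scoped ContDiff
open Pool.Agent.Y519.AS (pf toB dEta IsCl contDiff_form fderiv_apply2 hasFDerivAt_apply2 dEta_apply
  pf_ne_zero contDiff_apply2)

set_option linter.unusedSectionVars false

namespace Pool.Agent.L5helper94.FS

section
variable {α : F2}

theorem K_eq_zero {f : V6 → ℝ} {i : Ix} {x : V6} (h : ∀ r, f (update x i r) = 0) : K i f x = 0 := by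
  unfold K J
  simp [h]

theorem J_eq_zero {f : V6 → ℝ} {i : Ix} {c : ℝ} {x : V6} (h : ∀ r, f (update x i r) = 0) :
    J i c f x = 0 := by
  unfold J
  simp [h]

theorem exists_prim (hα : ContDiff ℝ ∞ α) (hcl : IsCl α) (hs : Sym2 α) :
    ∃ (q : ℝ) (β : F1), ContDiff ℝ ∞ β ∧ Sym1 β ∧
      (∀ x j, j ≠ iT → cmp α iT j x - cmp (dF β) iT j x = q * (if j = iS then 1 else 0)) ∧
      (∀ x j, j ≠ iT → j ≠ iH → cmp α iH j x - cmp (dF β) iH j x
        = Real.pi⁻¹ * J iH Real.pi (cmp (rs α) iH j) x) ∧
      (∀ x i j, i ≠ iT → i ≠ iH → j ≠ iT → j ≠ iH → cmp α i j x - cmp (dF β) i j x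
        = cmp (rs α) i j (update x iH 0) + (x iH * Real.pi⁻¹) *
          (cmp (rs α) i j (update x iH Real.pi) - cmp (rs α) i j (update x iH 0))) := by
  obtain ⟨G, q, hG, hd, g1, g2, g3, g4, g5⟩ := exists_G' hα hcl hs
  have hn := contDiff_rs hα
  have hns := sym2_rs hs
  have b1 := contDiff_bt (contDiff_iot hα iT) iT 1
  have b2 := contDiff_be2 hG q
  have b3 := contDiff_bt (contDiff_iot hn iH) iH Real.pi
  have b12 : ContDiff ℝ ∞ (fun x => bt iT 1 (iot iT α) x + be2 G q x) := b1.add b2
  have v1 := iv_bt_T (contDiff_iot hα iT) (iv_iot hs (i := iT) (by decide) (by decide))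
  have v2 := iv_be2 g1 g2 g3 g4 g5
  have v3 := iv_bt_H (contDiff_iot hn iH) (iv_iot hns (i := iH) (by decide) (by decide)) Real.pi
  have v := (v1.add v2).add v3
  set β : F1 := fun x => (bt iT 1 (iot iT α) x + be2 G q x) + bt iH Real.pi (iot iH (rs α)) x
    with hβ
  have hdF : ∀ x i j, cmp (dF β) i j x = cmp (dF (bt iT 1 (iot iT α))) i j x
      + cmp (dF (be2 G q)) i j x + cmp (dF (bt iH Real.pi (iot iH (rs α)))) i j x := by
    intro x i j
    unfold cmp
    rw [hβ, dF_add b12 b3, dF_add b1 b2]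
    rfl
  have hTper : ∀ (i j : Ix) (x : V6), cmp α i j (update x iT 1) = cmp α i j (update x iT 0) := by
    intro i j x
    exact upd_one_zero (f := cmp α i j) (by intro y; unfold cmp; rw [hs.perT]) x
  have hzT : ∀ (j : Ix) (y : V6), cmp (rs α) j iT y = 0 := by
    intro j y; rw [cmp_rs_T]
  have hzT' : ∀ (j : Ix) (y : V6), cmp (rs α) iT j y = 0 := by
    intro j y; rw [cmp_anti hns.alt, cmp_rs_T]; simp
  refine ⟨q, β, b12.add b3, ⟨v.perT, v.perA, v.perB, v.perP, v.glu, fun x hx => ?_⟩, ?_, ?_, ?_⟩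
  · have e1 : bt iT 1 (iot iT α) x (ev iP) = 0 := by
      rw [bt_ev hα]
      have h0 : ∀ r, cmp α iT iP (update x iT r) = 0 := by
        intro r
        rw [cmp_anti hs.alt]
        simp only
        unfold cmp
        rw [hs.pole _ ?_ iT (by decide), neg_zero]
        rwa [update_of_ne (by decide)]
      rw [K_eq_zero h0, J_eq_zero h0]
      ring
    have e2 : be2 G q x (ev iP) = 0 := by
      rw [be2_ev, if_neg (by decide)]
    have e3 : bt iH Real.pi (iot iH (rs α)) x (ev iP) = 0 := by
      rw [bt_ev hn]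
      rcases hx with hx | hx
      · rw [K_zero hx, hx]; ring
      · rw [K_eq_J hx, hx, mul_inv_cancel₀ Real.pi_ne_zero]; ring
    show (bt iT 1 (iot iT α) x + be2 G q x + bt iH Real.pi (iot iH (rs α)) x) (ev iP) = 0
    rw [_root_.add_apply, _root_.add_apply, e1, e2, e3]
    ring
  · intro x j hj
    rw [hdF, cmp_bt_self hα hs.alt hj, cmp_be2_T hG hd hj, mm_ev hα]
    have e3 : cmp (dF (bt iH Real.pi (iot iH (rs α)))) iT j x = 0 := by
      by_cases hjH : j = iH
      · subst hjH
        have h1 : cmp (dF (bt iH Real.pi (iot iH (rs α)))) iT iH x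
            = - cmp (dF (bt iH Real.pi (iot iH (rs α)))) iH iT x := by
          unfold cmp
          rw [dF_apply, dF_apply]
          ring
        rw [h1, cmp_bt_self hn hns.alt (by decide), hzT, J_eq_zero fun r => hzT _ _]
        ring
      · rw [cmp_bt_ne hn (by decide) hjH _ (rs_closed' hα hcl hs iT j iH), hzT', hzT', hzT']
        ring
    rw [e3, inv_one]
    ring
  · intro x j hj hjH
    rw [hdF, cmp_bt_ne hα (i := iT) (j := iH) (k := j) (by decide) hj _
      (cmp_closed hα hcl hs.alt iH j iT), cmp_be2_ne hG (by decide) hj,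
      cmp_bt_self hn hns.alt hjH, hTper, cmp_rs α (by decide) hj]
    ring
  · intro x i j hi hiH hj hjH
    rw [hdF, cmp_bt_ne hα hi hj _ (cmp_closed hα hcl hs.alt i j iT), cmp_be2_ne hG hi hj,
      cmp_bt_ne hn hiH hjH _ (rs_closed' hα hcl hs i j iH), hTper, cmp_rs α hi hj]
    ring

/-! ### the fibre integral -/

theorem fd_upd {f : V6 → ℝ} (hf : ContDiff ℝ 1 f) {i j : Ix} (h : i ≠ j) (c : ℝ) (x : V6) :
    fderiv ℝ (fun y => f (update y j c)) x (ev i) = fderiv ℝ f (update x j c) (ev i) := by
  have h1 : HasFDerivAt f (fderiv ℝ f (update x j c)) (update x j c) :=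
    (hf.differentiable (by simp) _).hasFDerivAt
  have h2 := HasFDerivAt.comp (g := f) x h1 (hasFDerivAt_upd j c x)
  have h3 : fderiv ℝ (fun x => f (update x j c)) x = _ := h2.fderiv
  rw [h3, ContinuousLinearMap.comp_apply, Pz_apply, update_ev_ne h]

theorem indep_of_fd {f : V6 → ℝ} (hf : ContDiff ℝ 1 f) {i : Ix}
    (h : ∀ x, fderiv ℝ f x (ev i) = 0) (x : V6) (r : ℝ) : f (update x i r) = f x := by
  have h1 := ftc_upd hf i x (x i) r
  simp only [h] at h1
  rw [update_eq_self] at h1
  simp at h1
  linarith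

/-- the fibre integral as a function of the base point -/
noncomputable def cc (α : F2) : V6 → ℝ := J iA 1 (J iB 1 (cmp α iA iB))

/-- the integral of a two-form over the fibre torus -/
noncomputable def cT (α : F2) : ℝ := cc α 0

theorem fd_cc (hα : ContDiff ℝ ∞ α) (hcl : IsCl α) (hs : Sym2 α) (k : Ix) (x : V6) :
    fderiv ℝ (cc α) x (ev k) = 0 := by
  have hc := contDiff_cmp hα iA iB
  have hcB := contDiff_J hc iB 1
  have perA : ∀ (i j : Ix) (y : V6), cmp α i j (update y iA 1) = cmp α i j (update y iA 0) := by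
    intro i j y
    have := upd_add y iA 0 1
    rw [zero_add, one_smul] at this
    rw [this]
    unfold cmp
    rw [hs.perA]
  have perB : ∀ (i j : Ix) (y : V6), cmp α i j (update y iB 1) = cmp α i j (update y iB 0) := by
    intro i j y
    have := upd_add y iB 0 1
    rw [zero_add, one_smul] at this
    rw [this]
    unfold cmp
    rw [hs.perB]
  by_cases hA : k = iA
  · subst hA
    exact fderiv_J_self hcB iA 1 x
  · unfold cc
    rw [fderiv_J_ne hcB hA]
    by_cases hB : k = iB
    · subst hB
      simp only [fderiv_J_self hc iB 1]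
      rw [J_zero]
    · simp only [fderiv_J_ne hc hB]
      have h0 : (fun y => fderiv ℝ (cmp α iA iB) y (ev k))
          = fun y => fderiv ℝ (cmp α k iB) y (ev iA) - fderiv ℝ (cmp α k iA) y (ev iB) := by
        funext y
        rw [cmp_closed hα hcl hs.alt]
      rw [h0]
      have c1 := (contDiff_fd (contDiff_cmp hα k iB) (ev iA)).continuous
      have c2 := (contDiff_fd (contDiff_cmp hα k iA) (ev iB)).continuous
      have e2 : J iB 1 (fun y => fderiv ℝ (cmp α k iA) y (ev iB)) = fun _ => 0 := by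
        funext y
        rw [J_deriv ((contDiff_cmp hα k iA).of_le (by norm_num)), perB, sub_self]
      have e1 : J iA 1 (fun y => fderiv ℝ (cmp α k iB) y (ev iA)) = fun _ => 0 := by
        funext y
        rw [J_deriv ((contDiff_cmp hα k iB).of_le (by norm_num)), perA, sub_self]
      have e3 : J iA 1 (J iB 1 (fun y => fderiv ℝ (cmp α k iB) y (ev iA))) = fun _ => 0 := by
        rw [J_comm c1 (by decide), e1, J_zero]
      rw [J_sub c1 c2, e2]
      simp only [sub_zero]
      exact congrFun e3 x

theorem contDiff_cc (hα : ContDiff ℝ ∞ α) : ContDiff ℝ ∞ (cc α) :=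
  contDiff_J (contDiff_J (contDiff_cmp hα iA iB) iB 1) iA 1

theorem cc_const (hα : ContDiff ℝ ∞ α) (hcl : IsCl α) (hs : Sym2 α) (x : V6) : cc α x = cT α := by
  have h0 : ∀ x, fderiv ℝ (cc α) x = 0 := by
    intro x
    have : (fderiv ℝ (cc α) x).toLinearMap = (0 : V6 →ₗ[ℝ] ℝ) := by
      refine eb.ext fun i => ?_
      rw [eb_apply]
      exact fd_cc hα hcl hs i x
    ext1 u
    exact congrArg (fun L : V6 →ₗ[ℝ] ℝ => L u) this
  exact is_const_of_fderiv_eq_zero (𝕜 := ℝ) ((contDiff_cc hα).differentiable (by simp)) h0 x 0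

theorem JJ_pf_zero (hα : ContDiff ℝ ∞ α) (hcl : IsCl α) (hs : Sym2 α) (h0 : cT α = 0) :
    JJ (fun p => pf eb (fun _ : Fin 3 => toB (α p))) = 0 := by
  obtain ⟨q, β, hβ, hβs, cTj, cHj, cij⟩ := exists_prim hα hcl hs
  have hn := contDiff_rs hα
  have hns := sym2_rs hs
  set α' : F2 := fun x => α x - dF β x with hα'
  have hdβ := contDiff_dF hβ
  have hα'c : ContDiff ℝ ∞ α' := hα.sub hdβ
  have hcmp : ∀ x i j, α' x (ev i) (ev j) = cmp α i j x - cmp (dF β) i j x := fun x i j => rfl
  have halt' : ∀ x u, α' x u u = 0 := by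
    intro x u
    show α x u u - (dF β x) u u = 0
    rw [hs.alt, dF_apply]
    ring
  -- the component rows
  have hT : ∀ x j, j ≠ iS → α' x (ev iT) (ev j) = 0 := by
    intro x j hj
    by_cases hjT : j = iT
    · subst hjT; exact halt' _ _
    · rw [hcmp, cTj x j hjT, if_neg hj, mul_zero]
  have hpole0 : ∀ (x : V6) (j : Ix), j ≠ iH → cmp (rs α) iP j (update x iH 0) = 0 := by
    intro x j hj
    exact hns.pole _ (Or.inl (by simp)) j hj
  have hpole1 : ∀ (x : V6) (j : Ix), j ≠ iH → cmp (rs α) iP j (update x iH Real.pi) = 0 := by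
    intro x j hj
    exact hns.pole _ (Or.inr (by simp)) j hj
  have hP : ∀ x j, j ≠ iH → α' x (ev iP) (ev j) = 0 := by
    intro x j hj
    by_cases hjT : j = iT
    · subst hjT
      rw [anti_of_alt halt', hT x iP (by decide), neg_zero]
    · rw [hcmp, cij x iP j (by decide) (by decide) hjT hj, hpole0 x j hj, hpole1 x j hj]
      ring
  have hs' : Sym2 α' := by
    refine ⟨fun x => ?_, fun x => ?_, fun x => ?_, fun x => ?_, fun x u w => ?_,
      fun x _ j hj => hP x j hj, halt'⟩
    · show α _ - dF β _ = α _ - dF β _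
      rw [hs.perT, dF_translate _ hβs.perT]
    · show α _ - dF β _ = α _ - dF β _
      rw [hs.perA, dF_translate _ hβs.perA]
    · show α _ - dF β _ = α _ - dF β _
      rw [hs.perB, dF_translate _ hβs.perB]
    · show α _ - dF β _ = α _ - dF β _
      rw [hs.perP, dF_translate _ hβs.perP]
    · show α _ (Mo u) (Mo w) - dF β _ (Mo u) (Mo w) = α x u w - dF β x u w
      rw [hs.glu, dF_glue hβ hβs.glu]
  have hcl' : IsCl α' := by
    intro p a b c
    have h1 : ∀ a b c, fderiv ℝ α' p a b c = fderiv ℝ α p a b c - fderiv ℝ (dF β) p a b c := by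
      intro a b c
      rw [hα', fderiv_fun_sub (hα.differentiable (by simp) p) (hdβ.differentiable (by simp) p)]
      rfl
    have h2 := hcl p a b c
    have h3 := isCl_dF hβ p a b c
    rw [h1, h1, h1]
    linarith
  have hd : ∀ x, toB (α x) = toB (α' x) + dEta β x := by
    intro x
    rw [← toB_dF]
    refine LinearMap.ext fun u => LinearMap.ext fun w => ?_
    show α x u w = (α x u w - dF β x u w) + dF β x u w
    ring
  rw [pf_invariant (hα.of_le (by norm_num)) (hα'c.of_le (by norm_num)) hcl hcl' hs hs'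
    (hβ.of_le (by norm_num)) hβs hd]
  -- evaluation
  set g : V6 → ℝ := fun x => cmp (rs α) iA iB (update x iH 0) + (x iH * Real.pi⁻¹) *
    (cmp (rs α) iA iB (update x iH Real.pi) - cmp (rs α) iA iB (update x iH 0)) with hg
  set h : V6 → ℝ := J iH Real.pi (cmp (rs α) iH iP) with hh
  have hpf : (fun p => pf eb (fun _ : Fin 3 => toB (α' p)))
      = fun x => (-q * Real.pi⁻¹ * kap) * (g x * h x) := by
    funext x
    rw [pf_special (toB (α' x)) (fun u => halt' x u) (fun j hj => hP x j hj) (fun j hj => hT x j hj)]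
    have e1 : toB (α' x) (ev iS) (ev iT) = -q := by
      show α' x (ev iS) (ev iT) = -q
      rw [anti_of_alt halt', hcmp, cTj x iS (by decide), if_pos rfl, mul_one]
    have e2 : toB (α' x) (ev iA) (ev iB) = g x := cij x iA iB (by decide) (by decide) (by decide) (by decide)
    have e3 : toB (α' x) (ev iH) (ev iP) = Real.pi⁻¹ * h x := cHj x iP (by decide) (by decide)
    rw [e1, e2, e3]
    ring
  rw [hpf, JJ_const_mul]
  have hcA : ContDiff ℝ ∞ (cmp (rs α) iA iB) := contDiff_cmp hn iA iB
  have hu : ∀ (j : Ix) (c : ℝ), ContDiff ℝ ∞ (fun x : V6 => update x j c) := fun j c =>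
    (contDiff_upd j).comp (contDiff_id.prodMk contDiff_const)
  have hgi : ∀ c, ContDiff ℝ ∞ (fun x => cmp (rs α) iA iB (update x iH c)) := fun c =>
    hcA.comp (hu iH c)
  have hgc : ContDiff ℝ ∞ g :=
    (hgi 0).add (((contDiff_apply ℝ ℝ iH).mul contDiff_const).mul ((hgi Real.pi).sub (hgi 0)))
  have hhc : ContDiff ℝ ∞ h := contDiff_J (contDiff_cmp hn iH iP) iH _
  -- `g` is independent of the longitude
  have gP : ∀ (c : ℝ), (c = 0 ∨ c = Real.pi) → ∀ x r,
      cmp (rs α) iA iB (update (update x iP r) iH c) = cmp (rs α) iA iB (update x iH c) := by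
    intro c hc
    refine indep_of_fd ((hgi c).of_le (by norm_num)) fun x => ?_
    rw [fd_upd (hcA.of_le (by norm_num)) (by decide), ← rs_closed' hα hcl hs]
    have hz : ∀ (j i : Ix), j ≠ iH → i ≠ iH →
        fderiv ℝ (cmp (rs α) iP j) (update x iH c) (ev i) = 0 := by
      intro j i hj hi
      rw [← fd_upd ((contDiff_cmp hn iP j).of_le (by norm_num)) hi]
      have : (fun y => cmp (rs α) iP j (update y iH c)) = fun _ => 0 := by
        funext y
        rcases hc with rfl | rfl
        · exact hpole0 y j hj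
        · exact hpole1 y j hj
      rw [this]; simp
    rw [hz _ _ (by decide) (by decide), hz _ _ (by decide) (by decide), sub_zero]
  have gP' : ∀ x r, g (update x iP r) = g x := by
    intro x r
    simp only [hg]
    rw [gP 0 (Or.inl rfl), gP Real.pi (Or.inr rfl), update_of_ne (by decide)]
  -- the longitude integral of `h` is independent of the fibre coordinates
  have perP : ∀ (i j : Ix) (y : V6), cmp (rs α) i j (update y iP (2 * Real.pi))
      = cmp (rs α) i j (update y iP 0) := by
    intro i j y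
    have := upd_add y iP 0 (2 * Real.pi)
    rw [zero_add] at this
    rw [this]
    unfold cmp
    rw [hns.perP]
  have hH : ∀ k : Ix, k ≠ iH → k ≠ iP → ∀ x r,
      J iP (2 * Real.pi) h (update x k r) = J iP (2 * Real.pi) h x := by
    intro k hk hkP
    refine indep_of_fd ((contDiff_J hhc iP _).of_le (by norm_num)) fun x => ?_
    rw [fderiv_J_ne hhc hkP]
    simp only [hh, fderiv_J_ne (contDiff_cmp hn iH iP) hk]
    have e0 : (fun y => fderiv ℝ (cmp (rs α) iH iP) y (ev k))
        = fun y => fderiv ℝ (cmp (rs α) k iP) y (ev iH) - fderiv ℝ (cmp (rs α) k iH) y (ev iP) := by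
      funext y
      rw [rs_closed' hα hcl hs]
    rw [e0]
    have c1 := (contDiff_fd (contDiff_cmp hn k iP) (ev iH)).continuous
    have c2 := (contDiff_fd (contDiff_cmp hn k iH) (ev iP)).continuous
    have e1 : J iH Real.pi (fun y => fderiv ℝ (cmp (rs α) k iP) y (ev iH)) = fun _ => 0 := by
      funext y
      rw [J_deriv ((contDiff_cmp hn k iP).of_le (by norm_num)), cmp_anti hns.alt k iP]
      simp only
      rw [hpole0 y k hk, hpole1 y k hk]
      ring
    have e2 : J iP (2 * Real.pi) (fun y => fderiv ℝ (cmp (rs α) k iH) y (ev iP)) = fun _ => 0 := by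
      funext y
      rw [J_deriv ((contDiff_cmp hn k iH).of_le (by norm_num)), perP, sub_self]
    have e3 : J iP (2 * Real.pi) (J iH Real.pi (fun y => fderiv ℝ (cmp (rs α) k iH) y (ev iP)))
        = fun _ => 0 := by
      rw [J_comm c2 (by decide), e2, J_zero]
    rw [J_sub c1 c2, e1]
    simp only [zero_sub]
    rw [J_neg, e3]
    simp
  -- the fibre integral of `g`
  have hJg : ∀ x, J iA 1 (J iB 1 g) x = 0 := by
    intro x
    have hci : ∀ (c : ℝ) (x : V6),
        J iA 1 (J iB 1 (fun x => cmp (rs α) iA iB (update x iH c))) x = 0 := by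
      intro c x
      have h1 : (fun x => cmp (rs α) iA iB (update x iH c))
          = fun x => cmp α iA iB (update (update x iH c) iT 0) := by
        funext x
        rw [cmp_rs α (by decide) (by decide)]
      have h2 : cc α (update (update x iH c) iT 0)
          = J iA 1 (J iB 1 (fun x => cmp α iA iB (update (update x iH c) iT 0))) x := by
        unfold cc
        rw [J_upd_ne _ (by decide), J_upd_ne _ (by decide)]
        congr 1
        funext y
        rw [J_upd_ne _ (by decide), J_upd_ne _ (by decide)]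
      rw [h1, ← h2, cc_const hα hcl hs, h0]
    have c0 := (hgi 0).continuous
    have c1 := (hgi Real.pi).continuous
    have cx : Continuous (fun x : V6 => x iH * Real.pi⁻¹) := by fun_prop
    have c2 : Continuous (fun x => (x iH * Real.pi⁻¹) *
      (cmp (rs α) iA iB (update x iH Real.pi) - cmp (rs α) iA iB (update x iH 0))) :=
      cx.mul (c1.sub c0)
    have e1 : J iB 1 g = fun x => J iB 1 (fun x => cmp (rs α) iA iB (update x iH 0)) x
        + (x iH * Real.pi⁻¹) * (J iB 1 (fun x => cmp (rs α) iA iB (update x iH Real.pi)) x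
          - J iB 1 (fun x => cmp (rs α) iA iB (update x iH 0)) x) := by
      rw [hg, J_add c0 c2, J_mul _ iB 1 (fun x r => by rw [update_of_ne (by decide)]), J_sub c1 c0]
    have d0 := continuous_J c0 iB 1
    have d1 := continuous_J c1 iB 1
    have d2 : Continuous (fun x => (x iH * Real.pi⁻¹) *
      (J iB 1 (fun x => cmp (rs α) iA iB (update x iH Real.pi)) x
        - J iB 1 (fun x => cmp (rs α) iA iB (update x iH 0)) x)) := cx.mul (d1.sub d0)
    rw [e1, J_add d0 d2,
      J_mul _ iA 1 (fun x r => by rw [update_of_ne (by decide)]), J_sub d1 d0]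
    simp only [hci]
    ring
  -- conclusion
  unfold JJ
  have hcont : Continuous (fun x => g x * h x) := (hgc.mul hhc).continuous
  rw [JL_perm hcont (l' := [iS, iT, iH] ++ ([iA, iB] ++ [iP])) (by decide) (by decide),
    JL_append, JL_append]
  have hrA : rg iA = 1 := by simp [rg]
  have hrB : rg iB = 1 := by simp [rg]
  have hrP : rg iP = 2 * Real.pi := by simp [rg]
  have e1 : JL [iP] (fun x => g x * h x) = fun x => J iP (2 * Real.pi) h x * g x := by
    show J iP (rg iP) (fun x => g x * h x) = _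
    rw [hrP, J_mul h iP _ gP']
    funext x
    ring
  have e2 : JL [iA, iB] (fun x => J iP (2 * Real.pi) h x * g x) = fun _ => 0 := by
    show J iA (rg iA) (J iB (rg iB) (fun x => J iP (2 * Real.pi) h x * g x)) = _
    rw [hrA, hrB, J_mul g iB 1 (hH iB (by decide) (by decide)),
      J_mul _ iA 1 (hH iA (by decide) (by decide))]
    funext x
    rw [hJg, mul_zero]
  rw [e1, e2, JL_zero, mul_zero]

/-- **The integral of an invariant symplectic form over the fibre torus does not vanish.** -/
theorem cT_ne_zero (hα : ContDiff ℝ ∞ α) (hcl : IsCl α) (hs : Sym2 α)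
    (hnd : ∀ x : V6, 0 < x iH → x iH < Real.pi → ∀ u, (∀ w, α x u w = 0) → u = 0) :
    cT α ≠ 0 := by
  intro h0
  have hz := JJ_pf_zero hα hcl hs h0
  set f : V6 → ℝ := fun p => pf eb (fun _ : Fin 3 => toB (α p)) with hf
  have hα1 : ContDiff ℝ 1 α := hα.of_le (by norm_num)
  have hfc : Continuous f := by
    rw [hf]
    unfold pf
    refine continuous_finsetSum _ fun σ _ => continuous_const.mul
      (continuous_finsetProd _ fun m _ => ?_)
    exact (contDiff_apply2 hα1 _ _).continuous
  set D : Set V6 := {x | 0 < x iH ∧ x iH < Real.pi} with hD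
  have hne : ∀ x ∈ D, f x ≠ 0 := by
    intro x hx
    exact pf_ne_zero eb (toB (α x)) (fun v => hs.alt x v) (fun u hu => hnd x hx.1 hx.2 u hu)
  have hconv : IsPreconnected D := by
    have : Convex ℝ D := by
      have h1 : D = (pr iH).toLinearMap ⁻¹' (Set.Ioo 0 Real.pi) := by
        ext x; rfl
      rw [h1]
      exact (convex_Ioo 0 Real.pi).linear_preimage _
    exact this.isPreconnected
  have hx0 : (update (0 : V6) iH (Real.pi / 2)) ∈ D := by
    constructor
    · simp [Real.pi_pos]
    · simp [Real.pi_pos]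
  have hsign : (∀ x ∈ D, 0 < f x) ∨ (∀ x ∈ D, f x < 0) := by
    have himg : IsPreconnected (f '' D) := hconv.image f hfc.continuousOn
    by_cases hp : 0 < f (update (0 : V6) iH (Real.pi / 2))
    · left
      intro x hx
      by_contra hneg
      have h1 : (0 : ℝ) ∈ f '' D :=
        himg.Icc_subset ⟨x, hx, rfl⟩ ⟨_, hx0, rfl⟩ ⟨not_lt.1 hneg, hp.le⟩
      obtain ⟨y, hy, hy0⟩ := h1
      exact hne y hy hy0
    · right
      intro x hx
      by_contra hneg
      have h1 : (0 : ℝ) ∈ f '' D :=
        himg.Icc_subset ⟨_, hx0, rfl⟩ ⟨x, hx, rfl⟩ ⟨not_lt.1 hp, not_lt.1 hneg⟩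
      obtain ⟨y, hy, hy0⟩ := h1
      exact hne y hy hy0
  rcases hsign with h | h
  · have := J_pos_all hfc fun x h1 h2 => h x ⟨h1, h2⟩
    linarith
  · have h1 := J_pos_all (f := fun x => (-1) * f x) (continuous_const.mul hfc) fun x h1 h2 => by
      have := h x ⟨h1, h2⟩
      linarith
    rw [JJ_const_mul] at h1
    linarith

end

end Pool.Agent.L5helper94.FS
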