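import Mathlib
import Pool.Agent.L5helper94.FS.FormX
import Pool.Agent.L5helper94.FS.Main3
import Pool.Agent.Helper206.Cover.Geometry

/-!
# The parametrization of the product by `ℝ⁶`
-/

set_option maxSynthPendingDepth 3

open scoped Manifold ContDiff Topology
open Set Filter
open Pool.Agent.Helper831
open Pool.Agent.Helper206.Cover (sph sph1 sph2 sphP contMDiff_sphP hasFDerivAt_sph dInc
  dInc_injective)

namespace Pool.Agent.L5helper94.FS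

/-! ### the sphere -/

attribute [local instance] Pool.Agent.Helper206.Cover.factR3

theorem dInc_sphP (q v : ℝ × ℝ) :
    dInc (sphP q) (mfderiv 𝓘(ℝ, ℝ × ℝ) (𝓡 2) sphP q v) = v.1 • sph1 q + v.2 • sph2 q := by
  have hdP : MDifferentiableAt 𝓘(ℝ, ℝ × ℝ) (𝓡 2) sphP q :=
    (contMDiff_sphP q).mdifferentiableAt (by simp)
  have hdc : MDifferentiableAt (𝓡 2) 𝓘(ℝ, EuclideanSpace ℝ (Fin 3))
      (fun z : S2 => (z : EuclideanSpace ℝ (Fin 3))) (sphP q) :=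
    (contMDiff_coe_sphere (n := 2) (m := ∞) (sphP q)).mdifferentiableAt (by simp)
  have hinc : dInc (sphP q) (mfderiv 𝓘(ℝ, ℝ × ℝ) (𝓡 2) sphP q v) = fderiv ℝ sph q v := by
    have := mfderiv_comp q hdc hdP
    rw [mfderiv_eq_fderiv] at this
    have h2 : ((fun z : S2 => (z : EuclideanSpace ℝ (Fin 3))) ∘ sphP) = sph := rfl
    rw [h2] at this
    rw [this]
    rfl
  rw [hinc, (hasFDerivAt_sph q).fderiv]
  simp

theorem mfderiv_sphP_injective {q v : ℝ × ℝ} (hq : Real.sin q.2 ≠ 0)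
    (h : mfderiv 𝓘(ℝ, ℝ × ℝ) (𝓡 2) sphP q v = 0) : v = 0 := by
  have h1 := dInc_sphP q v
  rw [h, map_zero] at h1
  have e2 := congrArg (fun x : EuclideanSpace ℝ (Fin 3) => x 2) h1
  have e0 := congrArg (fun x : EuclideanSpace ℝ (Fin 3) => x 0) h1
  have e1 := congrArg (fun x : EuclideanSpace ℝ (Fin 3) => x 1) h1
  simp [sph1, sph2] at e0 e1 e2
  have hv2 : v.2 = 0 := by
    rcases e2 with h | h
    · exact h
    · exact absurd h hq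
  rw [hv2] at e0 e1
  simp at e0 e1
  have hv1 : v.1 = 0 := by
    by_contra hv
    have c0 : Real.sin q.1 = 0 := by
      rcases e0 with h | h | h
      · exact absurd h hv
      · exact absurd h hq
      · exact h
    have c1 : Real.cos q.1 = 0 := by
      rcases e1 with h | h | h
      · exact absurd h hv
      · exact absurd h hq
      · exact h
    have := Real.sin_sq_add_cos_sq q.1
    rw [c0, c1] at this
    norm_num at this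
  exact Prod.ext hv1 hv2

theorem mfderiv_sphP_pole {q : ℝ × ℝ} (hq : Real.sin q.2 = 0) :
    mfderiv 𝓘(ℝ, ℝ × ℝ) (𝓡 2) sphP q ((1, 0) : ℝ × ℝ) = 0 := by
  apply dInc_injective
  rw [map_zero, dInc_sphP]
  have : sph1 q = 0 := by
    ext i
    fin_cases i <;> simp [sph1, hq]
  simp [this]

/-! ### the parametrization -/

/-- the coordinates in the four-manifold -/
noncomputable def toE4L : V6 →ₗ[ℝ] E4 where
  toFun x := !₂[x iS, x iT, x iA, x iB]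
  map_add' x y := by
    ext i; fin_cases i <;> simp
  map_smul' c x := by
    ext i; fin_cases i <;> simp

/-- the coordinates in the four-manifold -/
noncomputable def toE4 : V6 →L[ℝ] E4 := LinearMap.toContinuousLinearMap toE4L

@[simp] theorem toE4_0 (x : V6) : toE4 x 0 = x iS := rfl
@[simp] theorem toE4_1 (x : V6) : toE4 x 1 = x iT := rfl
@[simp] theorem toE4_2 (x : V6) : toE4 x 2 = x iA := rfl
@[simp] theorem toE4_3 (x : V6) : toE4 x 3 = x iB := rfl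

/-- the coordinates of the sphere -/
noncomputable def toR2 : V6 →L[ℝ] ℝ × ℝ := (pr iP).prod (pr iH)

@[simp] theorem toR2_1 (x : V6) : (toR2 x).1 = x iP := rfl
@[simp] theorem toR2_2 (x : V6) : (toR2 x).2 = x iH := rfl

/-- the parametrization of `X × S²` by `ℝ⁶` -/
noncomputable def PP (x : V6) : X4 × S2 := (pj (toE4 x), sphP (toR2 x))

theorem contMDiff_PP : ContMDiff 𝓘(ℝ, V6) ((𝓡 4).prod (𝓡 2)) ∞ PP := by
  have h1 : ContMDiff 𝓘(ℝ, V6) (𝓡 4) ∞ (fun x => pj (toE4 x)) :=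
    pj_contMDiff.comp toE4.contDiff.contMDiff
  have h2 : ContMDiff 𝓘(ℝ, V6) (𝓡 2) ∞ (fun x => sphP (toR2 x)) :=
    contMDiff_sphP.comp toR2.contDiff.contMDiff
  exact h1.prodMk h2

theorem mfderiv_PP (x u : V6) : (mfderiv 𝓘(ℝ, V6) ((𝓡 4).prod (𝓡 2)) PP x u : E4 × EuclideanSpace ℝ (Fin 2))
    = ((mfderiv 𝓘(ℝ, E4) (𝓡 4) pj (toE4 x) (toE4 u) : E4),
      (mfderiv 𝓘(ℝ, ℝ × ℝ) (𝓡 2) sphP (toR2 x) (toR2 u) : EuclideanSpace ℝ (Fin 2))) := by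
  have e1 : MDifferentiableAt 𝓘(ℝ, V6) 𝓘(ℝ, E4) toE4 x := toE4.differentiableAt.mdifferentiableAt
  have e2 : MDifferentiableAt 𝓘(ℝ, V6) 𝓘(ℝ, ℝ × ℝ) toR2 x := toR2.differentiableAt.mdifferentiableAt
  have d1 : MDifferentiableAt 𝓘(ℝ, E4) (𝓡 4) pj (toE4 x) :=
    (pj_contMDiff _).mdifferentiableAt (by simp)
  have d2 : MDifferentiableAt 𝓘(ℝ, ℝ × ℝ) (𝓡 2) sphP (toR2 x) :=
    (contMDiff_sphP _).mdifferentiableAt (by simp)
  have h1 := mfderiv_comp x d1 e1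
  have h2 := mfderiv_comp x d2 e2
  have h3 := mfderiv_prodMk (d1.comp x e1) (d2.comp x e2)
  have f1 : (mfderiv 𝓘(ℝ, V6) 𝓘(ℝ, E4) toE4 x : V6 →L[ℝ] E4) = toE4 := by
    rw [mfderiv_eq_fderiv]; exact toE4.fderiv
  have f2 : (mfderiv 𝓘(ℝ, V6) 𝓘(ℝ, ℝ × ℝ) toR2 x : V6 →L[ℝ] ℝ × ℝ) = toR2 := by
    rw [mfderiv_eq_fderiv]; exact toR2.fderiv
  have g1 : (mfderiv 𝓘(ℝ, V6) (𝓡 4) (pj ∘ toE4) x u : E4)
      = (mfderiv 𝓘(ℝ, E4) (𝓡 4) pj (toE4 x) (toE4 u) : E4) := by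
    have a1 : (mfderiv 𝓘(ℝ, V6) (𝓡 4) (pj ∘ toE4) x u : E4)
      = (mfderiv 𝓘(ℝ, E4) (𝓡 4) pj (toE4 x) (mfderiv 𝓘(ℝ, V6) 𝓘(ℝ, E4) toE4 x u) : E4) :=
      congrArg (fun L : V6 →L[ℝ] E4 => L u) h1
    rw [a1, f1]
    rfl
  have g2 : (mfderiv 𝓘(ℝ, V6) (𝓡 2) (sphP ∘ toR2) x u : EuclideanSpace ℝ (Fin 2))
      = (mfderiv 𝓘(ℝ, ℝ × ℝ) (𝓡 2) sphP (toR2 x) (toR2 u) : EuclideanSpace ℝ (Fin 2)) := by
    have a1 : (mfderiv 𝓘(ℝ, V6) (𝓡 2) (sphP ∘ toR2) x u : EuclideanSpace ℝ (Fin 2))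
      = (mfderiv 𝓘(ℝ, ℝ × ℝ) (𝓡 2) sphP (toR2 x)
          (mfderiv 𝓘(ℝ, V6) 𝓘(ℝ, ℝ × ℝ) toR2 x u) : EuclideanSpace ℝ (Fin 2)) :=
      congrArg (fun L : V6 →L[ℝ] EuclideanSpace ℝ (Fin 2) => L u) h2
    rw [a1, f2]
    rfl
  rw [← g1, ← g2]
  exact congrArg (fun L : V6 →L[ℝ] E4 × EuclideanSpace ℝ (Fin 2) => L u) h3

/-- the form pulled back to `ℝ⁶` -/
noncomputable def aP (Ω : BilinField ((𝓡 4).prod (𝓡 2)) (X4 × S2)) : F2 := pv PP Ω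

theorem mdiff_PP : MDifferentiable 𝓘(ℝ, V6) ((𝓡 4).prod (𝓡 2)) PP :=
  contMDiff_PP.mdifferentiable (by simp)

theorem mfderiv_affine {T : V6 → V6} {L : V6 →L[ℝ] V6} {x : V6} (hT : HasFDerivAt T L x)
    (h : ∀ x, PP (T x) = PP x) (u : V6) :
    (mfderiv 𝓘(ℝ, V6) ((𝓡 4).prod (𝓡 2)) PP x u : E4 × EuclideanSpace ℝ (Fin 2))
      = mfderiv 𝓘(ℝ, V6) ((𝓡 4).prod (𝓡 2)) PP (T x) (L u) := by
  have h1 := mfderiv_comp x (mdiff_PP (T x)) hT.differentiableAt.mdifferentiableAt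
  have h2 : PP ∘ T = PP := funext h
  have h3 : (mfderiv 𝓘(ℝ, V6) 𝓘(ℝ, V6) T x : V6 →L[ℝ] V6) = L := by
    rw [mfderiv_eq_fderiv]; exact hT.fderiv
  have h4 : (mfderiv 𝓘(ℝ, V6) ((𝓡 4).prod (𝓡 2)) (PP ∘ T) x u : E4 × EuclideanSpace ℝ (Fin 2))
      = mfderiv 𝓘(ℝ, V6) ((𝓡 4).prod (𝓡 2)) PP (T x) (mfderiv 𝓘(ℝ, V6) 𝓘(ℝ, V6) T x u) :=
    congrArg (fun L : V6 →L[ℝ] E4 × EuclideanSpace ℝ (Fin 2) => L u) h1
  rw [h3] at h4
  have h5 : ∀ f : V6 → X4 × S2, f = PP →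
      (mfderiv 𝓘(ℝ, V6) ((𝓡 4).prod (𝓡 2)) f x u : E4 × EuclideanSpace ℝ (Fin 2))
      = (mfderiv 𝓘(ℝ, V6) ((𝓡 4).prod (𝓡 2)) PP x u : E4 × EuclideanSpace ℝ (Fin 2)) := by
    rintro f rfl; rfl
  rw [← h5 _ h2]
  exact h4

theorem aP_affine {T : V6 → V6} {L : V6 →L[ℝ] V6} {x : V6} (hT : HasFDerivAt T L x)
    (h : ∀ x, PP (T x) = PP x) (Ω : BilinField ((𝓡 4).prod (𝓡 2)) (X4 × S2)) (u w : V6) :
    aP Ω (T x) (L u) (L w) = aP Ω x u w := by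
  show (Ω (PP (T x)) : _ →L[ℝ] _ →L[ℝ] ℝ) (mfderiv 𝓘(ℝ, V6) ((𝓡 4).prod (𝓡 2)) PP (T x) (L u))
    (mfderiv 𝓘(ℝ, V6) ((𝓡 4).prod (𝓡 2)) PP (T x) (L w)) = _
  rw [← mfderiv_affine hT h, ← mfderiv_affine hT h]
  exact form_congr Ω (h x) _ _

theorem aP_translate {v : V6} (h : ∀ x, PP (x + v) = PP x)
    (Ω : BilinField ((𝓡 4).prod (𝓡 2)) (X4 × S2)) (x : V6) : aP Ω (x + v) = aP Ω x := by
  refine ContinuousLinearMap.ext fun u => ContinuousLinearMap.ext fun w => ?_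
  exact aP_affine (T := fun x => x + v) (L := ContinuousLinearMap.id ℝ V6)
    ((hasFDerivAt_id x).add_const v) h Ω u w

theorem PP_T (x : V6) : PP (x + ev iT) = PP x := by
  unfold PP
  have h1 : toE4 (x + ev iT) = (⟨0, 1, 0⟩ : Gm) • toE4 x := by
    rw [smul_def]
    refine E4_ext ?_ ?_ ?_ ?_ <;> simp [mp_zero]
  have h2 : toR2 (x + ev iT) = toR2 x := by
    refine Prod.ext ?_ ?_ <;> simp
  rw [h1, h2, pj_smul]

theorem PP_A (x : V6) : PP (x + ev iA) = PP x := by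
  unfold PP
  have h1 : toE4 (x + ev iA) = (⟨0, 0, ![1, 0]⟩ : Gm) • toE4 x := by
    rw [smul_def]
    refine E4_ext ?_ ?_ ?_ ?_ <;> simp [mp_zero]
  have h2 : toR2 (x + ev iA) = toR2 x := by
    refine Prod.ext ?_ ?_ <;> simp
  rw [h1, h2, pj_smul]

theorem PP_B (x : V6) : PP (x + ev iB) = PP x := by
  unfold PP
  have h1 : toE4 (x + ev iB) = (⟨0, 0, ![0, 1]⟩ : Gm) • toE4 x := by
    rw [smul_def]
    refine E4_ext ?_ ?_ ?_ ?_ <;> simp [mp_zero]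
  have h2 : toR2 (x + ev iB) = toR2 x := by
    refine Prod.ext ?_ ?_ <;> simp
  rw [h1, h2, pj_smul]

theorem PP_P (x : V6) : PP (x + (2 * Real.pi) • ev iP) = PP x := by
  unfold PP
  have h1 : toE4 (x + (2 * Real.pi) • ev iP) = toE4 x := by
    refine E4_ext ?_ ?_ ?_ ?_ <;> simp
  have h2 : toR2 (x + (2 * Real.pi) • ev iP) = ((toR2 x).1 + 2 * Real.pi, (toR2 x).2) := by
    refine Prod.ext ?_ ?_ <;> simp
  rw [h1, h2]
  have : ∀ q : ℝ × ℝ, sphP (q.1 + 2 * Real.pi, q.2) = sphP q := by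
    intro q
    apply Subtype.ext
    simp [sphP, sph]
  rw [this]

theorem PP_S (x : V6) : PP (Mo x + ev iS) = PP x := by
  unfold PP
  have h1 : toE4 (Mo x + ev iS) = (⟨1, 0, 0⟩ : Gm) • toE4 x := by
    rw [smul_def]
    refine E4_ext ?_ ?_ ?_ ?_
    · simp [mp_one, Mo_ne]
    · simp [mp_one, Mo_ne]
    · simp [mp_one, Mo_A]
    · simp [mp_one, Mo_B]
  have h2 : toR2 (Mo x + ev iS) = toR2 x := by
    refine Prod.ext ?_ ?_ <;> simp [Mo_ne]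
  rw [h1, h2, pj_smul]

theorem mfderiv_PP_pole {x : V6} (hx : x iH = 0 ∨ x iH = Real.pi) :
    (mfderiv 𝓘(ℝ, V6) ((𝓡 4).prod (𝓡 2)) PP x (ev iP) : E4 × EuclideanSpace ℝ (Fin 2)) = 0 := by
  rw [mfderiv_PP]
  have h1 : toE4 (ev iP) = 0 := by
    refine E4_ext ?_ ?_ ?_ ?_ <;> simp
  have h2 : toR2 (ev iP) = (1, 0) := by
    refine Prod.ext ?_ ?_ <;> simp
  have h3 : Real.sin (toR2 x).2 = 0 := by
    rw [toR2_2]
    rcases hx with h | h <;> simp [h]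
  rw [h1, h2, mfderiv_sphP_pole h3]
  refine Prod.ext ?_ rfl
  exact map_zero (mfderiv 𝓘(ℝ, E4) (𝓡 4) pj (toE4 x))

theorem sym2_aP {Ω : BilinField ((𝓡 4).prod (𝓡 2)) (X4 × S2)} (hΩ : IsClosedForm Ω) :
    Sym2 (aP Ω) := by
  refine ⟨aP_translate PP_T Ω, aP_translate PP_A Ω, aP_translate PP_B Ω, aP_translate PP_P Ω,
    fun x u w => ?_, fun x hx j _ => ?_, fun x u => hΩ.alt _ _⟩
  · exact aP_affine (T := fun x => Mo x + ev iS) (L := Mo) (Mo.hasFDerivAt.add_const _) PP_S Ω u w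
  · show (Ω (PP x) : (E4 × EuclideanSpace ℝ (Fin 2)) →L[ℝ] (E4 × EuclideanSpace ℝ (Fin 2)) →L[ℝ] ℝ)
      (mfderiv 𝓘(ℝ, V6) ((𝓡 4).prod (𝓡 2)) PP x (ev iP))
      (mfderiv 𝓘(ℝ, V6) ((𝓡 4).prod (𝓡 2)) PP x (ev j)) = 0
    rw [mfderiv_PP_pole hx]
    simp

theorem contDiff_aP {Ω : BilinField ((𝓡 4).prod (𝓡 2)) (X4 × S2)} (hΩ : IsClosedForm Ω) :
    ContDiff ℝ ∞ (aP Ω) := by
  rw [contDiff_iff_contDiffAt]
  intro x
  exact (pull_smooth isOpen_univ contMDiff_PP.contMDiffOn hΩ (mem_univ x)).1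

theorem isCl_aP {Ω : BilinField ((𝓡 4).prod (𝓡 2)) (X4 × S2)} (hΩ : IsClosedForm Ω) :
    Pool.Agent.Y519.AS.IsCl (aP Ω) := by
  intro x a b c
  exact (pull_smooth isOpen_univ contMDiff_PP.contMDiffOn hΩ (mem_univ x)).2 a b c

theorem mfderiv_PP_injective {x : V6} (h0 : 0 < x iH) (h1 : x iH < Real.pi) :
    Function.Injective (mfderiv 𝓘(ℝ, V6) ((𝓡 4).prod (𝓡 2)) PP x :
      V6 →L[ℝ] E4 × EuclideanSpace ℝ (Fin 2)) := by
  rw [injective_iff_map_eq_zero]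
  intro u hu
  have h2 := mfderiv_PP x u
  rw [hu] at h2
  have h3 : toE4 u = 0 := mfderiv_pj_injective _ (congrArg Prod.fst h2).symm
  have h4 : toR2 u = 0 := by
    refine mfderiv_sphP_injective (q := toR2 x) ?_ (congrArg Prod.snd h2).symm
    rw [toR2_2]
    exact (Real.sin_pos_of_pos_of_lt_pi h0 h1).ne'
  funext i
  have hi : i = iS ∨ i = iT ∨ i = iA ∨ i = iB ∨ i = iH ∨ i = iP := by
    clear hu h2 h3 h4
    revert i; decide
  rcases hi with rfl | rfl | rfl | rfl | rfl | rfl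
  · exact congrArg (fun x : E4 => x 0) h3
  · exact congrArg (fun x : E4 => x 1) h3
  · exact congrArg (fun x : E4 => x 2) h3
  · exact congrArg (fun x : E4 => x 3) h3
  · exact congrArg Prod.snd h4
  · exact congrArg Prod.fst h4

theorem nondeg_aP {Ω : BilinField ((𝓡 4).prod (𝓡 2)) (X4 × S2)} (hΩ : IsSymplectic Ω) {x : V6}
    (h0 : 0 < x iH) (h1 : x iH < Real.pi) (u : V6) (hu : ∀ w, aP Ω x u w = 0) : u = 0 := by
  have hinj := mfderiv_PP_injective h0 h1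
  have hsurj : Function.Surjective (mfderiv 𝓘(ℝ, V6) ((𝓡 4).prod (𝓡 2)) PP x :
      V6 →L[ℝ] E4 × EuclideanSpace ℝ (Fin 2)) := by
    have hdim : Module.finrank ℝ V6 = Module.finrank ℝ (E4 × EuclideanSpace ℝ (Fin 2)) := by
      simp
    exact (LinearMap.injective_iff_surjective_of_finrank_eq_finrank hdim).1 hinj
  have h2 := hΩ.nondegenerate (PP x) (mfderiv 𝓘(ℝ, V6) ((𝓡 4).prod (𝓡 2)) PP x u) (by
    intro w
    obtain ⟨w', hw'⟩ := hsurj w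
    have h3 := hu w'
    rw [← hw']
    exact h3)
  exact hinj (h2.trans (map_zero (mfderiv 𝓘(ℝ, V6) ((𝓡 4).prod (𝓡 2)) PP x)).symm)

/-- **The fibre integral of a symplectic form on `X × S²` does not vanish.** -/
theorem cT_aP_ne_zero {Ω : BilinField ((𝓡 4).prod (𝓡 2)) (X4 × S2)} (hΩ : IsSymplectic Ω) :
    cT (aP Ω) ≠ 0 :=
  cT_ne_zero (contDiff_aP hΩ.toIsClosedForm) (isCl_aP hΩ.toIsClosedForm)
    (sym2_aP hΩ.toIsClosedForm) fun _ h0 h1 u hu => nondeg_aP hΩ h0 h1 u hu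

end Pool.Agent.L5helper94.FS
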