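import Mathlib
import Pool.Agent.L5helper94.FS.PMap
import Pool.Agent.L5helper94.FS.Auto

/-!
# The fibre period along deformations
-/

set_option maxSynthPendingDepth 3

open scoped Manifold ContDiff Topology
open Set Filter Function
open Pool.Agent.Helper831

namespace Pool.Agent.L5helper94.FS

/-! ### the null Lagrangian -/

theorem upd_one (x : V6) (i : Ix) : update x i 1 = update x i 0 + ev i := by
  have := upd_add x i 0 1
  rwa [zero_add, one_smul] at this

theorem fd_quasi {b : V6 → ℝ} (v : V6) (c : ℝ) (h : ∀ x, b (x + v) = b x + c) (x u : V6) :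
    fderiv ℝ b (x + v) u = fderiv ℝ b x u := by
  have h1 : fderiv ℝ b (x + v) = fderiv ℝ b x := by
    rw [← fderiv_comp_add_right v]
    simp only [h]
    rw [fderiv_add_const]
  rw [h1]

theorem null_lag {a b : V6 → ℝ} (ha : ContDiff ℝ ∞ a) (hb : ContDiff ℝ ∞ b) {l1 l2 m1 m2 : ℝ}
    (a1 : ∀ x, a (x + ev iA) = a x + l1) (a2 : ∀ x, a (x + ev iB) = a x + l2)
    (b1 : ∀ x, b (x + ev iA) = b x + m1) (b2 : ∀ x, b (x + ev iB) = b x + m2) (x : V6) :
    J iA 1 (J iB 1 (fun x => fderiv ℝ a x (ev iA) * fderiv ℝ b x (ev iB)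
      - fderiv ℝ a x (ev iB) * fderiv ℝ b x (ev iA))) x = l1 * m2 - l2 * m1 := by
  have dbA : ContDiff ℝ ∞ (fun x => fderiv ℝ b x (ev iA)) := contDiff_fd hb _
  have dbB : ContDiff ℝ ∞ (fun x => fderiv ℝ b x (ev iB)) := contDiff_fd hb _
  set f : V6 → ℝ := fun x => a x * fderiv ℝ b x (ev iB) with hf
  set g : V6 → ℝ := fun x => a x * fderiv ℝ b x (ev iA) with hg
  have cf : ContDiff ℝ ∞ f := ha.mul dbB
  have cg : ContDiff ℝ ∞ g := ha.mul dbA
  have hsymm : ∀ x, fderiv ℝ (fun x => fderiv ℝ b x (ev iB)) x (ev iA)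
      = fderiv ℝ (fun x => fderiv ℝ b x (ev iA)) x (ev iB) := by
    intro x
    have h4 : IsSymmSndFDerivAt ℝ b x :=
      (hb.contDiffAt.of_le (m := 2) (by norm_cast)).isSymmSndFDerivAt (by simp)
    have h1 : ContDiff ℝ ∞ (fderiv ℝ b) := hb.fderiv_right (m := ∞) (by simp)
    have e : ∀ u w, fderiv ℝ (fun x => fderiv ℝ b x u) x w = fderiv ℝ (fderiv ℝ b) x w u := by
      intro u w
      have := ((h1.differentiable (by simp) x).hasFDerivAt.clm_apply (hasFDerivAt_const u x))
      rw [this.fderiv]; simp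
    rw [e, e, h4.eq]
  have key : (fun x => fderiv ℝ a x (ev iA) * fderiv ℝ b x (ev iB)
      - fderiv ℝ a x (ev iB) * fderiv ℝ b x (ev iA))
      = fun x => fderiv ℝ f x (ev iA) - fderiv ℝ g x (ev iB) := by
    funext x
    have da := (ha.differentiable (by simp) x).hasFDerivAt
    have e1 := da.mul (dbB.differentiable (by simp) x).hasFDerivAt
    have e2 := da.mul (dbA.differentiable (by simp) x).hasFDerivAt
    have e1' : fderiv ℝ f x = _ := e1.fderiv
    have e2' : fderiv ℝ g x = _ := e2.fderiv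
    rw [e1', e2']
    simp
    rw [hsymm]
    ring
  have c1 := (contDiff_fd cf (ev iA)).continuous
  have c2 := (contDiff_fd cg (ev iB)).continuous
  rw [key, J_sub c1 c2, J_sub (continuous_J c1 _ _) (continuous_J c2 _ _)]
  have t1 : J iA 1 (J iB 1 (fun x => fderiv ℝ f x (ev iA))) x = l1 * m2 := by
    rw [J_comm c1 (by decide)]
    have h1 : J iA 1 (fun x => fderiv ℝ f x (ev iA))
        = fun x => l1 * (fun y => fderiv ℝ b (update y iA 0) (ev iB)) x := by
      funext y
      rw [J_deriv (cf.of_le (by norm_num)), upd_one]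
      simp only [hf]
      rw [a1, fd_quasi _ _ b1]
      ring
    rw [h1, J_const_mul]
    simp only
    congr 1
    have h2 : (fun y => fderiv ℝ b (update y iA 0) (ev iB))
        = fun y => fderiv ℝ (fun y => b (update y iA 0)) y (ev iB) := by
      funext y
      rw [fd_upd (hb.of_le (by norm_num)) (by decide)]
    have h3 : ContDiff ℝ 1 (fun y : V6 => b (update y iA 0)) :=
      (hb.of_le (by norm_num)).comp (((contDiff_upd iA).comp
        (contDiff_id.prodMk contDiff_const)).of_le (by norm_num))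
    rw [h2, J_deriv h3, upd_one]
    have h4 := upd_translate1 iA iB (by decide) (update x iB 0) 0
    rw [h4, b2]
    ring
  have t2 : J iA 1 (J iB 1 (fun x => fderiv ℝ g x (ev iB))) x = l2 * m1 := by
    have h1 : J iB 1 (fun x => fderiv ℝ g x (ev iB))
        = fun x => l2 * (fun y => fderiv ℝ b (update y iB 0) (ev iA)) x := by
      funext y
      rw [J_deriv (cg.of_le (by norm_num)), upd_one]
      simp only [hg]
      rw [a2, fd_quasi _ _ b2]
      ring
    rw [h1, J_const_mul]
    simp only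
    congr 1
    have h2 : (fun y => fderiv ℝ b (update y iB 0) (ev iA))
        = fun y => fderiv ℝ (fun y => b (update y iB 0)) y (ev iA) := by
      funext y
      rw [fd_upd (hb.of_le (by norm_num)) (by decide)]
    have h3 : ContDiff ℝ 1 (fun y : V6 => b (update y iB 0)) :=
      (hb.of_le (by norm_num)).comp (((contDiff_upd iB).comp
        (contDiff_id.prodMk contDiff_const)).of_le (by norm_num))
    rw [h2, J_deriv h3, upd_one]
    have h4 := upd_translate1 iB iA (by decide) (update x iA 0) 0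
    rw [h4, b1]
    ring
  beta_reduce
  rw [t1, t2]

/-- the fibre period of the pull back of the standard form by a quasi-periodic map -/
theorem cT_lift {F : V6 → E4} (hF : ContDiff ℝ ∞ F) {B : Matrix (Fin 2) (Fin 2) ℤ}
    (hA : ∀ x, F (x + ev iA) = F x + tr (el (B.mulVec ![1, 0])))
    (hB : ∀ x, F (x + ev iB) = F x + tr (el (B.mulVec ![0, 1]))) {α : F2}
    (hα : ∀ x u w, α x u w = om0 (fderiv ℝ F x u) (fderiv ℝ F x w)) : cT α = B.det := by
  set a : Fin 4 → V6 → ℝ := fun i x => F x i with ha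
  have hpr : ∀ i : Fin 4, ContDiff ℝ ∞ (fun y : E4 => y i) := fun i =>
    (EuclideanSpace.proj (𝕜 := ℝ) i : E4 →L[ℝ] ℝ).contDiff
  have hca : ∀ i, ContDiff ℝ ∞ (a i) := fun i => (hpr i).comp hF
  have hda : ∀ i x u, fderiv ℝ (a i) x u = (fderiv ℝ F x u) i := by
    intro i x u
    have h1 : HasFDerivAt (fun y : E4 => y i) (EuclideanSpace.proj (𝕜 := ℝ) i : E4 →L[ℝ] ℝ) (F x) :=
      (EuclideanSpace.proj (𝕜 := ℝ) i : E4 →L[ℝ] ℝ).hasFDerivAt
    have h2 := HasFDerivAt.comp (g := fun y : E4 => y i) x h1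
      (hF.differentiable (by simp) x).hasFDerivAt
    have h3 : fderiv ℝ (a i) x = _ := h2.fderiv
    rw [h3]
    rfl
  have hcmp : cmp α iA iB = fun x =>
      (fderiv ℝ (a 0) x (ev iA) * fderiv ℝ (a 1) x (ev iB)
        - fderiv ℝ (a 0) x (ev iB) * fderiv ℝ (a 1) x (ev iA))
      + (fderiv ℝ (a 2) x (ev iA) * fderiv ℝ (a 3) x (ev iB)
        - fderiv ℝ (a 2) x (ev iB) * fderiv ℝ (a 3) x (ev iA)) := by
    funext x
    unfold cmp
    rw [hα, om0_apply]
    simp only [hda]
    ring
  have hcont : ∀ i j : Fin 4, Continuous (fun x =>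
      fderiv ℝ (a i) x (ev iA) * fderiv ℝ (a j) x (ev iB)
        - fderiv ℝ (a i) x (ev iB) * fderiv ℝ (a j) x (ev iA)) := by
    intro i j
    exact (((contDiff_fd (hca i) _).mul (contDiff_fd (hca j) _)).sub
      ((contDiff_fd (hca i) _).mul (contDiff_fd (hca j) _))).continuous
  have hqA : ∀ i x, a i (x + ev iA) = a i x + tr (el (B.mulVec ![1, 0])) i := by
    intro i x
    simp only [ha, hA]
    rfl
  have hqB : ∀ i x, a i (x + ev iB) = a i x + tr (el (B.mulVec ![0, 1])) i := by
    intro i x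
    simp only [ha, hB]
    rfl
  unfold cT cc
  rw [hcmp, J_add (hcont 0 1) (hcont 2 3),
    J_add (continuous_J (hcont 0 1) _ _) (continuous_J (hcont 2 3) _ _)]
  simp only
  rw [null_lag (hca 0) (hca 1) (hqA 0) (hqB 0) (hqA 1) (hqB 1),
    null_lag (hca 2) (hca 3) (hqA 2) (hqB 2) (hqA 3) (hqB 3), Matrix.det_fin_two]
  simp [el, Matrix.mulVec, dotProduct, Fin.sum_univ_two]

end Pool.Agent.L5helper94.FS
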