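import Mathlib
import Pool.Agent.L5helper94.FS.Pull2

/-!
# Continuity of pull backs along families
-/

open scoped Manifold ContDiff Topology
open Set Filter Function

namespace Pool.Agent.L5helper94.FS

section
variable {V : Type*} [NormedAddCommGroup V] [NormedSpace ℝ V]
  {E : Type*} [NormedAddCommGroup E] [NormedSpace ℝ E]

variable {H : Type*} [TopologicalSpace H]
  {I : ModelWithCorners ℝ E H} [I.Boundaryless] {M : Type*} [TopologicalSpace M]
  [ChartedSpace H M] [IsManifold I ∞ M]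

/-- the truncation of the parameter to the unit interval -/
noncomputable def tau (t : ℝ) : ℝ := (projIcc (0 : ℝ) 1 zero_le_one t : ℝ)

theorem tau_mem (t : ℝ) : tau t ∈ Icc (0 : ℝ) 1 := (projIcc (0 : ℝ) 1 zero_le_one t).2

theorem continuous_tau : Continuous tau := continuous_subtype_val.comp continuous_projIcc

theorem tau_of_mem {t : ℝ} (ht : t ∈ Icc (0 : ℝ) 1) : tau t = t := by
  unfold tau
  rw [projIcc_of_mem zero_le_one ht]

theorem family_local {Ω : ℝ → BilinField I M}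
    (hΩ : ∀ x₀ : M, ContDiffOn ℝ ∞ (fun p : ℝ × E => formInChart (Ω p.1) x₀ p.2)
      (Icc (0 : ℝ) 1 ×ˢ (extChartAt I x₀).target))
    {ψ : V → E} {x₀ : M} {x₁ : V} {t₁ : ℝ} (hψ : ContinuousAt ψ x₁)
    (hm : ∀ᶠ z in 𝓝 x₁, ψ z ∈ (extChartAt I x₀).target) :
    ContinuousAt (fun p : ℝ × V => formInChart (Ω (tau p.1)) x₀ (ψ p.2)) (t₁, x₁) := by
  have h3 : ContinuousWithinAt (fun p : ℝ × E => formInChart (Ω p.1) x₀ p.2)
      (Icc (0 : ℝ) 1 ×ˢ (extChartAt I x₀).target) (tau t₁, ψ x₁) :=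
    (hΩ x₀).continuousOn _ ⟨tau_mem t₁, hm.self_of_nhds⟩
  have a1 : Tendsto (fun p : ℝ × V => tau p.1) (𝓝 (t₁, x₁)) (𝓝 (tau t₁)) :=
    (continuous_tau.comp continuous_fst).continuousAt
  have a2 : Tendsto (fun p : ℝ × V => ψ p.2) (𝓝 (t₁, x₁)) (𝓝 (ψ x₁)) :=
    Tendsto.comp (g := ψ) (f := fun p : ℝ × V => p.2) hψ continuousAt_snd
  have h5 : Tendsto (fun p : ℝ × V => (tau p.1, ψ p.2)) (𝓝 (t₁, x₁))
      (𝓝[Icc (0 : ℝ) 1 ×ˢ (extChartAt I x₀).target] (tau t₁, ψ x₁)) := by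
    refine tendsto_nhdsWithin_iff.2 ⟨a1.prodMk_nhds a2, ?_⟩
    have hm' : ∀ᶠ p : ℝ × V in 𝓝 (t₁, x₁), ψ p.2 ∈ (extChartAt I x₀).target :=
      (continuousAt_snd (p := (t₁, x₁))).eventually hm
    filter_upwards [hm'] with p hp
    exact ⟨tau_mem p.1, hp⟩
  exact Tendsto.comp (g := fun p : ℝ × E => formInChart (Ω p.1) x₀ p.2)
    (f := fun p : ℝ × V => (tau p.1, ψ p.2)) h3 h5

theorem family_continuous {Ω : ℝ → BilinField I M}
    (hΩ : ∀ x₀ : M, ContDiffOn ℝ ∞ (fun p : ℝ × E => formInChart (Ω p.1) x₀ p.2)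
      (Icc (0 : ℝ) 1 ×ˢ (extChartAt I x₀).target))
    {g : V → M} (hg : ContMDiff 𝓘(ℝ, V) I ∞ g) (u w : V) :
    Continuous (fun p : ℝ × V => pv g (Ω (tau p.1)) p.2 u w) := by
  rw [continuous_iff_continuousAt]
  rintro ⟨t₁, x₁⟩
  have hs1 : g x₁ ∈ (extChartAt I (g x₁)).source := mem_extChartAt_source _
  have hmem0 : ∀ᶠ z in 𝓝 x₁, g z ∈ (extChartAt I (g x₁)).source :=
    (hg.continuous.continuousAt).eventually_mem ((isOpen_extChartAt_source _).mem_nhds hs1)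
  have hmem : ∀ᶠ p : ℝ × V in 𝓝 (t₁, x₁), g p.2 ∈ (extChartAt I (g x₁)).source :=
    (continuousAt_snd (p := (t₁, x₁))).eventually hmem0
  set ψ : V → E := fun z => extChartAt I (g x₁) (g z) with hψdef
  have hψ : ContDiffAt ℝ ∞ ψ x₁ := contDiffAt_chart hs1 (hg x₁)
  have hψ1 : ContinuousAt (fderiv ℝ ψ) x₁ := (hψ.fderiv_right (m := 0) (by simp)).continuousAt
  have c1 : ∀ u : V, ContinuousAt (fun p : ℝ × V => fderiv ℝ ψ p.2 u) (t₁, x₁) := by
    intro u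
    have h2 : ContinuousAt (fun z => fderiv ℝ ψ z u) x₁ := hψ1.clm_apply continuousAt_const
    exact Tendsto.comp (g := fun z => fderiv ℝ ψ z u) (f := fun p : ℝ × V => p.2) h2
      continuousAt_snd
  have c2 : ContinuousAt (fun p : ℝ × V => formInChart (Ω (tau p.1)) (g x₁) (ψ p.2)) (t₁, x₁) := by
    refine family_local hΩ hψ.continuousAt ?_
    filter_upwards [hmem0] with z hz
    exact (extChartAt I (g x₁)).map_source hz
  have c3 : ContinuousAt (fun p : ℝ × V => formInChart (Ω (tau p.1)) (g x₁) (ψ p.2)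
      (fderiv ℝ ψ p.2 u) (fderiv ℝ ψ p.2 w)) (t₁, x₁) := (c2.clm_apply (c1 u)).clm_apply (c1 w)
  refine c3.congr ?_
  filter_upwards [hmem] with p hp
  have h := pull_local hp ((hg _).mdifferentiableAt (by simp)) (Ω (tau p.1))
  rw [h]
  rfl

end

end Pool.Agent.L5helper94.FS
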