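import Mathlib
import Pool.Agent.L5helper94.FS.Asm
import Pool.Agent.L5helper94.FS.Fam

/-!
# The two product forms are not deformation equivalent
-/

set_option maxSynthPendingDepth 3

open scoped Manifold ContDiff Topology
open Set Filter Function
open Pool.Agent.Helper831
open Pool.Agent.Helper206.Cover (sphP contMDiff_sphP)

namespace Pool.Agent.L5helper94.FS

/-! ### constructions of symplectic forms -/

section constr
variable {E : Type*} [NormedAddCommGroup E] [NormedSpace ℝ E] {H : Type*} [TopologicalSpace H]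
  {I : ModelWithCorners ℝ E H} {M : Type*} [TopologicalSpace M] [ChartedSpace H M]

theorem formInChart_smul (c : ℝ) (Ω : BilinField I M) (x₀ : M) (y : E) :
    formInChart (fun x => c • Ω x) x₀ y = c • formInChart Ω x₀ y := rfl

theorem formInChart_add (Ω Ω' : BilinField I M) (x₀ : M) (y : E) :
    formInChart (fun x => Ω x + Ω' x) x₀ y = formInChart Ω x₀ y + formInChart Ω' x₀ y := rfl

theorem IsClosedForm.smul [I.Boundaryless] {Ω : BilinField I M} (h : IsClosedForm Ω) (c : ℝ) :
    IsClosedForm (fun x => c • Ω x) where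
  alt x v := by
    show c • Ω x v v = 0
    rw [h.alt, smul_zero]
  smooth x₀ := by
    have : formInChart (fun x => c • Ω x) x₀ = fun y => c • formInChart Ω x₀ y :=
      funext fun y => formInChart_smul c Ω x₀ y
    rw [this]
    exact (h.smooth x₀).const_smul c
  closed x₀ y hy a b d := by
    have : formInChart (fun x => c • Ω x) x₀ = fun y => c • formInChart Ω x₀ y :=
      funext fun y => formInChart_smul c Ω x₀ y
    have hd : DifferentiableAt ℝ (formInChart Ω x₀) y :=
      ((h.smooth x₀).contDiffAt ((isOpen_extChartAt_target x₀).mem_nhds hy)).differentiableAt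
        (by simp)
    have hd2 : fderiv ℝ (fun y => c • formInChart Ω x₀ y) y = c • fderiv ℝ (formInChart Ω x₀) y :=
      (hd.hasFDerivAt.const_smul c).fderiv
    rw [this, hd2]
    have := h.closed x₀ y hy a b d
    show c • fderiv ℝ (formInChart Ω x₀) y a b d + c • fderiv ℝ (formInChart Ω x₀) y b d a
      + c • fderiv ℝ (formInChart Ω x₀) y d a b = 0
    rw [← smul_add, ← smul_add, this, smul_zero]

theorem IsClosedForm.add [I.Boundaryless] {Ω Ω' : BilinField I M} (h : IsClosedForm Ω)
    (h' : IsClosedForm Ω') : IsClosedForm (fun x => Ω x + Ω' x) where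
  alt x v := by
    show Ω x v v + Ω' x v v = 0
    rw [h.alt, h'.alt, add_zero]
  smooth x₀ := by
    have : formInChart (fun x => Ω x + Ω' x) x₀
        = fun y => formInChart Ω x₀ y + formInChart Ω' x₀ y :=
      funext fun y => formInChart_add Ω Ω' x₀ y
    rw [this]
    exact (h.smooth x₀).add (h'.smooth x₀)
  closed x₀ y hy a b d := by
    have : formInChart (fun x => Ω x + Ω' x) x₀
        = fun y => formInChart Ω x₀ y + formInChart Ω' x₀ y :=
      funext fun y => formInChart_add Ω Ω' x₀ y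
    have hd : DifferentiableAt ℝ (formInChart Ω x₀) y :=
      ((h.smooth x₀).contDiffAt ((isOpen_extChartAt_target x₀).mem_nhds hy)).differentiableAt
        (by simp)
    have hd' : DifferentiableAt ℝ (formInChart Ω' x₀) y :=
      ((h'.smooth x₀).contDiffAt ((isOpen_extChartAt_target x₀).mem_nhds hy)).differentiableAt
        (by simp)
    rw [this, fderiv_fun_add hd hd']
    have e1 := h.closed x₀ y hy a b d
    have e2 := h'.closed x₀ y hy a b d
    show (fderiv ℝ (formInChart Ω x₀) y a b d + fderiv ℝ (formInChart Ω' x₀) y a b d)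
      + (fderiv ℝ (formInChart Ω x₀) y b d a + fderiv ℝ (formInChart Ω' x₀) y b d a)
      + (fderiv ℝ (formInChart Ω x₀) y d a b + fderiv ℝ (formInChart Ω' x₀) y d a b) = 0
    linarith

theorem IsSymplectic.smul [I.Boundaryless] {Ω : BilinField I M} (h : IsSymplectic Ω) {c : ℝ}
    (hc : c ≠ 0) : IsSymplectic (fun x => c • Ω x) where
  toIsClosedForm := h.toIsClosedForm.smul c
  nondegenerate x v hv := by
    refine h.nondegenerate x v fun w => ?_
    have h1 : c • Ω x v w = 0 := hv w
    rwa [smul_eq_zero_iff_right hc] at h1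

theorem IsSymplectic.neg [I.Boundaryless] {Ω : BilinField I M} (h : IsSymplectic Ω) :
    IsSymplectic (fun x => - Ω x) := by
  have h1 := h.smul (c := -1) (by norm_num)
  have h2 : (fun x => (-1 : ℝ) • Ω x) = fun x => - Ω x := by
    funext x
    rw [neg_smul, one_smul]
  rwa [h2] at h1

variable {E' : Type*} [NormedAddCommGroup E'] [NormedSpace ℝ E'] {H' : Type*}
  [TopologicalSpace H'] {J : ModelWithCorners ℝ E' H'} {N : Type*} [TopologicalSpace N]
  [ChartedSpace H' N]

theorem pull_fst_apply (Ω : BilinField I M) (x : M × N) (u w : E × E') :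
    (pull (J := I.prod J) Prod.fst Ω x : (E × E') →L[ℝ] (E × E') →L[ℝ] ℝ) u w
      = (Ω x.1 : E →L[ℝ] E →L[ℝ] ℝ) u.1 w.1 := by
  show (Ω x.1 : E →L[ℝ] E →L[ℝ] ℝ) (mfderiv (I.prod J) I Prod.fst x u)
    (mfderiv (I.prod J) I Prod.fst x w) = _
  rw [mfderiv_fst]
  rfl

theorem pull_snd_apply (σ : BilinField J N) (x : M × N) (u w : E × E') :
    (pull (J := I.prod J) Prod.snd σ x : (E × E') →L[ℝ] (E × E') →L[ℝ] ℝ) u w
      = (σ x.2 : E' →L[ℝ] E' →L[ℝ] ℝ) u.2 w.2 := by
  show (σ x.2 : E' →L[ℝ] E' →L[ℝ] ℝ) (mfderiv (I.prod J) J Prod.snd x u)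
    (mfderiv (I.prod J) J Prod.snd x w) = _
  rw [mfderiv_snd]
  rfl

theorem prodForm_apply (Ω : BilinField I M) (σ : BilinField J N) (x : M × N) (u w : E × E') :
    (prodForm Ω σ x : (E × E') →L[ℝ] (E × E') →L[ℝ] ℝ) u w
      = (Ω x.1 : E →L[ℝ] E →L[ℝ] ℝ) u.1 w.1 + (σ x.2 : E' →L[ℝ] E' →L[ℝ] ℝ) u.2 w.2 := by
  rw [← pull_fst_apply (J := J) Ω x u w, ← pull_snd_apply (I := I) σ x u w]
  rfl

variable [I.Boundaryless] [J.Boundaryless] [IsManifold I ∞ M] [IsManifold J ∞ N]

theorem isSymplectic_prodForm {Ω : BilinField I M} {σ : BilinField J N} (h : IsSymplectic Ω)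
    (h' : IsSymplectic σ) : IsSymplectic (prodForm Ω σ) where
  toIsClosedForm := (h.toIsClosedForm.pull contMDiff_fst).add (h'.toIsClosedForm.pull contMDiff_snd)
  nondegenerate x v hv := by
    have h1 : ∀ w : E × E', (Ω x.1 : E →L[ℝ] E →L[ℝ] ℝ) (v : E × E').1 w.1
        + (σ x.2 : E' →L[ℝ] E' →L[ℝ] ℝ) (v : E × E').2 w.2 = 0 := by
      intro w
      rw [← prodForm_apply Ω σ x v w]
      exact hv w
    refine Prod.ext ?_ ?_
    · refine h.nondegenerate x.1 (v : E × E').1 fun w => ?_
      have h2 := h1 (w, 0)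
      have h3 : (σ x.2 : E' →L[ℝ] E' →L[ℝ] ℝ) (v : E × E').2 (0 : E') = 0 :=
        map_zero ((σ x.2 : E' →L[ℝ] E' →L[ℝ] ℝ) (v : E × E').2)
      rw [h3, add_zero] at h2
      exact h2
    · refine h'.nondegenerate x.2 (v : E × E').2 fun w => ?_
      have h2 := h1 (0, w)
      have h3 : (Ω x.1 : E →L[ℝ] E →L[ℝ] ℝ) (v : E × E').1 (0 : E) = 0 :=
        map_zero ((Ω x.1 : E →L[ℝ] E →L[ℝ] ℝ) (v : E × E').1)
      rw [h3, zero_add] at h2
      exact h2

theorem isSymplectic_pull (φ : N ≃ₘ^∞⟮J, I⟯ M) {Ω : BilinField I M} (h : IsSymplectic Ω) :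
    IsSymplectic (pull (J := J) φ Ω) where
  toIsClosedForm := h.toIsClosedForm.pull φ.contMDiff
  nondegenerate x v hv := by
    have h1 := φ.mfderivToContinuousLinearEquiv (by simp) x
    have h2 : (mfderiv J I φ x v : TangentSpace I (φ x)) = 0 := by
      refine h.nondegenerate (φ x) _ fun w => ?_
      have h3 := hv ((φ.mfderivToContinuousLinearEquiv (by simp) x).symm w)
      have h4 : mfderiv J I φ x ((φ.mfderivToContinuousLinearEquiv (by simp) x).symm w) = w :=
        (φ.mfderivToContinuousLinearEquiv (by simp) x).apply_symm_apply w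
      rw [← h4]
      exact h3
    have h5 : (φ.mfderivToContinuousLinearEquiv (by simp) x) v = 0 := h2
    exact (φ.mfderivToContinuousLinearEquiv (by simp) x).map_eq_zero_iff.1 h5

end constr

end Pool.Agent.L5helper94.FS
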