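import Mathlib
import Pool.Agent.L5helper94.FS.Final

/-!
# The two product forms are not deformation equivalent
-/

set_option maxSynthPendingDepth 3

open scoped Manifold ContDiff Topology
open Set Filter Function
open Pool.Agent.Helper831
open Pool.Agent.Helper206.Cover (sphP contMDiff_sphP)

namespace Pool.Agent.L5helper94.FS

/-- tangent vectors of the product -/
abbrev E6 : Type := E4 × EuclideanSpace ℝ (Fin 2)

/-- the fibre period -/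
noncomputable def per (Ω : BilinField ((𝓡 4).prod (𝓡 2)) (X4 × S2)) : ℝ := cT (aP Ω)

theorem aP_apply (Ω : BilinField ((𝓡 4).prod (𝓡 2)) (X4 × S2)) (x u w : V6) :
    aP Ω x u w = (Ω (PP x) : E6 →L[ℝ] E6 →L[ℝ] ℝ)
      (mfderiv 𝓘(ℝ, V6) ((𝓡 4).prod (𝓡 2)) PP x u) (mfderiv 𝓘(ℝ, V6) ((𝓡 4).prod (𝓡 2)) PP x w) :=
  rfl

theorem per_prod (σ : BilinField (𝓡 2) S2) : per (prodForm omX σ) = 1 := by
  have h1 : cmp (aP (prodForm omX σ)) iA iB = fun _ => 1 := by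
    funext x
    unfold cmp
    rw [aP_apply, prodForm_apply, mfderiv_PP, mfderiv_PP]
    have hA : toR2 (ev iA) = 0 := by
      refine Prod.ext ?_ ?_ <;> simp
    have e1 : (mfderiv 𝓘(ℝ, ℝ × ℝ) (𝓡 2) sphP (toR2 x) (toR2 (ev iA)) : EuclideanSpace ℝ (Fin 2))
        = 0 := by
      rw [hA]
      exact map_zero (mfderiv 𝓘(ℝ, ℝ × ℝ) (𝓡 2) sphP (toR2 x))
    simp only
    have e2 : (σ (PP x).2 : EuclideanSpace ℝ (Fin 2) →L[ℝ] EuclideanSpace ℝ (Fin 2) →L[ℝ] ℝ)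
        (mfderiv 𝓘(ℝ, ℝ × ℝ) (𝓡 2) sphP (toR2 x) (toR2 (ev iA)))
        (mfderiv 𝓘(ℝ, ℝ × ℝ) (𝓡 2) sphP (toR2 x) (toR2 (ev iB))) = 0 := by
      have gen : ∀ (L : EuclideanSpace ℝ (Fin 2) →L[ℝ] EuclideanSpace ℝ (Fin 2) →L[ℝ] ℝ)
          (a b : EuclideanSpace ℝ (Fin 2)), a = 0 → L a b = 0 := by
        intro L a b h
        rw [h]; simp
      exact gen _ _ _ e1
    have e3 : om0 (mfderiv 𝓘(ℝ, E4) (𝓡 4) pj (toE4 x) (toE4 (ev iA)) : E4)
        (mfderiv 𝓘(ℝ, E4) (𝓡 4) pj (toE4 x) (toE4 (ev iB)) : E4) = 1 := by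
      rw [om0_pj, om0_apply]
      simp
    have e4 : ∀ a b : ℝ, a = 1 → b = 0 → a + b = 1 := by
      intro a b h1 h2; rw [h1, h2, add_zero]
    exact e4 _ _ e3 e2
  unfold per cT cc
  rw [h1]
  simp [J]

theorem aP_lin (φ : X4 × S2 → X4 × S2) (σ : BilinField (𝓡 2) S2) (c : ℝ) (x u w : V6) :
    aP (pull (J := (𝓡 4).prod (𝓡 2)) φ (prodForm (fun x => - omX x) (fun x => c • σ x))) x u w
      = - aP (pull (J := (𝓡 4).prod (𝓡 2)) φ (pull (J := (𝓡 4).prod (𝓡 2)) Prod.fst omX)) x u w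
        + c * aP (pull (J := (𝓡 4).prod (𝓡 2)) φ (pull (J := (𝓡 4).prod (𝓡 2)) Prod.snd σ)) x u w := by
  set a : E6 := mfderiv ((𝓡 4).prod (𝓡 2)) ((𝓡 4).prod (𝓡 2)) φ (PP x)
    (mfderiv 𝓘(ℝ, V6) ((𝓡 4).prod (𝓡 2)) PP x u) with ha
  set b : E6 := mfderiv ((𝓡 4).prod (𝓡 2)) ((𝓡 4).prod (𝓡 2)) φ (PP x)
    (mfderiv 𝓘(ℝ, V6) ((𝓡 4).prod (𝓡 2)) PP x w) with hb
  have h1 : aP (pull (J := (𝓡 4).prod (𝓡 2)) φ (prodForm (fun x => - omX x) (fun x => c • σ x))) x u w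
      = (prodForm (fun x => - omX x) (fun x => c • σ x) (φ (PP x)) : E6 →L[ℝ] E6 →L[ℝ] ℝ) a b := rfl
  have h2 : aP (pull (J := (𝓡 4).prod (𝓡 2)) φ (pull (J := (𝓡 4).prod (𝓡 2)) Prod.fst omX)) x u w
      = (pull (J := (𝓡 4).prod (𝓡 2)) Prod.fst omX (φ (PP x)) : E6 →L[ℝ] E6 →L[ℝ] ℝ) a b := rfl
  have h3 : aP (pull (J := (𝓡 4).prod (𝓡 2)) φ (pull (J := (𝓡 4).prod (𝓡 2)) Prod.snd σ)) x u w
      = (pull (J := (𝓡 4).prod (𝓡 2)) Prod.snd σ (φ (PP x)) : E6 →L[ℝ] E6 →L[ℝ] ℝ) a b := rfl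
  rw [h1, h2, h3, prodForm_apply, pull_fst_apply (J := 𝓡 2) omX, pull_snd_apply (I := 𝓡 4) σ]
  rfl

theorem per_lin (φ : (X4 × S2) ≃ₘ^∞⟮(𝓡 4).prod (𝓡 2), (𝓡 4).prod (𝓡 2)⟯ (X4 × S2))
    {σ : BilinField (𝓡 2) S2} (hσ : IsSymplectic σ) (c : ℝ) :
    per (pull (J := (𝓡 4).prod (𝓡 2)) φ (prodForm (fun x => - omX x) (fun x => c • σ x)))
      = - per (pull (J := (𝓡 4).prod (𝓡 2)) φ (pull (J := (𝓡 4).prod (𝓡 2)) Prod.fst omX))
        + c * per (pull (J := (𝓡 4).prod (𝓡 2)) φ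
          (pull (J := (𝓡 4).prod (𝓡 2)) Prod.snd σ)) := by
  have k1 : IsClosedForm (pull (J := (𝓡 4).prod (𝓡 2)) φ
      (pull (J := (𝓡 4).prod (𝓡 2)) Prod.fst omX)) :=
    (isSymplectic_omX.toIsClosedForm.pull contMDiff_fst).pull φ.contMDiff
  have k2 : IsClosedForm (pull (J := (𝓡 4).prod (𝓡 2)) φ
      (pull (J := (𝓡 4).prod (𝓡 2)) Prod.snd σ)) :=
    (hσ.toIsClosedForm.pull contMDiff_snd).pull φ.contMDiff
  set α₁ := aP (pull (J := (𝓡 4).prod (𝓡 2)) φ (pull (J := (𝓡 4).prod (𝓡 2)) Prod.fst omX)) with h1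
  set α₂ := aP (pull (J := (𝓡 4).prod (𝓡 2)) φ (pull (J := (𝓡 4).prod (𝓡 2)) Prod.snd σ)) with h2
  have c1 : Continuous (cmp α₁ iA iB) := (contDiff_cmp (contDiff_aP k1) iA iB).continuous
  have c2 : Continuous (cmp α₂ iA iB) := (contDiff_cmp (contDiff_aP k2) iA iB).continuous
  have h3 : cmp (aP (pull (J := (𝓡 4).prod (𝓡 2)) φ
      (prodForm (fun x => - omX x) (fun x => c • σ x)))) iA iB
      = fun x => (-1) * cmp α₁ iA iB x + c * cmp α₂ iA iB x := by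
    funext x
    unfold cmp
    rw [aP_lin, ← h1, ← h2]
    ring
  unfold per cT cc
  rw [h3, ← h1, ← h2]
  have d1 : Continuous (fun x => (-1) * cmp α₁ iA iB x) := continuous_const.mul c1
  have d2 : Continuous (fun x => c * cmp α₂ iA iB x) := continuous_const.mul c2
  rw [J_add d1 d2, J_add (continuous_J d1 _ _) (continuous_J d2 _ _), J_const_mul, J_const_mul,
    J_const_mul, J_const_mul]
  ring

theorem per_phi (φ : (X4 × S2) ≃ₘ^∞⟮(𝓡 4).prod (𝓡 2), (𝓡 4).prod (𝓡 2)⟯ (X4 × S2)) :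
    per (pull (J := (𝓡 4).prod (𝓡 2)) φ (pull (J := (𝓡 4).prod (𝓡 2)) Prod.fst omX)) = 1 := by
  obtain ⟨F, B, hF, hpj, hq, hdet⟩ := exists_lift_det φ.toHomeomorph
  set G : V6 → E4 := fun x => F (toE4 x, sphP (toR2 x)) with hG
  have hGc : Continuous G := by
    refine hF.comp (toE4.continuous.prodMk ?_)
    exact contMDiff_sphP.continuous.comp toR2.continuous
  have hfun : (fun x => pj (G x)) = fun x => (φ (PP x)).1 := by
    funext x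
    exact hpj _ _
  have hsm : ContMDiff 𝓘(ℝ, V6) (𝓡 4) ∞ (fun x => (φ (PP x)).1) :=
    contMDiff_fst.comp (φ.contMDiff.comp contMDiff_PP)
  have hGs : ContDiff ℝ ∞ G := lift_smooth hGc (by rw [hfun]; exact hsm)
  have hdet' : ((B.det : ℤ) : ℝ) = 1 := by rw [hdet]; simp
  unfold per
  refine (cT_lift hGs (B := B) ?_ ?_ ?_).trans hdet'
  · intro x
    have h1 : toE4 (x + ev iA) = toE4 x + tr (el ![1, 0]) := by
      refine E4_ext ?_ ?_ ?_ ?_ <;> simp [el]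
    have h2 : toR2 (x + ev iA) = toR2 x := by
      refine Prod.ext ?_ ?_ <;> simp
    simp only [hG]
    rw [h1, h2, hq]
  · intro x
    have h1 : toE4 (x + ev iB) = toE4 x + tr (el ![0, 1]) := by
      refine E4_ext ?_ ?_ ?_ ?_ <;> simp [el]
    have h2 : toR2 (x + ev iB) = toR2 x := by
      refine Prod.ext ?_ ?_ <;> simp
    simp only [hG]
    rw [h1, h2, hq]
  · intro x u w
    have hd : ∀ u : V6, (mfderiv ((𝓡 4).prod (𝓡 2)) ((𝓡 4).prod (𝓡 2)) φ (PP x)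
        (mfderiv 𝓘(ℝ, V6) ((𝓡 4).prod (𝓡 2)) PP x u) : E6).1
        = (mfderiv 𝓘(ℝ, E4) (𝓡 4) pj (G x) (fderiv ℝ G x u) : E4) := by
      intro u
      have dφ : MDifferentiableAt ((𝓡 4).prod (𝓡 2)) ((𝓡 4).prod (𝓡 2)) φ (PP x) :=
        (φ.contMDiff _).mdifferentiableAt (by simp)
      have e1 := mfderiv_comp x dφ (mdiff_PP x)
      have dfst : MDifferentiableAt ((𝓡 4).prod (𝓡 2)) (𝓡 4) (Prod.fst : X4 × S2 → X4)
        (φ (PP x)) := (contMDiff_fst _).mdifferentiableAt (n := ∞) (by simp)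
      have e2 := mfderiv_comp (I := 𝓘(ℝ, V6)) (f := fun x => φ (PP x)) x dfst (dφ.comp x (mdiff_PP x))
      have e3 : (mfderiv 𝓘(ℝ, V6) (𝓡 4) (fun x => (φ (PP x)).1) x u : E4)
          = (mfderiv ((𝓡 4).prod (𝓡 2)) ((𝓡 4).prod (𝓡 2)) φ (PP x)
        (mfderiv 𝓘(ℝ, V6) ((𝓡 4).prod (𝓡 2)) PP x u) : E6).1 := by
        have a1 : (mfderiv 𝓘(ℝ, V6) (𝓡 4) (fun x => (φ (PP x)).1) x u : E4)
          = (mfderiv ((𝓡 4).prod (𝓡 2)) (𝓡 4) (Prod.fst : X4 × S2 → X4) (φ (PP x))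
            (mfderiv 𝓘(ℝ, V6) ((𝓡 4).prod (𝓡 2)) (fun x => φ (PP x)) x u) : E4) :=
          congrArg (fun L : V6 →L[ℝ] E4 => L u) e2
        have a2 : (mfderiv 𝓘(ℝ, V6) ((𝓡 4).prod (𝓡 2)) (fun x => φ (PP x)) x u : E6)
          = (mfderiv ((𝓡 4).prod (𝓡 2)) ((𝓡 4).prod (𝓡 2)) φ (PP x)
            (mfderiv 𝓘(ℝ, V6) ((𝓡 4).prod (𝓡 2)) PP x u) : E6) :=
          congrArg (fun L : V6 →L[ℝ] E6 => L u) e1
        rw [a1, a2, mfderiv_fst]
        rfl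
      have dpj : MDifferentiableAt 𝓘(ℝ, E4) (𝓡 4) pj (G x) :=
        (pj_contMDiff _).mdifferentiableAt (by simp)
      have dG : MDifferentiableAt 𝓘(ℝ, V6) 𝓘(ℝ, E4) G x :=
        (hGs.differentiable (by simp) x).mdifferentiableAt
      have e4 := mfderiv_comp x dpj dG
      have e5 : (mfderiv 𝓘(ℝ, V6) (𝓡 4) (fun x => pj (G x)) x u : E4)
          = (mfderiv 𝓘(ℝ, E4) (𝓡 4) pj (G x) (fderiv ℝ G x u) : E4) := by
        have a1 : (mfderiv 𝓘(ℝ, V6) (𝓡 4) (fun x => pj (G x)) x u : E4)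
          = (mfderiv 𝓘(ℝ, E4) (𝓡 4) pj (G x) (mfderiv 𝓘(ℝ, V6) 𝓘(ℝ, E4) G x u) : E4) :=
          congrArg (fun L : V6 →L[ℝ] E4 => L u) e4
        rw [a1, mfderiv_eq_fderiv]
        rfl
      have e6 : ∀ f g : V6 → X4, f = g → (mfderiv 𝓘(ℝ, V6) (𝓡 4) f x u : E4)
          = (mfderiv 𝓘(ℝ, V6) (𝓡 4) g x u : E4) := by
        rintro f g rfl; rfl
      rw [← e3, ← e5]
      exact (e6 _ _ hfun).symm
    have h2 : aP (pull (J := (𝓡 4).prod (𝓡 2)) φ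
        (pull (J := (𝓡 4).prod (𝓡 2)) Prod.fst omX)) x u w
      = (pull (J := (𝓡 4).prod (𝓡 2)) Prod.fst omX (φ (PP x)) : E6 →L[ℝ] E6 →L[ℝ] ℝ)
        (mfderiv ((𝓡 4).prod (𝓡 2)) ((𝓡 4).prod (𝓡 2)) φ (PP x)
          (mfderiv 𝓘(ℝ, V6) ((𝓡 4).prod (𝓡 2)) PP x u))
        (mfderiv ((𝓡 4).prod (𝓡 2)) ((𝓡 4).prod (𝓡 2)) φ (PP x)
          (mfderiv 𝓘(ℝ, V6) ((𝓡 4).prod (𝓡 2)) PP x w)) := rfl
    rw [h2, pull_fst_apply (J := 𝓡 2) omX, hd, hd]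
    exact om0_pj _ _ _

theorem cont_double {f : ℝ → V6 → ℝ} (hf : Continuous (uncurry f)) :
    Continuous (fun t => ∫ r in (0 : ℝ)..1, ∫ r' in (0 : ℝ)..1,
      f t (update (update 0 iA r) iB r')) := by
  have e0 : Continuous (fun q : (ℝ × ℝ) × ℝ => update (0 : V6) iA q.1.2) :=
    (continuous_const (y := (0 : V6))).update iA (continuous_snd.comp continuous_fst)
  have e1 : Continuous (fun q : (ℝ × ℝ) × ℝ => update (update (0 : V6) iA q.1.2) iB q.2) :=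
    e0.update iB continuous_snd
  have e : Continuous (fun q : (ℝ × ℝ) × ℝ => (q.1.1, update (update (0 : V6) iA q.1.2) iB q.2)) :=
    (continuous_fst.comp continuous_fst).prodMk e1
  have h2 : Continuous (uncurry fun (p : ℝ × ℝ) (r : ℝ) =>
      f p.1 (update (update 0 iA p.2) iB r)) := hf.comp e
  have h3 : Continuous (uncurry fun (t : ℝ) (r : ℝ) => ∫ r' in (0 : ℝ)..1,
      f t (update (update 0 iA r) iB r')) :=
    intervalIntegral.continuous_parametric_intervalIntegral_of_continuous' h2 0 1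
  exact intervalIntegral.continuous_parametric_intervalIntegral_of_continuous' h3 0 1

theorem per_eq (Ω : BilinField ((𝓡 4).prod (𝓡 2)) (X4 × S2)) :
    per Ω = ∫ r in (0 : ℝ)..1, ∫ r' in (0 : ℝ)..1,
      cmp (aP Ω) iA iB (update (update 0 iA r) iB r') := rfl

theorem continuous_per {Ω : ℝ → BilinField ((𝓡 4).prod (𝓡 2)) (X4 × S2)}
    (hΩ : ∀ x₀ : X4 × S2, ContDiffOn ℝ ∞ (fun p : ℝ × E6 => formInChart (Ω p.1) x₀ p.2)
      (Icc (0 : ℝ) 1 ×ˢ (extChartAt ((𝓡 4).prod (𝓡 2)) x₀).target)) :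
    Continuous (fun t => per (Ω (tau t))) := by
  have h1 : Continuous (uncurry fun (t : ℝ) (x : V6) => cmp (aP (Ω (tau t))) iA iB x) :=
    family_continuous hΩ contMDiff_PP (ev iA) (ev iB)
  simp only [per_eq]
  exact cont_double h1

/-- **The main theorem.** -/
theorem not_deformationEquivalent {σ σ' : BilinField (𝓡 2) S2}
    (hσ' : IsSymplectic σ') :
    ¬ DeformationEquivalent (prodForm omX σ) (prodForm (fun x => - omX x) σ') := by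
  rintro ⟨φ, Ω, hΩ, hsm, h0, h1⟩
  have hcont := continuous_per hsm
  have hne : ∀ t, per (Ω (tau t)) ≠ 0 := fun t => cT_aP_ne_zero (hΩ _ (tau_mem t))
  have f0 : per (Ω (tau 0)) = 1 := by
    rw [tau_of_mem (by simp), h0, per_prod]
  have hpos : 0 < per (Ω (tau 1)) := by
    by_contra hneg
    have hiv := intermediate_value_Icc' (zero_le_one' ℝ) hcont.continuousOn
    have : (0 : ℝ) ∈ Icc (per (Ω (tau 1))) (per (Ω (tau 0))) := ⟨not_lt.1 hneg, by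
      rw [f0]; norm_num⟩
    obtain ⟨t, _, ht⟩ := hiv this
    exact hne t ht
  rw [tau_of_mem (by simp), h1] at hpos
  set D := per (pull (J := (𝓡 4).prod (𝓡 2)) φ (pull (J := (𝓡 4).prod (𝓡 2)) Prod.snd σ')) with hD
  have e1 : (fun x => (1 : ℝ) • σ' x) = σ' := by
    funext x; rw [one_smul]
  have h2 := per_lin φ hσ' 1
  rw [e1, per_phi, ← hD] at h2
  rw [h2] at hpos
  have hDpos : 1 < D := by linarith
  have hD0 : D ≠ 0 := by linarith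
  have hsymp : IsSymplectic (pull (J := (𝓡 4).prod (𝓡 2)) φ
      (prodForm (fun x => - omX x) (fun x => D⁻¹ • σ' x))) :=
    isSymplectic_pull φ (isSymplectic_prodForm isSymplectic_omX.neg (hσ'.smul (inv_ne_zero hD0)))
  have h3 := cT_aP_ne_zero hsymp
  have h4 := per_lin φ hσ' D⁻¹
  rw [per_phi, ← hD, inv_mul_cancel₀ hD0] at h4
  apply h3
  have h5 : per (pull (J := (𝓡 4).prod (𝓡 2)) φ
      (prodForm (fun x => - omX x) (fun x => D⁻¹ • σ' x))) = 0 := by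
    rw [h4]; ring
  exact h5

end Pool.Agent.L5helper94.FS
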