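import Mathlib
import Pool.Agent.L5helper94.FS.Final

/-!
# Closed symplectic four-manifolds and their products with the sphere
-/

open scoped Manifold ContDiff

noncomputable section

namespace Pool.Agent.L5helper94.FS

/-- An area form on the two-sphere (of either sign): a symplectic form on the sphere. -/
structure AreaForm where
  /-- the form -/
  form : BilinField (𝓡 2) S2
  symplectic : IsSymplectic form

/-- A closed symplectic four-manifold: a compact connected Hausdorff smooth manifold `X` modelled
on `ℝ⁴` (without boundary) with a symplectic form. -/
structure SympFour where
  /-- the manifold -/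
  X : Type
  [top : TopologicalSpace X]
  [charts : ChartedSpace (EuclideanSpace ℝ (Fin 4)) X]
  [smooth : IsManifold (𝓡 4) ∞ X]
  [compact : CompactSpace X]
  [connected : ConnectedSpace X]
  [hausdorff : T2Space X]
  /-- the form -/
  form : BilinField (𝓡 4) X
  symplectic : IsSymplectic form

attribute [instance] SympFour.top SympFour.charts SympFour.smooth SympFour.compact
  SympFour.connected SympFour.hausdorff

theorem isSymplectic_negForm {E : Type*} [NormedAddCommGroup E] [NormedSpace ℝ E] {H : Type*}
    [TopologicalSpace H] {I : ModelWithCorners ℝ E H} [I.Boundaryless] {M : Type*}
    [TopologicalSpace M] [ChartedSpace H M] {Ω : BilinField I M} (h : IsSymplectic Ω) :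
    IsSymplectic (negForm Ω) := h.neg

/-- The symplectic manifold `(X, -ω)`. -/
def SympFour.neg (A : SympFour) : SympFour where
  X := A.X
  form := negForm A.form
  symplectic := isSymplectic_negForm A.symplectic

end Pool.Agent.L5helper94.FS
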